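import Pool.Agent.helper71.AL.Copies

/-!
# The cube configuration and the final contradiction
-/

set_option autoImplicit false

open Filter Topology

namespace Pool.Agent.helper71.AL

variable {X : Type*} [NormedAddCommGroup X] [NormedSpace ℝ X]
variable {n : ℕ}
variable {T : ℕ → Submodule ℝ X} {f : (Fin n → ℕ) → Fin n → X} {C : ℝ} {Pr : ℕ → X →L[ℝ] X}

/-- Extension by zero. -/
def ext {S : Type*} (t : Fin n × S → ℝ) (i : Fin n) : Option S → ℝ
  | none => 0
  | some x => t (i, x)

theorem exists_config {K : ℝ} (H : ∀ (J : ℕ) (N : (Fin J → ℝ) → ℝ), Asy T J N → Iso K N)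
    (hK : 1 ≤ K) (hf : Strat T f) (hPr : Proj T C Pr) (hn : 0 < n)
    {S E : Type*} [Fintype S] [DecidableEq S] [Nonempty S] [Fintype E] [DecidableEq E]
    (v : E → Bool → Option S) (w : E → ℝ) (hw : ∀ e, 0 ≤ w e)
    (hv : ∀ x, ∃ e, v e true = some x ∧ w e ≠ 0) :
    ∃ NZ : (Fin n × S → ℝ) → ℝ, Iso K NZ ∧ (∀ t, 0 ≤ NZ t) ∧
      (∀ t, 2 ^ n * ∑ e, w e * ∑ i, |ext t i (v e true) - ext t i (v e false)| ≤
        2 * ((16 * K ^ 3) * (8 * C * (16 * K ^ 3) ^ 3 * K ^ 3)) * NZ t) ∧
      (∀ t, NZ t ≤ ∑ e, w e * ∑ ε : Fin n → Bool, EE f (fun i => ext t i (v e (ε i)))) := by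
  classical
  have hne : Nonempty (Fin n) := ⟨⟨0, hn⟩⟩
  have hE : Nonempty E := by
    obtain ⟨x⟩ := (inferInstance : Nonempty S)
    obtain ⟨e, _⟩ := hv x
    exact ⟨e⟩
  have hC0 : 0 < C := lt_of_lt_of_le one_pos hPr.one_le
  set CA : ℝ := 16 * K ^ 3 with hCA
  have hCA0 : 0 < CA := by positivity
  set CR : ℝ := 8 * C * CA ^ 3 * K ^ 3 with hCR
  have hCR0 : 0 < CR := by positivity
  let num : E × (Fin n → Bool) → ℕ := fun m => (Fintype.equivFin _ m : ℕ)
  let numO : Option S → ℕ := fun o => (Fintype.equivFin (Option S) o : ℕ)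
  set μ : ℕ := Fintype.card (E × (Fin n → Bool)) with hμ
  have hμ0 : 0 < μ := Fintype.card_pos
  set s : ℕ := Fintype.card (Option S) with hs
  let lab : E × (Fin n → Bool) → ℕ → ℕ := fun m i =>
    if h : i < n then numO (v m.1 (m.2 ⟨i, h⟩)) else 0
  have hs0 : 0 < s := Fintype.card_pos
  have hnumO : ∀ o, numO o < s := fun o => (Fintype.equivFin (Option S) o).2
  have hnumOinj : Function.Injective numO :=
    fun a b h => (Fintype.equivFin (Option S)).injective (Fin.ext h)
  have hnum : ∀ m, num m < μ := fun m => (Fintype.equivFin _ m).2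
  have hlabi : ∀ (m : E × (Fin n → Bool)) (i : Fin n), lab m i = numO (v m.1 (m.2 i)) := by
    intro m i
    simp only [lab, i.2, dif_pos]
  have hlab : ∀ m i, lab m i < s := by
    intro m i
    simp only [lab]
    split_ifs
    · exact hnumO _
    · exact hs0
  have hP : GoodD (posn μ s num lab) n (2 * (μ * (s * n))) :=
    goodD_posn hnum (fun a b h => (Fintype.equivFin _).injective (Fin.ext h)) hlab n
  set P := posn μ s num lab with hPd
  set Q := 2 * (μ * (s * n)) with hQ
  let β : Fin n × S → E × (Fin n → Bool) → Fin n → ℝ := fun c m i =>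
    if i = c.1 ∧ v m.1 (m.2 i) = some c.2 then w m.1 else 0
  have hβ : ∀ c m i, β c m i = if i = c.1 ∧ v m.1 (m.2 i) = some c.2 then w m.1 else 0 :=
    fun _ _ _ => rfl
  have hcomb : ∀ t : Fin n × S → ℝ, comb β t = fun m i => w m.1 * ext t i (v m.1 (m.2 i)) := by
    intro t
    funext m i
    unfold comb
    rw [Finset.sum_apply, Finset.sum_apply]
    simp only [Pi.smul_apply, smul_eq_mul, hβ]
    rcases hvm : v m.1 (m.2 i) with _ | x
    · simp [ext]
    · rw [Finset.sum_eq_single (i, x)]
      · simp [ext, mul_comm]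
      · rintro ⟨i', x'⟩ _ hne
        rw [if_neg, mul_zero]
        rintro ⟨h1, h2⟩
        apply hne
        simp only [Option.some.injEq] at h2
        dsimp only at h1
        rw [h1, h2]
      · intro h; exact absurd (Finset.mem_univ _) h
  have hdiv : ∀ (m : E × (Fin n → Bool)) (i : ℕ) (b : ℕ), b < 2 →
      (P m i + b) / (2 * μ) = s * i + lab m i := by
    intro m i b hb
    have h1 := hnum m
    have h2 : P m i + b = 2 * μ * (s * i + lab m i) + (2 * num m + b) := by
      simp only [hPd, posn]; ring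
    rw [h2, Nat.mul_add_div (by omega), Nat.div_eq_of_lt (by omega), add_zero]
  have hiso := iso_blockD H hf hPr hP (κ := Fin n × S) (fun c => s * c.1 + numO (some c.2)) (by
      rintro ⟨i, x⟩ ⟨i', x'⟩ h
      dsimp only at h
      have h1 : (i : ℕ) = i' := by
        have h5 := congrArg (· / s) h
        simpa [Nat.mul_add_div hs0, Nat.div_eq_of_lt (hnumO _)] using h5
      have h2 : numO (some x) = numO (some x') := by
        rw [h1] at h; omega
      have h3 := hnumOinj h2
      simp only [Option.some.injEq] at h3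
      rw [h3, Fin.ext h1])
    (fun q => q / (2 * μ)) (fun a b h => Nat.div_le_div_right h) β (by
      rintro ⟨i', x⟩ m i h
      rw [hβ] at h
      have h1 : i = i' ∧ v m.1 (m.2 i) = some x := by
        by_contra h'
        exact h (if_neg h')
      obtain ⟨rfl, h2⟩ := h1
      have h3 : s * (i : ℕ) + lab m i = s * (i : ℕ) + numO (some x) := by rw [hlabi, h2]
      exact ⟨(hdiv m i 0 (by norm_num)).trans h3, (hdiv m i 1 (by norm_num)).trans h3⟩) (by
      rintro ⟨i, x⟩ h
      obtain ⟨e, he1, he2⟩ := hv x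
      have := congrFun (congrFun h (e, fun _ => true)) i
      rw [hβ] at this
      simp only [he1, and_self, if_true] at this
      exact he2 this)
  refine ⟨fun t => DD f P Q (comb β t), hiso, fun t => DD_nonneg hf _ _ _, ?_, ?_⟩
  · intro t
    have h1 := sum_EE_le H hf hPr hP hn (comb β t)
    rw [← hCA, hcomb, Fintype.sum_prod_type] at h1
    dsimp only at h1
    have h2 : ∀ e, 2 ^ n * (w e * ∑ i, |ext t i (v e true) - ext t i (v e false)|) ≤
        2 * CR * ∑ ε : Fin n → Bool, EE f (fun i => w e * ext t i (v e (ε i))) := by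
      intro e
      set ν : Fin n → ℝ := fun i => (ext t i (v e true) - ext t i (v e false)) / 2 with hν
      set mu : Fin n → ℝ := fun i => (ext t i (v e true) + ext t i (v e false)) / 2 with hmu
      have h3 : ∀ ε : Fin n → Bool, (fun i => ext t i (v e (ε i))) =
          mu + fun i => sg (ε i) * ν i := by
        intro ε
        funext i
        simp only [Pi.add_apply, hmu, hν]
        cases ε i <;> simp only [sg, if_true, Bool.false_eq_true, if_false] <;> ring
      have h4 : ∑ ε : Fin n → Bool, EE f (fun i => sg (ε i) * ν i) ≤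
          ∑ ε : Fin n → Bool, EE f (fun i => ext t i (v e (ε i))) := by
        let nt : (Fin n → Bool) ≃ (Fin n → Bool) :=
          { toFun := fun ε i => !(ε i)
            invFun := fun ε i => !(ε i)
            left_inv := fun ε => by funext i; simp
            right_inv := fun ε => by funext i; simp }
        have h5 : ∑ ε : Fin n → Bool, EE f (fun i => ext t i (v e (nt ε i))) =
            ∑ ε : Fin n → Bool, EE f (fun i => ext t i (v e (ε i))) :=
          nt.sum_comp (fun ε => EE f (fun i => ext t i (v e (ε i))))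
        have h6 : ∀ ε : Fin n → Bool, 2 * EE f (fun i => sg (ε i) * ν i) ≤
            EE f (fun i => ext t i (v e (ε i))) + EE f (fun i => ext t i (v e (nt ε i))) := by
          intro ε
          rw [h3, h3]
          have h7 := EE_sub_le hf (mu + fun i => sg (ε i) * ν i) (mu + fun i => sg (nt ε i) * ν i)
          have h8 : (mu + fun i => sg (ε i) * ν i) - (mu + fun i => sg (nt ε i) * ν i) =
              (2 : ℝ) • fun i => sg (ε i) * ν i := by
            funext i
            simp only [Pi.sub_apply, Pi.add_apply, Pi.smul_apply, smul_eq_mul]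
            have : sg (nt ε i) = -sg (ε i) := sg_not _
            rw [this]; ring
          rw [h8, EE_smul hf, abs_of_pos two_pos] at h7
          exact h7
        have h7 := Finset.sum_le_sum fun ε (_ : ε ∈ Finset.univ) => h6 ε
        rw [← Finset.mul_sum, Finset.sum_add_distrib, h5] at h7
        linarith
      have h5 := random_signs H hK hf hPr hn ν
      rw [← hCA, ← hCR] at h5
      have h6 : ∑ i, |ext t i (v e true) - ext t i (v e false)| = 2 * ∑ i, |ν i| := by
        rw [Finset.mul_sum]
        refine Finset.sum_congr rfl fun i _ => ?_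
        rw [hν, abs_div, abs_of_pos (two_pos : (0 : ℝ) < 2)]
        ring
      have h7 : ∀ ε : Fin n → Bool, EE f (fun i => w e * ext t i (v e (ε i))) =
          w e * EE f (fun i => ext t i (v e (ε i))) := by
        intro ε
        have := EE_smul hf (w e) (fun i => ext t i (v e (ε i)))
        rw [abs_of_nonneg (hw e)] at this
        exact this
      simp only [h7]
      rw [h6, ← Finset.mul_sum]
      have h8 : w e * (2 ^ n * ∑ i, |ν i|) ≤
          w e * (CR * ∑ ε : Fin n → Bool, EE f (fun i => ext t i (v e (ε i)))) :=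
        mul_le_mul_of_nonneg_left (h5.trans (mul_le_mul_of_nonneg_left h4 hCR0.le)) (hw e)
      linarith
    calc 2 ^ n * ∑ e, w e * ∑ i, |ext t i (v e true) - ext t i (v e false)|
        = ∑ e, 2 ^ n * (w e * ∑ i, |ext t i (v e true) - ext t i (v e false)|) := by
          rw [Finset.mul_sum]
      _ ≤ ∑ e, 2 * CR * ∑ ε : Fin n → Bool, EE f (fun i => w e * ext t i (v e (ε i))) :=
          Finset.sum_le_sum fun e _ => h2 e
      _ = 2 * CR * ∑ e, ∑ ε : Fin n → Bool, EE f (fun i => w e * ext t i (v e (ε i))) := by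
          rw [Finset.mul_sum]
      _ ≤ 2 * CR * (CA * DD f P Q (comb β t)) := by
          rw [hcomb]
          exact mul_le_mul_of_nonneg_left h1 (by positivity)
      _ = 2 * (CA * CR) * DD f P Q (comb β t) := by ring
  · intro t
    refine (DD_le_sum_EE hf hP _).trans (le_of_eq ?_)
    rw [hcomb, Fintype.sum_prod_type]
    refine Finset.sum_congr rfl fun e _ => ?_
    rw [Finset.mul_sum]
    refine Finset.sum_congr rfl fun ε _ => ?_
    have := EE_smul hf (w e) (fun i => ext t i (v e (ε i)))
    rw [abs_of_nonneg (hw e)] at this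
    exact this


section cube

variable {d : ℕ}

/-- Flip a coordinate. -/
def flip (x : Fin d → Bool) (j : Fin d) : Fin d → Bool := Function.update x j (!(x j))

theorem flip_flip (x : Fin d → Bool) (j : Fin d) : flip (flip x j) j = x := by
  unfold flip
  simp

theorem sg_flip_self (x : Fin d → Bool) (j : Fin d) : sg (flip x j j) = -sg (x j) := by
  unfold flip
  rw [Function.update_self, sg_not]

theorem sg_flip_of_ne (x : Fin d → Bool) {j q : Fin d} (h : q ≠ j) :
    sg (flip x j q) = sg (x q) := by
  unfold flip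
  rw [Function.update_of_ne h]

/-- The flip of a coordinate as an equivalence. -/
def flipE (j : Fin d) : (Fin d → Bool) ≃ (Fin d → Bool) where
  toFun x := flip x j
  invFun x := flip x j
  left_inv x := flip_flip x j
  right_inv x := flip_flip x j

theorem rad_flip (b : Fin d → ℝ) (x : Fin d → Bool) (j : Fin d) :
    rad b (flip x j) = rad b x - 2 * (b j * sg (x j)) := by
  unfold rad
  have h : ∑ m, sg (x m) * b m - ∑ m, sg (flip x j m) * b m = 2 * (b j * sg (x j)) := by
    rw [← Finset.sum_sub_distrib, Finset.sum_eq_single j]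
    · rw [sg_flip_self]; ring
    · intro m _ hm
      rw [sg_flip_of_ne x hm, sub_self]
    · intro h; exact absurd (Finset.mem_univ _) h
  linarith

theorem sum_abs_rad_le (b : Fin d → ℝ) :
    ∑ x : Fin d → Bool, |rad b x| ≤ 2 ^ d * √(∑ j, b j ^ 2) := by
  apply le_of_sq_le_sq _ (by positivity)
  have h1 := sq_sum_le_card_mul_sum_sq (s := (Finset.univ : Finset (Fin d → Bool)))
    (f := fun x => |rad b x|)
  simp only [sq_abs] at h1
  rw [rad_second, Finset.card_univ, Fintype.card_fun, Fintype.card_bool, Fintype.card_fin] at h1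
  push_cast at h1
  rw [mul_pow, Real.sq_sqrt (Finset.sum_nonneg fun _ _ => sq_nonneg _)]
  linarith

theorem sum_sg_mul (j q : Fin d) :
    ∑ x : Fin d → Bool, sg (x j) * sg (x q) = if j = q then 2 ^ d else 0 := by
  split_ifs with h
  · subst h
    simp [sg_mul_self]
  · have h1 := (flipE q).sum_comp (fun x => sg (x j) * sg (x q))
    have h2 : ∀ x : Fin d → Bool, sg ((flipE q) x j) * sg ((flipE q) x q) =
        -(sg (x j) * sg (x q)) := by
      intro x
      change sg (flip x q j) * sg (flip x q q) = _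
      rw [sg_flip_self, sg_flip_of_ne x h]
      ring
    simp only [h2, Finset.sum_neg_distrib] at h1
    linarith

/-- The endpoints of the edges. -/
def vv (d : ℕ) : (Fin d → Bool) ⊕ ((Fin d → Bool) × Fin d) → Bool → Option (Fin d → Bool)
  | Sum.inl x, b => if b then some x else none
  | Sum.inr y, b => if b then some y.1 else some (flip y.1 y.2)

/-- The weights of the edges. -/
noncomputable def ww (d : ℕ) : (Fin d → Bool) ⊕ ((Fin d → Bool) × Fin d) → ℝ
  | Sum.inl _ => 1
  | Sum.inr _ => (√(d : ℝ))⁻¹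

end cube

theorem final_bound {K : ℝ} (H : ∀ (J : ℕ) (N : (Fin J → ℝ) → ℝ), Asy T J N → Iso K N)
    (hK : 1 ≤ K) (hf : Strat T f) (hPr : Proj T C Pr) (hn : 0 < n)
    (a : Fin n → ℝ) (ha : ∑ i, |a i| = 1) {d : ℕ} (hd : 0 < d) (hEa : EE f a ≤ 1 / (2 * d)) :
    √(d : ℝ) ≤ 2400 * ((16 * K ^ 3) * (8 * C * (16 * K ^ 3) ^ 3 * K ^ 3)) ^ 2 * K ^ 2 := by
  classical
  have hd1 : (1 : ℝ) ≤ d := by exact_mod_cast hd
  have hsd : 0 < √(d : ℝ) := Real.sqrt_pos.2 (by linarith)
  have hC0 : 0 < C := lt_of_lt_of_le one_pos hPr.one_le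
  obtain ⟨NZ, ⟨U, A, B, hA, hB, hAB, hU⟩, hNZ0, hlow, hup⟩ :=
    exists_config H hK hf hPr hn (vv d) (ww d)
    (by rintro (x | y) <;> simp [ww]) (fun x => ⟨Sum.inl x, by simp [vv], by simp [ww]⟩)
  set CT : ℝ := (16 * K ^ 3) * (8 * C * (16 * K ^ 3) ^ 3 * K ^ 3) with hCT
  have hCT0 : 0 < CT := by positivity
  have h2n : (0 : ℝ) < 2 ^ n := by positivity
  have h2d : (0 : ℝ) < 2 ^ d := by positivity
  -- the upper estimate
  have hR : ∀ b : Fin d → ℝ, NZ (fun c => a c.1 * rad b c.2) ≤
      5 * 2 ^ n * 2 ^ d * √(∑ j, b j ^ 2) := by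
    intro b
    set B2 := √(∑ j, b j ^ 2) with hB2
    have hB20 : 0 ≤ B2 := Real.sqrt_nonneg _
    refine (hup _).trans ?_
    rw [Fintype.sum_sum_type]
    have hla : EE f a ≤ 2 := by
      have := EE_le_l1 hf a
      rw [ha] at this
      linarith
    have hsa : ∀ ε : Fin n → Bool, EE f (fun i => sg (ε i) * a i) ≤ 2 := by
      intro ε
      have := EE_le_l1 hf (fun i => sg (ε i) * a i)
      simp only [abs_mul, abs_sg, one_mul, ha] at this
      linarith
    have h1 : ∑ x : Fin d → Bool, ww d (Sum.inl x) * ∑ ε : Fin n → Bool,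
        EE f (fun i => ext (fun c : Fin n × (Fin d → Bool) => a c.1 * rad b c.2) i
          (vv d (Sum.inl x) (ε i))) ≤ 2 * 2 ^ n * (2 ^ d * B2) := by
      have h2 : ∀ x : Fin d → Bool, ww d (Sum.inl x) * ∑ ε : Fin n → Bool,
        EE f (fun i => ext (fun c : Fin n × (Fin d → Bool) => a c.1 * rad b c.2) i
          (vv d (Sum.inl x) (ε i))) ≤ 2 * 2 ^ n * |rad b x| := by
        intro x
        have h3 : ∀ ε : Fin n → Bool,
            EE f (fun i => ext (fun c : Fin n × (Fin d → Bool) => a c.1 * rad b c.2) i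
              (vv d (Sum.inl x) (ε i))) ≤ 2 * |rad b x| := by
          intro ε
          refine (EE_le_l1 hf _).trans ?_
          have h4 : ∑ i, |ext (fun c : Fin n × (Fin d → Bool) => a c.1 * rad b c.2) i
              (vv d (Sum.inl x) (ε i))| ≤ ∑ i, |a i| * |rad b x| := by
            refine Finset.sum_le_sum fun i _ => ?_
            cases ε i
            · simp only [vv, ext, Bool.false_eq_true, if_false, abs_zero]
              positivity
            · simp only [vv, ext, if_true, abs_mul, le_refl]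
          rw [← Finset.sum_mul, ha, one_mul] at h4
          linarith
        have h4 := Finset.sum_le_sum fun ε (_ : ε ∈ Finset.univ) => h3 ε
        rw [Finset.sum_const, Finset.card_univ, Fintype.card_fun, Fintype.card_bool,
          Fintype.card_fin, nsmul_eq_mul] at h4
        push_cast at h4
        simp only [ww, one_mul]
        linarith
      refine (Finset.sum_le_sum fun x _ => h2 x).trans ?_
      rw [← Finset.mul_sum]
      exact mul_le_mul_of_nonneg_left (sum_abs_rad_le b) (by positivity)
    have h2 : ∑ y : (Fin d → Bool) × Fin d, ww d (Sum.inr y) * ∑ ε : Fin n → Bool,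
        EE f (fun i => ext (fun c : Fin n × (Fin d → Bool) => a c.1 * rad b c.2) i
          (vv d (Sum.inr y) (ε i))) ≤ 3 * 2 ^ n * (2 ^ d * B2) := by
      have h3 : ∀ y : (Fin d → Bool) × Fin d, ∀ ε : Fin n → Bool,
            EE f (fun i => ext (fun c : Fin n × (Fin d → Bool) => a c.1 * rad b c.2) i
              (vv d (Sum.inr y) (ε i))) ≤ |rad b y.1| * (1 / (2 * d)) + 5 / 2 * |b y.2| := by
        rintro ⟨x, j⟩ ε
        have h4 : (fun i => ext (fun c : Fin n × (Fin d → Bool) => a c.1 * rad b c.2) i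
              (vv d (Sum.inr (x, j)) (ε i))) = (rad b x - b j * sg (x j)) • a +
              (b j * sg (x j)) • fun i => sg (ε i) * a i := by
          funext i
          simp only [Pi.add_apply, Pi.smul_apply, smul_eq_mul]
          cases ε i
          · simp only [vv, ext, Bool.false_eq_true, if_false, rad_flip, sg]
            ring
          · simp only [vv, ext, if_true, sg]
            ring
        rw [h4]
        refine (EE_add_le hf _ _).trans ?_
        rw [EE_smul hf, EE_smul hf]
        have h5 : |b j * sg (x j)| = |b j| := by rw [abs_mul, abs_sg, mul_one]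
        have h6 : |rad b x - b j * sg (x j)| ≤ |rad b x| + |b j| := by
          rw [← h5]; exact abs_sub _ _
        have h7 : 1 / (2 * (d : ℝ)) ≤ 1 / 2 := by
          apply one_div_le_one_div_of_le (by norm_num)
          linarith
        have h8 : |rad b x - b j * sg (x j)| * EE f a ≤ (|rad b x| + |b j|) * (1 / (2 * d)) :=
          mul_le_mul h6 hEa (EE_nonneg hf _) (by positivity)
        have h9 : |b j * sg (x j)| * EE f (fun i => sg (ε i) * a i) ≤ |b j| * 2 := by
          rw [h5]
          exact mul_le_mul_of_nonneg_left (hsa ε) (abs_nonneg _)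
        have h10 : |b j| * (1 / (2 * (d : ℝ))) ≤ |b j| * (1 / 2) :=
          mul_le_mul_of_nonneg_left h7 (abs_nonneg _)
        dsimp only
        linarith
      have h4 : ∀ y : (Fin d → Bool) × Fin d, ww d (Sum.inr y) * ∑ ε : Fin n → Bool,
          EE f (fun i => ext (fun c : Fin n × (Fin d → Bool) => a c.1 * rad b c.2) i
            (vv d (Sum.inr y) (ε i))) ≤
            (√(d : ℝ))⁻¹ * (2 ^ n * (|rad b y.1| * (1 / (2 * d)) + 5 / 2 * |b y.2|)) := by
        intro y
        have h4 := Finset.sum_le_sum fun ε (_ : ε ∈ Finset.univ) => h3 y ε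
        rw [Finset.sum_const, Finset.card_univ, Fintype.card_fun, Fintype.card_bool,
          Fintype.card_fin, nsmul_eq_mul] at h4
        push_cast at h4
        have h5 : ww d (Sum.inr y) = (√(d : ℝ))⁻¹ := rfl
        rw [h5]
        exact mul_le_mul_of_nonneg_left h4 (inv_nonneg.2 hsd.le)
      refine (Finset.sum_le_sum fun y _ => h4 y).trans ?_
      rw [← Finset.mul_sum, ← Finset.mul_sum, Fintype.sum_prod_type]
      simp only [Finset.sum_add_distrib, Finset.sum_const, Finset.card_univ, Fintype.card_fin,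
        nsmul_eq_mul, Fintype.card_fun, Fintype.card_bool, ← Finset.mul_sum, ← Finset.sum_mul]
      push_cast
      have h5 : ∑ j, |b j| ≤ √(d : ℝ) * B2 := by
        apply le_of_sq_le_sq _ (by positivity)
        have h6 := sq_sum_le_card_mul_sum_sq (s := (Finset.univ : Finset (Fin d)))
          (f := fun x => |b x|)
        simp only [sq_abs, Finset.card_univ, Fintype.card_fin] at h6
        rw [mul_pow, Real.sq_sqrt (Finset.sum_nonneg fun _ _ => sq_nonneg _),
          Real.sq_sqrt (by positivity)]
        exact h6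
      have h6 := sum_abs_rad_le b
      rw [← hB2] at h6
      rw [inv_mul_le_iff₀ hsd]
      have h7 : (d : ℝ) * ((∑ x : Fin d → Bool, |rad b x|) * (1 / (2 * d))) ≤
          1 / 2 * (2 ^ d * B2) := by
        have h8 : (d : ℝ) * ((∑ x : Fin d → Bool, |rad b x|) * (1 / (2 * d))) =
            1 / 2 * ∑ x : Fin d → Bool, |rad b x| := by
          field_simp
        rw [h8]
        linarith
      have h8 : 1 ≤ √(d : ℝ) := by
        rw [show (1 : ℝ) = √1 by simp]
        exact Real.sqrt_le_sqrt hd1
      have h9 : 1 / 2 * (2 ^ d * B2) ≤ √(d : ℝ) * (1 / 2 * (2 ^ d * B2)) := by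
        have : 0 ≤ 1 / 2 * (2 ^ d * B2) := by positivity
        nlinarith
      have h10 : 2 ^ d * (5 / 2 * ∑ j, |b j|) ≤ 2 ^ d * (5 / 2 * (√(d : ℝ) * B2)) := by
        gcongr
      calc 2 ^ n * ((d : ℝ) * ((∑ x : Fin d → Bool, |rad b x|) * (1 / (2 * d))) +
            2 ^ d * (5 / 2 * ∑ j, |b j|))
          ≤ 2 ^ n * (√(d : ℝ) * (1 / 2 * (2 ^ d * B2)) + 2 ^ d * (5 / 2 * (√(d : ℝ) * B2))) :=
            mul_le_mul_of_nonneg_left (add_le_add (h7.trans h9) h10) h2n.le
        _ = √(d : ℝ) * (3 * 2 ^ n * (2 ^ d * B2)) := by ring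
    calc _ ≤ 2 * 2 ^ n * (2 ^ d * B2) + 3 * 2 ^ n * (2 ^ d * B2) := add_le_add h1 h2
      _ = _ := by ring
  -- the test functionals
  let σ : Fin n → ℝ := fun i => if 0 ≤ a i then 1 else -1
  have hσa : ∀ i, σ i * a i = |a i| := by
    intro i
    simp only [σ]
    split_ifs with h
    · rw [abs_of_nonneg h, one_mul]
    · rw [abs_of_neg (not_le.1 h)]; ring
  have hσ1 : ∀ i, |σ i| = 1 := by
    intro i
    simp only [σ]
    split_ifs <;> simp
  let u : (Fin n × (Fin d → Bool) → ℝ) → (Fin d → Bool) → ℝ := fun t x => ∑ i, σ i * t (i, x)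
  let TL : Fin d → (Fin n × (Fin d → Bool) → ℝ) →ₗ[ℝ] ℝ := fun j =>
    { toFun := fun t => ∑ x : Fin d → Bool, sg (x j) * ∑ i, σ i * t (i, x)
      map_add' := fun t t' => by
        simp only [Pi.add_apply, mul_add, Finset.sum_add_distrib]
      map_smul' := fun r t => by
        simp only [Pi.smul_apply, smul_eq_mul, RingHom.id_apply, Finset.mul_sum]
        refine Finset.sum_congr rfl fun x _ => Finset.sum_congr rfl fun i _ => ?_
        ring }
  have hTL : ∀ j t, TL j t = ∑ x : Fin d → Bool, sg (x j) * u t x := fun _ _ => rfl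
  have hmain : ∀ t, ∑ j, TL j t ^ 2 ≤ √(d : ℝ) / 2 * (2 * CT * NZ t / 2 ^ n) ^ 2 := by
    intro t
    set W : ℝ := 2 * CT * NZ t / 2 ^ n with hW
    have hW0 : 0 ≤ W := by
      have := hNZ0 t
      positivity
    have h1 := hlow t
    rw [Fintype.sum_sum_type] at h1
    simp only [ww, vv, if_true, Bool.false_eq_true, if_false, ext, one_mul, sub_zero] at h1
    rw [← Finset.mul_sum] at h1
    set s1 : ℝ := ∑ x : Fin d → Bool, ∑ i, |t (i, x)| with hs1
    set s2 : ℝ := ∑ y : (Fin d → Bool) × Fin d, ∑ i, |t (i, y.1) - t (i, flip y.1 y.2)| with hs2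
    have hs10 : 0 ≤ s1 := Finset.sum_nonneg fun _ _ => Finset.sum_nonneg fun _ _ => abs_nonneg _
    have hs20 : 0 ≤ s2 := Finset.sum_nonneg fun _ _ => Finset.sum_nonneg fun _ _ => abs_nonneg _
    have hi0 : 0 < (√(d : ℝ))⁻¹ := inv_pos.2 hsd
    have h2 : s1 + (√(d : ℝ))⁻¹ * s2 ≤ W := by
      rw [hW, le_div_iff₀ h2n]
      linarith
    have h3 : s1 ≤ W := by
      have := mul_nonneg hi0.le hs20
      linarith
    have h4 : s2 ≤ √(d : ℝ) * W := by
      have h5 : (√(d : ℝ))⁻¹ * s2 ≤ W := by linarith
      rwa [inv_mul_le_iff₀ hsd] at h5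
    have hu : ∀ x, |u t x| ≤ ∑ i, |t (i, x)| := by
      intro x
      refine (Finset.abs_sum_le_sum_abs _ _).trans (Finset.sum_le_sum fun i _ => ?_)
      rw [abs_mul, hσ1, one_mul]
    have hu2 : ∀ x x', |u t x - u t x'| ≤ ∑ i, |t (i, x) - t (i, x')| := by
      intro x x'
      simp only [u]
      rw [← Finset.sum_sub_distrib]
      refine (Finset.abs_sum_le_sum_abs _ _).trans (Finset.sum_le_sum fun i _ => ?_)
      rw [← mul_sub, abs_mul, hσ1, one_mul]
    have h5 : ∀ j, |TL j t| ≤ W := by
      intro j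
      rw [hTL]
      refine (Finset.abs_sum_le_sum_abs _ _).trans (le_trans (Finset.sum_le_sum fun x _ => ?_) h3)
      rw [abs_mul, abs_sg, one_mul]
      exact hu x
    have h6 : ∀ j, 2 * |TL j t| ≤ ∑ x : Fin d → Bool, ∑ i, |t (i, x) - t (i, flip x j)| := by
      intro j
      have h7 : 2 * TL j t = ∑ x : Fin d → Bool, sg (x j) * (u t x - u t (flip x j)) := by
        have h8 := (flipE j).sum_comp (fun x => sg (x j) * u t x)
        have h9 : ∀ x : Fin d → Bool, sg ((flipE j) x j) * u t ((flipE j) x) =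
            -(sg (x j) * u t (flip x j)) := by
          intro x
          change sg (flip x j j) * u t (flip x j) = _
          rw [sg_flip_self]
          ring
        simp only [h9, Finset.sum_neg_distrib] at h8
        simp only [mul_sub, Finset.sum_sub_distrib]
        rw [hTL]
        linarith
      have h8 : 2 * |TL j t| = |2 * TL j t| := by
        rw [abs_mul, abs_of_pos (two_pos : (0 : ℝ) < 2)]
      rw [h8, h7]
      refine (Finset.abs_sum_le_sum_abs _ _).trans (Finset.sum_le_sum fun x _ => ?_)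
      rw [abs_mul, abs_sg, one_mul]
      exact hu2 _ _
    have h7 : 2 * ∑ j, |TL j t| ≤ s2 := by
      rw [Finset.mul_sum, hs2, Fintype.sum_prod_type_right]
      exact Finset.sum_le_sum fun j _ => h6 j
    calc ∑ j, TL j t ^ 2 = ∑ j, |TL j t| * |TL j t| := by
          refine Finset.sum_congr rfl fun j _ => ?_
          rw [← sq, sq_abs]
      _ ≤ ∑ j, |TL j t| * W :=
          Finset.sum_le_sum fun j _ => mul_le_mul_of_nonneg_left (h5 j) (abs_nonneg _)
      _ = (∑ j, |TL j t|) * W := by rw [Finset.sum_mul]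
      _ ≤ (√(d : ℝ) / 2 * W) * W := by
          apply mul_le_mul_of_nonneg_right _ hW0
          linarith
      _ = √(d : ℝ) / 2 * W ^ 2 := by ring
  -- the operators
  let Rq : Fin d → (Fin n × (Fin d → Bool) → ℝ) := fun q c => a c.1 * sg (c.2 q)
  have hTR : ∀ j q, TL j (Rq q) = if j = q then 2 ^ d else 0 := by
    intro j q
    rw [hTL, ← sum_sg_mul j q]
    refine Finset.sum_congr rfl fun x _ => ?_
    have : u (Rq q) x = sg (x q) := by
      simp only [u, Rq]
      calc ∑ i, σ i * (a i * sg (x q)) = ∑ i, |a i| * sg (x q) := by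
            refine Finset.sum_congr rfl fun i _ => ?_
            rw [← hσa i]; ring
        _ = sg (x q) := by rw [← Finset.sum_mul, ha, one_mul]
    rw [this]
  have hG := lemmaG (fun k q => U (Rq q) k) (fun k x => TL x (U.symm (Pi.single k 1)))
    (ρ := B * (5 * 2 ^ n * 2 ^ d)) (β := √(√(d : ℝ) / 2) * (2 * CT * A / 2 ^ n)) (by
      intro c hc
      set z : Fin d → ℝ := fun q => ∑ k, c k * U (Rq q) k with hz
      have h1 : ∑ q, z q ^ 2 = ∑ k, c k * U (fun c => a c.1 * rad z c.2) k := by
        have h2 : (fun c : Fin n × (Fin d → Bool) => a c.1 * rad z c.2) = ∑ q, z q • Rq q := by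
          funext c
          rw [Finset.sum_apply]
          simp only [rad, Rq, Pi.smul_apply, smul_eq_mul, Finset.mul_sum]
          refine Finset.sum_congr rfl fun q _ => ?_
          ring
        rw [h2, map_sum]
        simp only [map_smul, Finset.sum_apply, Pi.smul_apply, smul_eq_mul, Finset.mul_sum]
        rw [Finset.sum_comm]
        refine Finset.sum_congr rfl fun q _ => ?_
        rw [sq]
        conv_lhs => rw [hz]
        simp only
        rw [Finset.sum_mul]
        refine Finset.sum_congr rfl fun k _ => ?_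
        rw [hz]
        ring
      have h2 : ∑ q, z q ^ 2 ≤ B * (5 * 2 ^ n * 2 ^ d) * √(∑ q, z q ^ 2) := by
        calc ∑ q, z q ^ 2 = ∑ k, c k * U (fun c => a c.1 * rad z c.2) k := h1
          _ ≤ ∑ k, |U (fun c => a c.1 * rad z c.2) k| := by
              refine Finset.sum_le_sum fun k _ => ?_
              refine (le_abs_self _).trans ?_
              rw [abs_mul]
              have := mul_le_mul_of_nonneg_right (hc k) (abs_nonneg
                (U (fun c => a c.1 * rad z c.2) k))
              linarith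
          _ ≤ B * NZ (fun c => a c.1 * rad z c.2) := (hU _).2
          _ ≤ B * (5 * 2 ^ n * 2 ^ d * √(∑ q, z q ^ 2)) :=
              mul_le_mul_of_nonneg_left (hR z) hB.le
          _ = _ := by ring
      set Z := √(∑ q, z q ^ 2) with hZ
      have hZ0 : 0 ≤ Z := Real.sqrt_nonneg _
      have hZZ : Z ^ 2 = ∑ q, z q ^ 2 := Real.sq_sqrt (Finset.sum_nonneg fun _ _ => sq_nonneg _)
      rw [← hZZ] at h2 ⊢
      have h3 : Z ≤ B * (5 * 2 ^ n * 2 ^ d) := by
        rcases hZ0.eq_or_lt with h0 | h0
        · rw [← h0]; positivity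
        · rw [sq] at h2
          exact le_of_mul_le_mul_right h2 h0
      exact pow_le_pow_left₀ hZ0 h3 2) (by
      intro k
      refine (hmain _).trans ?_
      rw [mul_pow, Real.sq_sqrt (by positivity)]
      apply mul_le_mul_of_nonneg_left _ (by positivity)
      apply pow_le_pow_left₀
      · have := hNZ0 (U.symm (Pi.single k 1))
        positivity
      · have h1 := (hU (U.symm (Pi.single k 1))).1
        rw [U.apply_symm_apply] at h1
        have h2 : ∑ i, |(Pi.single k 1 : Fin n × (Fin d → Bool) → ℝ) i| = 1 := by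
          rw [Finset.sum_eq_single k]
          · simp
          · intro i _ hi
            simp [hi]
          · intro h; exact absurd (Finset.mem_univ _) h
        rw [h2, mul_one] at h1
        gcongr)
  have hBA : ∀ x q, ∑ k, TL x (U.symm (Pi.single k 1)) * U (Rq q) k =
      if x = q then 2 ^ d else 0 := by
    intro x q
    rw [← hTR x q]
    have h1 : Rq q = ∑ k, U (Rq q) k • U.symm (Pi.single k 1) := by
      apply U.injective
      rw [map_sum]
      simp only [map_smul, U.apply_symm_apply]
      funext i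
      rw [Finset.sum_apply, Finset.sum_eq_single i]
      · simp
      · intro k _ hk
        simp [Ne.symm hk]
      · intro h; exact absurd (Finset.mem_univ _) h
    conv_rhs => rw [h1, map_sum]
    refine Finset.sum_congr rfl fun k _ => ?_
    rw [map_smul, smul_eq_mul]
    ring
  simp only [hBA] at hG
  have h1 : ∑ x : Fin d, ∑ q : Fin d, (if x = q then (2 : ℝ) ^ d else 0) ^ 2 = d * (2 ^ d) ^ 2 := by
    have : ∀ x q : Fin d, (if x = q then (2 : ℝ) ^ d else 0) ^ 2 =
        if x = q then ((2 : ℝ) ^ d) ^ 2 else 0 := by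
      intro x q
      split_ifs <;> simp
    simp only [this, Finset.sum_ite_eq, Finset.mem_univ, if_true, Finset.sum_const,
      Finset.card_univ, Fintype.card_fin, nsmul_eq_mul]
  rw [h1, mul_pow, Real.sq_sqrt (by positivity)] at hG
  have h2 : 48 * (√(d : ℝ) / 2 * (2 * CT * A / 2 ^ n) ^ 2) * (B * (5 * 2 ^ n * 2 ^ d)) ^ 2 =
      √(d : ℝ) * (2400 * CT ^ 2 * (A * B) ^ 2) * (2 ^ d) ^ 2 := by
    field_simp
    ring
  rw [h2] at hG
  have h3 : (d : ℝ) ≤ √(d : ℝ) * (2400 * CT ^ 2 * (A * B) ^ 2) :=
    le_of_mul_le_mul_right hG (by positivity)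
  have h4 : √(d : ℝ) ≤ 2400 * CT ^ 2 * (A * B) ^ 2 := by
    have h5 : (d : ℝ) = √(d : ℝ) * √(d : ℝ) := (Real.mul_self_sqrt (by positivity)).symm
    rw [h5, Real.sqrt_mul_self hsd.le] at h3
    exact le_of_mul_le_mul_left h3 hsd
  refine h4.trans ?_
  have h5 : (A * B) ^ 2 ≤ K ^ 2 := pow_le_pow_left₀ (mul_pos hA hB).le hAB 2
  exact mul_le_mul_of_nonneg_left h5 (by positivity)

end Pool.Agent.helper71.AL
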