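import Mathlib

/-!
# The Banach-Mazur criterion for Asymptotic `ℓ_1` spaces: definitions
-/

set_option autoImplicit false

open Filter Topology

namespace Pool.Agent.helper71.BMC

universe u v


/-- `e` is a Schauder basis of `X`. -/
def IsSchauderBasis {X : Type u} [NormedAddCommGroup X] [NormedSpace ℝ X] (e : ℕ → X) : Prop :=
  ∀ x : X, ∃! c : ℕ → ℝ, Tendsto (fun m => ∑ i ∈ Finset.range m, c i • e i) atTop (𝓝 x)

/-- The basis constant of `e` is at most `C`. -/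
def BasisConstantLE {X : Type u} [NormedAddCommGroup X] [NormedSpace ℝ X] (e : ℕ → X) (C : ℝ) : Prop :=
  ∀ (c : ℕ → ℝ) (m k : ℕ), m ≤ k → ‖∑ i ∈ Finset.range m, c i • e i‖ ≤ C * ‖∑ i ∈ Finset.range k, c i • e i‖

/-- The tail space `X_k`, the closed span of the `e i` with `i ≥ k`. -/
def tail {X : Type u} [NormedAddCommGroup X] [NormedSpace ℝ X] (e : ℕ → X) (k : ℕ) : Submodule ℝ X :=
  (Submodule.span ℝ (e '' Set.Ici k)).topologicalClosure

/-- For every `k₁` one can pick `x₁` in the unit sphere of `T k₁` such that for every `k₂` one can pick `x₂` in the unit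
sphere of `T k₂`, and so on, in such a way that `(x₁, …, xₙ)` has the property `P`. -/
def CanPick {X : Type u} [NormedAddCommGroup X] [NormedSpace ℝ X] (T : ℕ → Submodule ℝ X) :
    (n : ℕ) → ((Fin n → X) → Prop) → Prop
  | 0, P => P Fin.elim0
  | n + 1, P => ∀ k : ℕ, ∃ x ∈ T k, ‖x‖ = 1 ∧ CanPick T n (fun y => P (Fin.cons x y))

/-- `x` and `b` are `C`-equivalent. -/
def Equivalent {E : Type u} {F : Type v} [NormedAddCommGroup E] [NormedSpace ℝ E] [NormedAddCommGroup F] [NormedSpace ℝ F]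
    (C : ℝ) {n : ℕ} (x : Fin n → E) (b : Fin n → F) : Prop :=
  ∃ A B : ℝ, 0 < A ∧ 0 < B ∧ A * B ≤ C ∧ ∀ a : Fin n → ℝ,
    A⁻¹ * ‖∑ i, a i • b i‖ ≤ ‖∑ i, a i • x i‖ ∧ ‖∑ i, a i • x i‖ ≤ B * ‖∑ i, a i • b i‖

/-- `b` is a member of the asymptotic structure `{X, (e_i)}_n`. -/
def MemAsymptotic {X : Type u} {F : Type v} [NormedAddCommGroup X] [NormedSpace ℝ X] [NormedAddCommGroup F]
    [NormedSpace ℝ F] (e : ℕ → X) {n : ℕ} (b : Fin n → F) : Prop :=
  LinearIndependent ℝ b ∧ (∀ i, ‖b i‖ = 1) ∧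
    ∀ ε : ℝ, 0 < ε → CanPick (tail e) n (fun x => Equivalent (1 + ε) x b)

/-- The Banach-Mazur distance. -/
noncomputable def bmDist (E : Type u) (F : Type v) [NormedAddCommGroup E] [NormedSpace ℝ E] [NormedAddCommGroup F]
    [NormedSpace ℝ F] : ℝ :=
  ⨅ T : E ≃L[ℝ] F, ‖(T : E →L[ℝ] F)‖ * ‖(T.symm : F →L[ℝ] E)‖

end Pool.Agent.helper71.BMC
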