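import Pool.Agent.helper71.AL.Basis

/-!
# Basis projections of a Schauder basis, with their formula
-/

set_option autoImplicit false

open Filter Topology Finset

namespace Pool.Agent.helper71.AL

variable {X : Type*} [NormedAddCommGroup X] [NormedSpace ℝ X]

theorem exists_proj2 [CompleteSpace X] (e : ℕ → X)
    (he : ∀ x : X, ∃! c : ℕ → ℝ,
      Tendsto (fun m => ∑ i ∈ range m, c i • e i) atTop (𝓝 x)) :
    ∃ (C : ℝ) (P : ℕ → X →L[ℝ] X), 1 ≤ C ∧ (∀ k x, ‖P k x‖ ≤ C * ‖x‖) ∧
      (∀ x, Tendsto (fun k => P k x) atTop (𝓝 x)) ∧ (∀ k, ∀ y ∈ Tl e k, P k y = 0) ∧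
      ∀ (x : X) (d : ℕ → ℝ), Tendsto (fun m => ∑ i ∈ range m, d i • e i) atTop (𝓝 x) → ∀ k, P k x = ∑ i ∈ range k, d i • e i := by
  choose c hc huniq using he
  have hadd : ∀ x y, c (x + y) = c x + c y := by
    intro x y
    refine (huniq (x + y) (c x + c y) ?_).symm
    have := (hc x).add (hc y)
    refine this.congr (fun m => ?_)
    rw [← sum_add_distrib]
    exact sum_congr rfl fun i _ => by rw [Pi.add_apply, add_smul]
  have hsmul : ∀ (r : ℝ) x, c (r • x) = r • c x := by
    intro r x
    refine (huniq (r • x) (r • c x) ?_).symm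
    have := (hc x).const_smul r
    refine this.congr (fun m => ?_)
    rw [smul_sum]
    exact sum_congr rfl fun i _ => by rw [Pi.smul_apply, smul_eq_mul, mul_smul]
  have hbdd : ∀ x, ∃ B, ∀ m, ‖∑ i ∈ range m, c x i • e i‖ ≤ B := by
    intro x
    obtain ⟨B, hB⟩ := isBounded_iff_forall_norm_le.mp
      (Metric.isBounded_range_of_tendsto _ (hc x))
    exact ⟨B, Set.forall_mem_range.mp hB⟩
  let L : X →ₗ[ℝ] (BoundedContinuousFunction ℕ X) :=
    { toFun := fun x => BoundedContinuousFunction.ofNormedAddCommGroupDiscrete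
        (fun m => ∑ i ∈ range m, c x i • e i) (hbdd x).choose (hbdd x).choose_spec
      map_add' := by
        intro x y
        ext m
        simp [hadd, add_smul, sum_add_distrib]
      map_smul' := by
        intro r x
        ext m
        simp [hsmul, mul_smul, smul_sum] }
  have hL : ∀ x m, L x m = ∑ i ∈ range m, c x i • e i := fun x m => rfl
  have hcont : Continuous L := by
    refine LinearMap.continuous_of_seq_closed_graph L ?_
    intro u x y hu hy
    have hym : ∀ m, Tendsto (fun j => L (u j) m) atTop (𝓝 (y m)) := fun m =>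
      ((BoundedContinuousFunction.evalCLM ℝ m : (BoundedContinuousFunction ℕ X) →L[ℝ] X).continuous.tendsto y).comp hy
    have hd : ∀ m, ∃ d : ℝ, y (m + 1) - y m = d • e m := by
      intro m
      have h1 : Tendsto (fun j => L (u j) (m + 1) - L (u j) m) atTop (𝓝 (y (m + 1) - y m)) :=
        (hym (m + 1)).sub (hym m)
      have h2 : ∀ j, L (u j) (m + 1) - L (u j) m ∈ (Submodule.span ℝ {e m} : Submodule ℝ X) := by
        intro j
        rw [hL, hL, sum_range_succ, add_sub_cancel_left]
        exact Submodule.smul_mem _ _ (Submodule.mem_span_singleton_self _)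
      have h3 : y (m + 1) - y m ∈ (Submodule.span ℝ {e m} : Submodule ℝ X) :=
        (Submodule.closed_of_finiteDimensional (Submodule.span ℝ {e m})).mem_of_tendsto h1
          (Eventually.of_forall h2)
      obtain ⟨d, hd⟩ := Submodule.mem_span_singleton.1 h3
      exact ⟨d, hd.symm⟩
    choose d hd using hd
    have hy0 : y 0 = 0 := by
      have h1 := hym 0
      simp only [hL, range_zero, sum_empty] at h1
      exact (tendsto_nhds_unique h1 tendsto_const_nhds)
    have hyd : ∀ m, y m = ∑ i ∈ range m, d i • e i := by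
      intro m
      induction m with
      | zero => simp [hy0]
      | succ m ih => rw [sum_range_succ, ← ih, ← hd m]; abel
    have hyx : Tendsto (fun m => y m) atTop (𝓝 x) := by
      rw [Metric.tendsto_atTop]
      intro ε hε
      have h1 : ∀ᶠ j in atTop, dist (L (u j)) y < ε / 3 := by
        have := (Metric.tendsto_nhds.1 hy) (ε / 3) (by linarith)
        exact this
      have h2 : ∀ᶠ j in atTop, dist (u j) x < ε / 3 := (Metric.tendsto_nhds.1 hu) (ε / 3) (by linarith)
      obtain ⟨j, hj1, hj2⟩ := (h1.and h2).exists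
      obtain ⟨M, hM⟩ := (Metric.tendsto_atTop.1 (hc (u j))) (ε / 3) (by linarith)
      refine ⟨M, fun m hm => ?_⟩
      have h3 := hM m hm
      have h4 : dist (y m) (L (u j) m) < ε / 3 := by
        rw [dist_comm]
        exact lt_of_le_of_lt (BoundedContinuousFunction.dist_coe_le_dist m) hj1
      calc dist (y m) x ≤ dist (y m) (L (u j) m) + dist (L (u j) m) (u j) + dist (u j) x :=
            dist_triangle4 _ _ _ _
        _ < ε / 3 + ε / 3 + ε / 3 := by
            have : dist (L (u j) m) (u j) < ε / 3 := h3
            linarith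
        _ = ε := by ring
    have hdx : d = c x := by
      apply huniq
      exact hyx.congr hyd
    ext m
    rw [hyd, hdx, hL]
  let Lc : X →L[ℝ] (BoundedContinuousFunction ℕ X) := ⟨L, hcont⟩
  let P : ℕ → X →L[ℝ] X := fun k => (BoundedContinuousFunction.evalCLM ℝ k).comp Lc
  have hP : ∀ k x, P k x = ∑ i ∈ range k, c x i • e i := fun k x => rfl
  refine ⟨max 1 ‖Lc‖, P, le_max_left _ _, ?_, ?_, ?_, fun x d hd k => by rw [huniq x d hd, hP]⟩
  · intro k x
    have h1 : ‖P k x‖ ≤ ‖Lc x‖ := (Lc x).norm_coe_le_norm k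
    have h2 : ‖Lc x‖ ≤ ‖Lc‖ * ‖x‖ := Lc.le_opNorm x
    exact h1.trans (h2.trans (mul_le_mul_of_nonneg_right (le_max_right _ _) (norm_nonneg _)))
  · intro x
    exact hc x
  · intro k y hy
    have hce : ∀ j, c (e j) = Pi.single j 1 := by
      intro j
      refine (huniq (e j) _ ?_).symm
      refine tendsto_const_nhds.congr' ?_
      filter_upwards [eventually_gt_atTop j] with m hm
      rw [sum_eq_single j]
      · simp
      · intro i _ hi
        rw [Pi.single_eq_of_ne hi, zero_smul]
      · intro h
        exact absurd (mem_range.2 hm) h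
    have h1 : (Submodule.span ℝ (e '' Set.Ici k)) ≤ LinearMap.ker (P k).toLinearMap := by
      rw [Submodule.span_le]
      rintro _ ⟨j, hj, rfl⟩
      rw [SetLike.mem_coe, LinearMap.mem_ker]
      change P k (e j) = 0
      rw [hP, hce]
      apply sum_eq_zero
      intro i hi
      rw [Pi.single_eq_of_ne, zero_smul]
      have := mem_range.1 hi
      have h2 : k ≤ j := hj
      omega
    have h2 : IsClosed ((LinearMap.ker (P k).toLinearMap : Submodule ℝ X) : Set X) := by
      have : ((LinearMap.ker (P k).toLinearMap : Submodule ℝ X) : Set X) = (P k) ⁻¹' {0} := by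
        ext z
        simp
      rw [this]
      exact isClosed_singleton.preimage (P k).continuous
    have h3 := Submodule.topologicalClosure_minimal _ h1 h2
    exact h3 hy

end Pool.Agent.helper71.AL
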