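import Pool.Agent.helper71.AL.Final
import Pool.Agent.helper71.AL.Basis

/-!
# The final estimate in terms of the asymptotic structure
-/

set_option autoImplicit false

open Filter Topology

namespace Pool.Agent.helper71.AL

variable {X : Type*} [NormedAddCommGroup X] [NormedSpace ℝ X]

theorem Asy.nonneg {T : ℕ → Submodule ℝ X} {n : ℕ} {N : (Fin n → ℝ) → ℝ} (h : Asy T n N) (a : Fin n → ℝ) : 0 ≤ N a := by
  obtain ⟨hadd, hsm, -⟩ := h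
  have h1 := hadd a ((-1 : ℝ) • a)
  have h2 := hsm (-1) a
  have h3 := hsm 0 a
  rw [zero_smul, abs_zero, zero_mul] at h3
  rw [h2, neg_one_smul, add_neg_cancel, h3] at h1
  norm_num at h1
  linarith

theorem core {T : ℕ → Submodule ℝ X} {C : ℝ} {Pr : ℕ → X →L[ℝ] X} (hPr : Proj T C Pr) {K : ℝ} (hK1 : 1 ≤ K)
    (H : ∀ (J : ℕ) (N : (Fin J → ℝ) → ℝ), Asy T J N → Iso K N) (m : ℕ)
    (hm : 2400 * ((16 * K ^ 3) * (8 * C * (16 * K ^ 3) ^ 3 * K ^ 3)) ^ 2 * K ^ 2 < m)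
    (n : ℕ) (N : (Fin n → ℝ) → ℝ) (hN' : Asy T n N) (a : Fin n → ℝ) : ∑ i, |a i| ≤ 8 * (m : ℝ) ^ 2 * N a := by
  have hC0 : 0 < C := lt_of_lt_of_le one_pos hPr.one_le
  set D : ℝ := 2400 * ((16 * K ^ 3) * (8 * C * (16 * K ^ 3) ^ 3 * K ^ 3)) ^ 2 * K ^ 2 with hD
  have hD0 : 0 ≤ D := by positivity
  have hm0 : (0 : ℝ) < m := lt_of_le_of_lt hD0 hm
  have hd : 0 < m ^ 2 := by
    have : 0 < m := by exact_mod_cast hm0
    positivity
  by_contra hcon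
  push Not at hcon
  have hN0 : ∀ a, 0 ≤ N a := fun a => hN'.nonneg a
  obtain ⟨hadd, hsm, hz, hone, hstr⟩ := hN'
  have hs0 : 0 < ∑ i, |a i| := lt_of_le_of_lt (mul_nonneg (by positivity) (hN0 a)) hcon
  have hn : 0 < n := by
    rcases Nat.eq_zero_or_pos n with h | h
    · subst h
      simp at hs0
    · exact h
  obtain ⟨f, hf, hfk⟩ := hstr 1 one_pos
  set s : ℝ := ∑ i, |a i| with hs
  have ha1 : ∑ i, |(s⁻¹ • a) i| = 1 := by
    simp only [Pi.smul_apply, smul_eq_mul, abs_mul, ← Finset.mul_sum]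
    rw [abs_of_pos (inv_pos.2 hs0), ← hs, inv_mul_cancel₀ hs0.ne']
  have hNa : N (s⁻¹ • a) ≤ 1 / (8 * (m : ℝ) ^ 2) := by
    rw [hsm, abs_of_pos (inv_pos.2 hs0), inv_mul_le_iff₀ hs0, mul_one_div,
      le_div_iff₀ (by positivity)]
    linarith
  have hEa : EE f (s⁻¹ • a) ≤ 1 / (2 * ((m ^ 2 : ℕ) : ℝ)) := by
    have h1 := EE_le hf (v := s⁻¹ • a)
      (B := 2 * (1 / (8 * (m : ℝ) ^ 2))) (by
      intro k
      obtain ⟨A, B, hA, hB, hAB, hk⟩ := hfk k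
      have h2 := (hk (Pi.single ⟨0, hn⟩ 1)).1
      rw [hone, Finset.sum_eq_single ⟨0, hn⟩, Pi.single_eq_same, one_smul, hf.norm_eq,
        mul_one] at h2
      · have h3 : B ≤ 2 := by nlinarith
        have h4 := (hk (s⁻¹ • a)).2
        have h5 := hN0 (s⁻¹ • a)
        calc _ ≤ B * N (s⁻¹ • a) := h4
          _ ≤ 2 * (1 / (8 * (m : ℝ) ^ 2)) := by
            apply mul_le_mul h3 hNa h5 (by norm_num)
      · intro i _ hi
        rw [Pi.single_eq_of_ne hi, zero_smul]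
      · intro h; exact absurd (Finset.mem_univ _) h)
    refine h1.trans (le_of_eq ?_)
    push_cast
    field_simp
    norm_num
  have hfin := final_bound H hK1 hf hPr hn (s⁻¹ • a) ha1 hd hEa
  rw [← hD] at hfin
  push_cast at hfin
  rw [Real.sqrt_sq hm0.le] at hfin
  linarith

/-- the numerical form: `K1 = (101/100) K` -/
theorem core_num {T : ℕ → Submodule ℝ X} {C : ℝ} {Pr : ℕ → X →L[ℝ] X} (hPr : Proj T C Pr) {K : ℝ} (hK1 : 1 ≤ K)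
    (H : ∀ (J : ℕ) (N : (Fin J → ℝ) → ℝ), Asy T J N → Iso (101 / 100 * K) N)
    (n : ℕ) (N : (Fin n → ℝ) → ℝ) (hN' : Asy T n N) (a : Fin n → ℝ) : ∑ i, |a i| ≤ 2 ^ 103 * C ^ 4 * K ^ 64 * N a := by
  have hC1 := hPr.one_le
  have hC0 : 0 < C := lt_of_lt_of_le one_pos hC1
  have hK0 : 0 < K := lt_of_lt_of_le one_pos hK1
  set D : ℝ := 2400 * ((16 * (101 / 100 * K) ^ 3) * (8 * C * (16 * (101 / 100 * K) ^ 3) ^ 3 * (101 / 100 * K) ^ 3)) ^ 2 * (101 / 100 * K) ^ 2 with hD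
  have hD1 : D = (2400 * 2 ^ 38 * (101 / 100) ^ 32) * (C ^ 2 * K ^ 32) := by
    rw [hD]
    ring
  have hE : 1 ≤ C ^ 2 * K ^ 32 := by
    have h1 : 1 ≤ C ^ 2 := one_le_pow₀ hC1
    have h2 : 1 ≤ K ^ 32 := one_le_pow₀ hK1
    nlinarith
  have hD0 : 0 ≤ D := by positivity
  have h := core hPr (by linarith : (1 : ℝ) ≤ 101 / 100 * K) H (⌊D⌋₊ + 1) (by
    push_cast
    exact Nat.lt_floor_add_one D) n N hN' a
  refine h.trans (mul_le_mul_of_nonneg_right ?_ (hN'.nonneg a))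
  have h3 : ((⌊D⌋₊ + 1 : ℕ) : ℝ) ≤ 2 ^ 50 * (C ^ 2 * K ^ 32) := by
    push_cast
    have h4 := Nat.floor_le hD0
    have h5 : (2400 * 2 ^ 38 * (101 / 100) ^ 32 + 1 : ℝ) ≤ 2 ^ 50 := by norm_num
    calc (⌊D⌋₊ : ℝ) + 1 ≤ D + 1 := by linarith
      _ ≤ (2400 * 2 ^ 38 * (101 / 100) ^ 32) * (C ^ 2 * K ^ 32) + 1 * (C ^ 2 * K ^ 32) := by rw [hD1]; linarith
      _ = (2400 * 2 ^ 38 * (101 / 100) ^ 32 + 1) * (C ^ 2 * K ^ 32) := by ring
      _ ≤ 2 ^ 50 * (C ^ 2 * K ^ 32) := mul_le_mul_of_nonneg_right h5 (by linarith)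
  calc 8 * ((⌊D⌋₊ + 1 : ℕ) : ℝ) ^ 2 ≤ 8 * (2 ^ 50 * (C ^ 2 * K ^ 32)) ^ 2 := by
        apply mul_le_mul_of_nonneg_left _ (by norm_num)
        exact pow_le_pow_left₀ (Nat.cast_nonneg _) h3 2
    _ = 2 ^ 103 * C ^ 4 * K ^ 64 := by ring

end Pool.Agent.helper71.AL
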