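import Pool.Agent.helper71.AL.BMCDefs
import Pool.Agent.helper71.AL.Core
import Pool.Agent.helper71.AL.Basis2

/-!
# The Banach-Mazur criterion for Asymptotic `ℓ_1` spaces: proof
-/

set_option autoImplicit false

open Filter Topology

namespace Pool.Agent.helper71.BMC

universe u v

/-! ## The strategies -/

section
variable {X : Type u} [NormedAddCommGroup X] [NormedSpace ℝ X]

open Pool.Agent.helper71.AL (Strat Proj Asy Iso Tl)

theorem canPick_iff (T : ℕ → Submodule ℝ X) (n : ℕ) : ∀ P : (Fin n → X) → Prop,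
    CanPick T n P ↔ ∃ f : (Fin n → ℕ) → Fin n → X, Strat T f ∧ ∀ k, P (f k) := by
  induction n with
  | zero =>
    intro P
    constructor
    · intro h
      exact ⟨fun _ => Fin.elim0, ⟨fun k k' i => i.elim0, fun k i => i.elim0, fun k i => i.elim0⟩, fun k => h⟩
    · rintro ⟨f, -, h⟩
      have := h Fin.elim0
      rwa [Subsingleton.elim (f Fin.elim0) Fin.elim0] at this
  | succ n ih =>
    intro P
    constructor
    · intro h
      have h' : ∀ k : ℕ, ∃ x ∈ T k, ‖x‖ = 1 ∧ CanPick T n (fun y => P (Fin.cons x y)) := h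
      choose x hx hx1 hP using h'
      choose f hf hfP using fun k => (ih _).1 (hP k)
      refine ⟨fun k => Fin.cons (x (k 0)) (f (k 0) (fun j => k j.succ)), ⟨?_, ?_, ?_⟩, ?_⟩
      · intro k k' i hk
        have h0 : k 0 = k' 0 := hk 0 (Fin.zero_le _)
        refine Fin.cases ?_ (fun j => ?_) i (motive := fun i => (∀ j ≤ i, k j = k' j) →
          (Fin.cons (x (k 0)) (f (k 0) (fun j => k j.succ)) : Fin (n + 1) → X) i =
          (Fin.cons (x (k' 0)) (f (k' 0) (fun j => k' j.succ)) : Fin (n + 1) → X) i) hk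
        · intro _
          rw [Fin.cons_zero, Fin.cons_zero, h0]
        · intro hj
          rw [Fin.cons_succ, Fin.cons_succ, h0]
          exact (hf (k' 0)).dep _ _ j (fun l hl => hj l.succ (Fin.succ_le_succ_iff.2 hl))
      · intro k i
        refine Fin.cases ?_ (fun j => ?_) i
        · rw [Fin.cons_zero]
          exact hx1 _
        · rw [Fin.cons_succ]
          exact (hf _).norm_eq _ _
      · intro k i
        refine Fin.cases ?_ (fun j => ?_) i
        · rw [Fin.cons_zero]
          exact hx _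
        · rw [Fin.cons_succ]
          have := (hf (k 0)).mem (fun j => k j.succ) j
          exact this
      · intro k
        exact hfP _ _
    · rintro ⟨f, hf, hP⟩
      show ∀ k : ℕ, ∃ x ∈ T k, ‖x‖ = 1 ∧ CanPick T n (fun y => P (Fin.cons x y))
      intro k
      refine ⟨f (Fin.cons k 0) 0, ?_, hf.norm_eq _ _, ?_⟩
      · have := hf.mem (Fin.cons k 0) 0
        rwa [Fin.cons_zero] at this
      · rw [ih]
        refine ⟨fun q i => f (Fin.cons k q) i.succ, ⟨?_, ?_, ?_⟩, ?_⟩
        · intro q q' i h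
          apply hf.dep
          intro j
          refine Fin.cases ?_ (fun l => ?_) j
          · intro _
            rw [Fin.cons_zero, Fin.cons_zero]
          · intro hl
            rw [Fin.cons_succ, Fin.cons_succ]
            exact h l (Fin.succ_le_succ_iff.1 hl)
        · intro q i
          exact hf.norm_eq _ _
        · intro q i
          have := hf.mem (Fin.cons k q) i.succ
          rwa [Fin.cons_succ] at this
        · intro q
          have h1 : (Fin.cons (f (Fin.cons k 0) 0) (fun i => f (Fin.cons k q) i.succ) : Fin (n + 1) → X) = f (Fin.cons k q) := by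
            funext i
            refine Fin.cases ?_ (fun j => ?_) i
            · rw [Fin.cons_zero]
              apply hf.dep
              intro j hj
              have : j = 0 := Fin.le_zero_iff.1 hj
              rw [this, Fin.cons_zero, Fin.cons_zero]
            · rw [Fin.cons_succ]
          rw [h1]
          exact hP _

/-- A member of the asymptotic structure gives a norm in the sense of `Asy`. -/
theorem asy_of_mem {F : Type v} [NormedAddCommGroup F] [NormedSpace ℝ F] (e : ℕ → X) {n : ℕ} (b : Fin n → F)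
    (hb : MemAsymptotic e b) : Asy (Tl e) n (fun a => ‖∑ i, a i • b i‖) := by
  obtain ⟨hli, hn, hg⟩ := hb
  refine ⟨fun a a' => ?_, fun c a => ?_, fun a ha => ?_, fun i => ?_, fun ε hε => ?_⟩
  · have : ∑ i, (a + a') i • b i = ∑ i, a i • b i + ∑ i, a' i • b i := by
      rw [← Finset.sum_add_distrib]
      exact Finset.sum_congr rfl fun i _ => by rw [Pi.add_apply, add_smul]
    show ‖∑ i, (a + a') i • b i‖ ≤ _
    rw [this]
    exact norm_add_le _ _
  · have : ∑ i, (c • a) i • b i = c • ∑ i, a i • b i := by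
      rw [Finset.smul_sum]
      exact Finset.sum_congr rfl fun i _ => by rw [Pi.smul_apply, smul_eq_mul, mul_smul]
    show ‖∑ i, (c • a) i • b i‖ = _
    rw [this, norm_smul, Real.norm_eq_abs]
  · funext i
    exact Fintype.linearIndependent_iff.1 hli a (norm_eq_zero.1 ha) i
  · show ‖∑ j, (Pi.single i (1 : ℝ) : Fin n → ℝ) j • b j‖ = 1
    rw [Finset.sum_eq_single i, Pi.single_eq_same, one_smul, hn]
    · intro j _ hj
      rw [Pi.single_eq_of_ne hj, zero_smul]
    · intro h
      exact absurd (Finset.mem_univ _) h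
  · obtain ⟨f, hf, hP⟩ := (canPick_iff _ _ _).1 (hg ε hε)
    refine ⟨f, hf, fun k => ?_⟩
    obtain ⟨A, B, hA, hB, hAB, h⟩ := hP k
    refine ⟨A, B, hA, hB, hAB, fun a => ⟨?_, (h a).2⟩⟩
    have := (h a).1
    rwa [inv_mul_le_iff₀ hA] at this

/-- A copy of `ℝ^n`, with a norm. -/
def NF {n : ℕ} (_ : (Fin n → ℝ) → ℝ) : Type := Fin n → ℝ

instance {n : ℕ} (N : (Fin n → ℝ) → ℝ) : AddCommGroup (NF N) := inferInstanceAs (AddCommGroup (Fin n → ℝ))
instance {n : ℕ} (N : (Fin n → ℝ) → ℝ) : Module ℝ (NF N) := inferInstanceAs (Module ℝ (Fin n → ℝ))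

theorem asy_neg {T : ℕ → Submodule ℝ X} {n : ℕ} {N : (Fin n → ℝ) → ℝ} (h : Asy T n N) (a : Fin n → ℝ) : N (-a) = N a := by
  have h3 := h.2.1 (-1) a
  rw [neg_one_smul, abs_neg, abs_one, one_mul] at h3
  exact h3

/-- The norm on the copy. -/
noncomputable abbrev NF.grp {T : ℕ → Submodule ℝ X} {n : ℕ} (N : (Fin n → ℝ) → ℝ) (h : Asy T n N) : NormedAddCommGroup (NF N) :=
  AddGroupNorm.toNormedAddCommGroup
    { toFun := N
      map_zero' := by
        have h3 := h.2.1 0 0
        rw [zero_smul, abs_zero, zero_mul] at h3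
        exact h3
      add_le' := h.1
      neg' := asy_neg h
      eq_zero_of_map_eq_zero' := h.2.2.1 }

theorem iso_of_bm (e : ℕ → X) (K K1 : ℝ) (hK : K < K1) (hK1 : 1 ≤ K1) {n : ℕ} (N : (Fin n → ℝ) → ℝ)
    (h : Asy (Tl e) n N)
    (H : ∀ (F : Type) [NormedAddCommGroup F] [NormedSpace ℝ F] (b : Fin n → F), MemAsymptotic e b →
      bmDist (Submodule.span ℝ (Set.range b)) (PiLp 1 fun _ : Fin n => ℝ) ≤ K) : Iso K1 N := by
  classical
  rcases Nat.eq_zero_or_pos n with h0 | hpos
  · subst h0
    refine ⟨LinearEquiv.refl ℝ _, 1, 1, one_pos, one_pos, by linarith, fun a => ?_⟩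
    have ha : a = 0 := Subsingleton.elim _ _
    have h3 := h.2.1 0 0
    rw [zero_smul, abs_zero, zero_mul] at h3
    rw [ha, h3]
    simp
  let _ : NormedAddCommGroup (NF N) := NF.grp N h
  let _ : NormedSpace ℝ (NF N) := { norm_smul_le := fun c a => le_of_eq (h.2.1 c a) }
  have hnorm : ∀ a : NF N, ‖a‖ = N a := fun a => rfl
  obtain ⟨b, hb⟩ : ∃ b : Fin n → NF N, b = fun i => (Pi.single i (1 : ℝ) : Fin n → ℝ) := ⟨_, rfl⟩
  have hsum : ∀ a : Fin n → ℝ, ∑ i, a i • b i = (a : NF N) := by
    intro a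
    have h1 : (∑ i, a i • (Pi.single i (1 : ℝ) : Fin n → ℝ)) = a := by
      funext j
      rw [Finset.sum_apply, Finset.sum_eq_single j]
      · simp
      · intro i _ hi
        simp [Ne.symm hi]
      · intro h; exact absurd (Finset.mem_univ _) h
    rw [hb]
    exact h1
  have hna : ∀ a : Fin n → ℝ, ‖∑ i, a i • b i‖ = N a := by
    intro a
    rw [hsum]
    rfl
  have hli : LinearIndependent ℝ b := by
    rw [Fintype.linearIndependent_iff]
    intro g hg i
    rw [hsum] at hg
    exact congrFun hg i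
  have hmem : MemAsymptotic e b := by
    refine ⟨hli, fun i => ?_, fun ε hε => ?_⟩
    · rw [hb]
      exact h.2.2.2.1 i
    · rw [canPick_iff]
      obtain ⟨f, hf, hk⟩ := h.2.2.2.2 ε hε
      refine ⟨f, hf, fun k => ?_⟩
      obtain ⟨A, B, hA, hB, hAB, hab⟩ := hk k
      refine ⟨A, B, hA, hB, hAB, fun a => ?_⟩
      rw [hna, inv_mul_le_iff₀ hA]
      exact hab a
  have hd := H (NF N) b hmem
  have hfd : FiniteDimensional ℝ (Submodule.span ℝ (Set.range b)) := FiniteDimensional.span_of_finite ℝ (Set.finite_range b)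
  have hne : Nonempty ((Submodule.span ℝ (Set.range b)) ≃L[ℝ] (PiLp 1 fun _ : Fin n => ℝ)) :=
    ⟨((Module.Basis.span hli).equivFun ≪≫ₗ (WithLp.linearEquiv 1 ℝ (Fin n → ℝ)).symm).toContinuousLinearEquiv⟩
  obtain ⟨T, hT⟩ := exists_lt_of_ciInf_lt (lt_of_le_of_lt hd hK)
  have : Nontrivial (Submodule.span ℝ (Set.range b)) := by
    refine ⟨⟨⟨b ⟨0, hpos⟩, Submodule.subset_span ⟨_, rfl⟩⟩, 0, fun h1 => ?_⟩⟩
    exact hli.ne_zero _ (congrArg Subtype.val h1)
  have hp1 := T.norm_pos
  have hp2 := T.norm_symm_pos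
  refine ⟨(Module.Basis.span hli).equivFun.symm ≪≫ₗ T.toLinearEquiv ≪≫ₗ (WithLp.linearEquiv 1 ℝ (Fin n → ℝ)),
    ‖(T.symm : (PiLp 1 fun _ : Fin n => ℝ) →L[ℝ] (Submodule.span ℝ (Set.range b)))‖,
    ‖(T : (Submodule.span ℝ (Set.range b)) →L[ℝ] (PiLp 1 fun _ : Fin n => ℝ))‖, hp2, hp1, by rw [mul_comm]; exact hT.le, fun a => ?_⟩
  obtain ⟨y, hy⟩ : ∃ y, y = (Module.Basis.span hli).equivFun.symm a := ⟨_, rfl⟩
  have hy1 : (y : NF N) = (a : NF N) := by
    rw [hy, Module.Basis.equivFun_symm_apply, Submodule.coe_sum]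
    have : ∀ i, ((a i • (Module.Basis.span hli) i : Submodule.span ℝ (Set.range b)) : NF N) = a i • b i := by
      intro i
      rw [Submodule.coe_smul, Module.Basis.span_apply]
    rw [Finset.sum_congr rfl fun i _ => this i]
    exact hsum a
  have hy2 : N a = ‖y‖ := by
    rw [Submodule.coe_norm, hy1]
    rfl
  have hTy : ∑ i, |((Module.Basis.span hli).equivFun.symm ≪≫ₗ T.toLinearEquiv ≪≫ₗ (WithLp.linearEquiv 1 ℝ (Fin n → ℝ))) a i| = ‖T y‖ := by
    rw [PiLp.norm_eq_of_L1, hy]
    rfl
  rw [hTy, hy2]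
  constructor
  · have := (T.symm : (PiLp 1 fun _ : Fin n => ℝ) →L[ℝ] (Submodule.span ℝ (Set.range b))).le_opNorm (T y)
    rwa [ContinuousLinearEquiv.coe_coe, ContinuousLinearEquiv.symm_apply_apply] at this
  · exact (T : (Submodule.span ℝ (Set.range b)) →L[ℝ] (PiLp 1 fun _ : Fin n => ℝ)).le_opNorm y

end

/-- **The Banach-Mazur criterion for Asymptotic `ℓ_1` spaces.** -/
theorem main {X : Type u} [NormedAddCommGroup X] [NormedSpace ℝ X] [CompleteSpace X] (e : ℕ → X)
    (he : IsSchauderBasis e) :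
    (∃ C : ℝ, BasisConstantLE e C) ∧
    ∀ C K : ℝ, BasisConstantLE e C → 1 ≤ K →
      (∀ (n : ℕ) (F : Type) [NormedAddCommGroup F] [NormedSpace ℝ F] (b : Fin n → F), MemAsymptotic e b →
        bmDist (Submodule.span ℝ (Set.range b)) (PiLp 1 fun _ : Fin n => ℝ) ≤ K) →
      ∀ (n : ℕ) (F : Type v) [NormedAddCommGroup F] [NormedSpace ℝ F] (b : Fin n → F), MemAsymptotic e b →
        Equivalent (2 ^ 103 * C ^ 4 * K ^ 64) b (PiLp.basisFun 1 ℝ (Fin n)) := by
  obtain ⟨C0, Pr, hC01, hb0, hl0, hz0, hform⟩ := Pool.Agent.helper71.AL.exists_proj2 e he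
  refine ⟨⟨C0, fun c m k hmk => ?_⟩, fun C K hC hK H n F _ _ b hb => ?_⟩
  · have h1 : Tendsto (fun j => ∑ i ∈ Finset.range j, (fun i => if i < k then c i else 0) i • e i) atTop
        (𝓝 (∑ i ∈ Finset.range k, c i • e i)) := by
      refine tendsto_const_nhds.congr' ?_
      filter_upwards [eventually_ge_atTop k] with j hj
      symm
      rw [← Finset.sum_subset (Finset.range_mono hj)]
      · apply Finset.sum_congr rfl
        intro i hi
        simp only [Finset.mem_range.1 hi, if_true]
      · intro i _ hi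
        have : ¬ i < k := fun h => hi (Finset.mem_range.2 h)
        simp only [this, if_false, zero_smul]
    have h2 := hform _ _ h1 m
    have h3 : ∑ i ∈ Finset.range m, (fun i => if i < k then c i else 0) i • e i = ∑ i ∈ Finset.range m, c i • e i := by
      apply Finset.sum_congr rfl
      intro i hi
      have : i < k := lt_of_lt_of_le (Finset.mem_range.1 hi) hmk
      simp only [this, if_true]
    rw [← h3, ← h2]
    exact hb0 _ _
  · have hbd : ∀ k x, ‖Pr k x‖ ≤ C * ‖x‖ := by
      intro k x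
      obtain ⟨c, hc, -⟩ := he x
      rw [hform x c hc k]
      have h1 : Tendsto (fun m => C * ‖∑ i ∈ Finset.range m, c i • e i‖) atTop (𝓝 (C * ‖x‖)) := (hc.norm).const_mul C
      apply ge_of_tendsto h1
      filter_upwards [eventually_ge_atTop k] with m hm
      exact hC c k m hm
    have he0 : e 0 ≠ 0 := by
      intro h0
      obtain ⟨c, -, hu⟩ := he 0
      have h1 := hu (fun i => if i = 0 then 1 else 0) (by
        refine tendsto_const_nhds.congr (fun m => ?_)
        symm
        apply Finset.sum_eq_zero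
        intro i _
        by_cases hi : i = 0
        · rw [hi, h0, smul_zero]
        · simp only [hi, if_false, zero_smul])
      have h2 := hu (fun _ => 0) (by simp)
      have h3 := congrFun (h1.trans h2.symm) 0
      simp at h3
    have hC1 : 1 ≤ C := by
      have h1 := hC (fun _ => 1) 1 1 le_rfl
      simp only [Finset.range_one, Finset.sum_singleton, one_smul] at h1
      have h2 : 0 < ‖e 0‖ := norm_pos_iff.2 he0
      by_contra hcon
      push Not at hcon
      nlinarith
    have hProj : Pool.Agent.helper71.AL.Proj (Pool.Agent.helper71.AL.Tl e) C Pr :=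
      { one_le := hC1
        bound := hbd
        lim := hl0
        zero := hz0
        anti := Pool.Agent.helper71.AL.Tl_anti e }
    have key := Pool.Agent.helper71.AL.core_num hProj hK (fun J N hN =>
      iso_of_bm e K (101 / 100 * K) (by linarith) (by linarith) N hN (fun F _ _ b' hb' => H J F b' hb')) n _ (asy_of_mem e b hb)
    have hC0 : 0 < C := lt_of_lt_of_le one_pos hC1
    have hK0 : 0 < K := lt_of_lt_of_le one_pos hK
    have hu : ∀ a : Fin n → ℝ, ‖∑ i, a i • (PiLp.basisFun 1 ℝ (Fin n)) i‖ = ∑ i, |a i| := by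
      intro a
      rw [PiLp.norm_eq_of_L1]
      apply Finset.sum_congr rfl
      intro i _
      have h1 : (PiLp.basisFun 1 ℝ (Fin n)).equivFun.symm a = ∑ i, a i • (PiLp.basisFun 1 ℝ (Fin n)) i :=
        Module.Basis.equivFun_symm_apply _ _
      rw [← h1, PiLp.basisFun_equivFun]
      rfl
    refine ⟨2 ^ 103 * C ^ 4 * K ^ 64, 1, by positivity, one_pos, by rw [mul_one], fun a => ?_⟩
    rw [hu, inv_mul_le_iff₀ (by positivity), one_mul]
    refine ⟨key a, (norm_sum_le _ _).trans (Finset.sum_le_sum fun i _ => ?_)⟩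
    rw [norm_smul, hb.2.1 i, mul_one, Real.norm_eq_abs]

end Pool.Agent.helper71.BMC
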