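import Pool.Agent.helper71.AL.Config

/-!
# Block sequences of interleaved copies belong to the asymptotic structure
-/

set_option autoImplicit false

open Filter Topology

namespace Pool.Agent.helper71.AL

variable {X : Type*} [NormedAddCommGroup X] [NormedSpace ℝ X]

/-- Membership in the asymptotic structure. -/
def Asy (T : ℕ → Submodule ℝ X) (n : ℕ) (N : (Fin n → ℝ) → ℝ) : Prop :=
  (∀ a b, N (a + b) ≤ N a + N b) ∧ (∀ (c : ℝ) a, N (c • a) = |c| * N a) ∧
    (∀ a, N a = 0 → a = 0) ∧ (∀ i, N (Pi.single i 1) = 1) ∧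
    ∀ ε : ℝ, 0 < ε → ∃ f : (Fin n → ℕ) → Fin n → X, Strat T f ∧
      ∀ k, ∃ A B : ℝ, 0 < A ∧ 0 < B ∧ A * B ≤ 1 + ε ∧
        ∀ a, N a ≤ A * ‖∑ i, a i • f k i‖ ∧ ‖∑ i, a i • f k i‖ ≤ B * N a

/-- Isomorphism with a finite dimensional `l1` space. -/
def Iso (K : ℝ) {κ : Type*} [Fintype κ] (N : (κ → ℝ) → ℝ) : Prop :=
  ∃ T : (κ → ℝ) ≃ₗ[ℝ] (κ → ℝ), ∃ A B : ℝ, 0 < A ∧ 0 < B ∧ A * B ≤ K ∧
    ∀ a, N a ≤ A * ∑ i, |T a i| ∧ ∑ i, |T a i| ≤ B * N a

variable {n : ℕ} {ι : Type*} [Fintype ι]

/-- Linear combinations of coefficient arrays. -/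
noncomputable def comb {κ : Type*} [Fintype κ] (y : κ → ι → Fin n → ℝ) (t : κ → ℝ) :
    ι → Fin n → ℝ := ∑ c, t c • y c

omit [Fintype ι] in
theorem comb_add {κ : Type*} [Fintype κ] (y : κ → ι → Fin n → ℝ) (t s : κ → ℝ) :
    comb y (t + s) = comb y t + comb y s := by
  simp only [comb, Pi.add_apply, add_smul, Finset.sum_add_distrib]

omit [Fintype ι] in
theorem comb_smul {κ : Type*} [Fintype κ] (y : κ → ι → Fin n → ℝ) (r : ℝ) (t : κ → ℝ) :
    comb y (r • t) = r • comb y t := by
  simp only [comb, Pi.smul_apply, smul_eq_mul, mul_smul, Finset.smul_sum]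

omit [Fintype ι] in
theorem comb_sub {κ : Type*} [Fintype κ] (y : κ → ι → Fin n → ℝ) (t s : κ → ℝ) :
    comb y (t - s) = comb y t - comb y s := by
  simp only [comb, Pi.sub_apply, sub_smul, Finset.sum_sub_distrib]

omit [Fintype ι] in
theorem comb_single {κ : Type*} [Fintype κ] [DecidableEq κ] (y : κ → ι → Fin n → ℝ) (c : κ) :
    comb y (Pi.single c 1) = y c := by
  unfold comb
  rw [Finset.sum_eq_single c]
  · simp
  · intro c' _ hc'
    rw [Pi.single_eq_of_ne hc', zero_smul]
  · intro h; exact absurd (Finset.mem_univ _) h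

theorem vec_comb {κ : Type*} [Fintype κ] (f : (Fin n → ℕ) → Fin n → X) (P : ι → ℕ → ℕ)
    (y : κ → ι → Fin n → ℝ) (t : κ → ℝ) (k : ℕ → ℕ) :
    vec f P (comb y t) k = ∑ c, t c • vec f P (y c) k := by
  classical
  unfold comb
  have h : ∀ s : Finset κ, vec f P (∑ c ∈ s, t c • y c) k = ∑ c ∈ s, t c • vec f P (y c) k := by
    intro s
    induction s using Finset.induction_on with
    | empty => simp [vec_zero]
    | insert c s hc ih => rw [Finset.sum_insert hc, Finset.sum_insert hc, vec_add, vec_smul, ih]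
  exact h _

variable {T : ℕ → Submodule ℝ X} {f : (Fin n → ℕ) → Fin n → X} {C : ℝ} {Pr : ℕ → X →L[ℝ] X}

/-- Uniform convergence to the limit norm on finite dimensional spaces. -/
theorem eventually_uniform {κ : Type*} [Fintype κ] (hf : Strat T f) (P : ι → ℕ → ℕ) (Q : ℕ)
    (y : κ → ι → Fin n → ℝ) {η : ℝ} (hη : 0 < η) :
    ∀ᶠ k in (V Q : Filter (ℕ → ℕ)), ∀ t : κ → ℝ,
      |‖vec f P (comb y t) k‖ - NN f P Q (comb y t)| ≤ η * ∑ c, |t c| := by
  classical
  set L : ℝ := ∑ c, l1 (y c) with hL
  have hL0 : 0 ≤ L := Finset.sum_nonneg fun c _ => l1_nonneg _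
  have hb : ∀ t : κ → ℝ, ∀ k, ‖vec f P (comb y t) k‖ ≤ L * ‖t‖ := by
    intro t k
    rw [vec_comb, hL, Finset.sum_mul]
    refine (norm_sum_le _ _).trans (Finset.sum_le_sum fun c _ => ?_)
    rw [norm_smul, mul_comm]
    exact mul_le_mul (norm_vec_le hf P _ k) (norm_le_pi_norm t c) (norm_nonneg _) (l1_nonneg _)
  have hbN : ∀ t : κ → ℝ, NN f P Q (comb y t) ≤ L * ‖t‖ := fun t =>
    le_of_tendsto (tendsto_NN hf P Q _) (Eventually.of_forall fun k => hb t k)
  have hlipF : ∀ t s : κ → ℝ, ∀ k, |‖vec f P (comb y t) k‖ - ‖vec f P (comb y s) k‖| ≤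
      L * ‖t - s‖ := by
    intro t s k
    refine (abs_norm_sub_norm_le _ _).trans ?_
    rw [← vec_sub, ← comb_sub]
    exact hb _ _
  have hlipN : ∀ t s : κ → ℝ, |NN f P Q (comb y t) - NN f P Q (comb y s)| ≤ L * ‖t - s‖ := by
    intro t s
    have h1 : NN f P Q (comb y t) ≤ NN f P Q (comb y s) + L * ‖t - s‖ := by
      have h2 := NN_add_le hf P Q (comb y s) (comb y (t - s))
      rw [← comb_add, add_sub_cancel] at h2
      exact h2.trans (by linarith [hbN (t - s)])
    have h1' : NN f P Q (comb y s) ≤ NN f P Q (comb y t) + L * ‖t - s‖ := by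
      have h2 := NN_add_le hf P Q (comb y t) (comb y (s - t))
      rw [← comb_add, add_sub_cancel] at h2
      have h3 := hbN (s - t)
      rw [norm_sub_rev] at h3
      linarith
    rw [abs_le]
    constructor <;> linarith
  set δ : ℝ := η / (3 * (L + 1)) with hδ
  have hδ0 : 0 < δ := by positivity
  obtain ⟨F, hF1, hF2, hF3⟩ := (isCompact_closedBall (0 : κ → ℝ) 1).finite_cover_balls hδ0
  have hev : ∀ᶠ k in (V Q : Filter (ℕ → ℕ)), ∀ s ∈ F,
      |‖vec f P (comb y s) k‖ - NN f P Q (comb y s)| ≤ η / 3 := by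
    rw [hF2.eventually_all]
    intro s _
    have := (Metric.tendsto_nhds.1 (tendsto_NN hf P Q (comb y s))) (η / 3) (by linarith)
    filter_upwards [this] with k hk
    rw [Real.dist_eq] at hk
    exact hk.le
  filter_upwards [hev] with k hk t
  have hLδ : L * δ ≤ η / 3 := by
    rw [hδ, mul_div_assoc', div_le_div_iff₀ (by positivity) (by norm_num)]
    nlinarith
  have hball : ∀ t : κ → ℝ, ‖t‖ ≤ 1 → |‖vec f P (comb y t) k‖ - NN f P Q (comb y t)| ≤ η := by
    intro t ht
    have h1 := hF3 (show t ∈ Metric.closedBall (0 : κ → ℝ) 1 by simpa using ht)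
    simp only [Set.mem_iUnion] at h1
    obtain ⟨s, hs, hts⟩ := h1
    rw [Metric.mem_ball, dist_eq_norm] at hts
    have h2 := hlipF t s k
    have h3 := hlipN t s
    have h4 := hk s hs
    have h5 : L * ‖t - s‖ ≤ η / 3 := (mul_le_mul_of_nonneg_left hts.le hL0).trans hLδ
    rw [abs_le] at h2 h3 h4 ⊢
    constructor <;> linarith [h2.1, h2.2, h3.1, h3.2, h4.1, h4.2]
  have hle : ‖t‖ ≤ ∑ c, |t c| := by
    rw [pi_norm_le_iff_of_nonneg (Finset.sum_nonneg fun _ _ => abs_nonneg _)]
    intro c
    rw [Real.norm_eq_abs]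
    exact Finset.single_le_sum (f := fun c => |t c|) (fun _ _ => abs_nonneg _) (Finset.mem_univ c)
  refine le_trans ?_ (mul_le_mul_of_nonneg_left hle hη.le)
  rcases eq_or_ne t 0 with h0 | h0
  · subst h0
    have h1 : comb y (0 : κ → ℝ) = 0 := by simp [comb]
    rw [h1, vec_zero]
    have h2 := NN_smul hf P Q 0 (0 : ι → Fin n → ℝ)
    simp only [zero_smul, abs_zero, zero_mul] at h2
    simp [h2]
  · have hn : 0 < ‖t‖ := norm_pos_iff.2 h0
    have h1 := hball (‖t‖⁻¹ • t) (by rw [norm_smul, norm_inv, norm_norm, inv_mul_cancel₀ hn.ne'])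
    rw [comb_smul, vec_smul, NN_smul hf, norm_smul, Real.norm_eq_abs, ← mul_sub, abs_mul, abs_abs,
      abs_of_pos (inv_pos.2 hn), inv_mul_le_iff₀ hn] at h1
    linarith

/-- Normalised block sequences of interleaved copies belong to the asymptotic structure. -/
theorem asy_block (hf : Strat T f) (hPr : Proj T C Pr) {P : ι → ℕ → ℕ} {Q : ℕ}
    (hP : Good P n Q) {J : ℕ} (r : Fin J → ℕ) (hr : StrictMono r) (bn : ℕ → ℕ)
    (hbn : Monotone bn) (hJ : 0 < J) (y : Fin J → ι → Fin n → ℝ)
    (hy : ∀ c m i, y c m i ≠ 0 → bn (P m i) = r c) (hy1 : ∀ c, NN f P Q (y c) = 1) :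
    Asy T J (fun t => NN f P Q (comb y t)) := by
  classical
  have hCpos : 0 < C := lt_of_lt_of_le one_pos hPr.one_le
  -- disjoint supports
  have hdis : ∀ c t m i, y c m i ≠ 0 → comb y t m i = t c * y c m i := by
    intro c t m i h
    unfold comb
    rw [Finset.sum_apply, Finset.sum_apply, Finset.sum_eq_single c]
    · simp
    · intro c' _ hc'
      have : y c' m i = 0 := by
        by_contra h'
        exact hc' (hr.injective ((hy c' m i h').symm.trans (hy c m i h)))
      simp [this]
    · intro h'; exact absurd (Finset.mem_univ _) h'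
  have hex : ∀ c, ∃ m i, y c m i ≠ 0 := by
    intro c
    by_contra hcon
    push Not at hcon
    have h0 : y c = 0 := by
      funext m i
      exact hcon m i
    have h1 := hy1 c
    rw [h0] at h1
    have h2 := NN_le_l1 hf P Q (0 : ι → Fin n → ℝ)
    rw [h1] at h2
    simp [l1] at h2
    linarith
  choose mc ic hmc using hex
  set D : ℝ := 1 + ∑ c, 2 * C / |y c (mc c) (ic c)| with hD
  have hD1 : 1 ≤ D := by
    have : 0 ≤ ∑ c, 2 * C / |y c (mc c) (ic c)| :=
      Finset.sum_nonneg fun c _ => div_nonneg (by positivity) (abs_nonneg _)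
    linarith
  have hDN : ∀ t : Fin J → ℝ, ∑ c, |t c| ≤ D * NN f P Q (comb y t) := by
    intro t
    have h1 : ∀ c, |t c| ≤ 2 * C / |y c (mc c) (ic c)| * NN f P Q (comb y t) := by
      intro c
      have h2 := abs_le_NN hf hPr hP (comb y t) (mc c) (ic c)
      rw [hdis c t _ _ (hmc c), abs_mul] at h2
      have h3 : 0 < |y c (mc c) (ic c)| := abs_pos.2 (hmc c)
      rw [div_mul_eq_mul_div, le_div_iff₀ h3]
      exact h2
    have h0 := NN_nonneg hf P Q (comb y t)
    calc ∑ c, |t c| ≤ ∑ c, 2 * C / |y c (mc c) (ic c)| * NN f P Q (comb y t) :=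
          Finset.sum_le_sum fun c _ => h1 c
      _ = (∑ c, 2 * C / |y c (mc c) (ic c)|) * NN f P Q (comb y t) := by rw [Finset.sum_mul]
      _ ≤ D * NN f P Q (comb y t) := by
          apply mul_le_mul_of_nonneg_right _ h0
          linarith
  refine ⟨fun a b => ?_, fun c a => ?_, fun a ha => ?_, fun i => ?_, fun ε hε => ?_⟩
  · dsimp only
    rw [comb_add]
    exact NN_add_le hf P Q _ _
  · dsimp only
    rw [comb_smul]
    exact NN_smul hf P Q _ _
  · dsimp only at ha
    have h1 := hDN a
    rw [ha, mul_zero] at h1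
    funext c
    have h2 : |a c| ≤ ∑ c, |a c| :=
      Finset.single_le_sum (f := fun c => |a c|) (fun _ _ => abs_nonneg _) (Finset.mem_univ c)
    exact abs_eq_zero.1 (le_antisymm (h2.trans h1) (abs_nonneg _))
  · dsimp only
    rw [comb_single, hy1]
  · set u : ℝ := min (1 / 9) (ε / 9) with hu
    have hu0 : 0 < u := lt_min (by norm_num) (by linarith)
    have hu1 : u ≤ 1 / 9 := min_le_left _ _
    have hu2 : 9 * u ≤ ε := by
      have := min_le_right (1 / 9 : ℝ) (ε / 9)
      rw [← hu] at this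
      linarith
    set η : ℝ := u / D with hη
    have hη0 : 0 < η := by positivity
    have hηD : η * D = u := by rw [hη]; field_simp
    have hηu : η ≤ u := by
      rw [hη]
      exact div_le_self hu0.le hD1
    obtain ⟨g, hg1, hg2, hg3⟩ := exists_strategy Q _ (eventually_uniform hf P Q y hη0)
    -- the block index of a position
    set bi : ℕ → ℕ := fun q => min (Finset.univ.filter (fun c => r c < bn q)).card (J - 1) with hbi
    have hbilt : ∀ q, bi q < J := fun q => lt_of_le_of_lt (min_le_right _ _) (by omega)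
    set bidx : ℕ → Fin J := fun q => ⟨bi q, hbilt q⟩ with hbidx
    have hbmono : Monotone bidx := by
      intro q q' hq
      rw [Fin.le_def]
      simp only [hbidx, hbi]
      apply min_le_min_right
      apply Finset.card_le_card
      intro c hc
      rw [Finset.mem_filter] at hc ⊢
      exact ⟨hc.1, lt_of_lt_of_le hc.2 (hbn hq)⟩
    have hbeq : ∀ c q, bn q = r c → bidx q = c := by
      intro c q hq
      apply Fin.ext
      simp only [hbidx, hbi]
      have h1 : (Finset.univ.filter (fun c' => r c' < bn q)) = Finset.Iio c := by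
        ext c'
        rw [Finset.mem_filter, Finset.mem_Iio, hq]
        simp [hr.lt_iff_lt]
      rw [h1, Fin.card_Iio]
      have := c.2
      omega
    set kk : (Fin J → ℕ) → (ℕ → ℕ) := fun κ => g (fun q => κ (bidx q)) with hkk
    set Y : (Fin J → ℕ) → Fin J → X := fun κ c => vec f P (y c) (kk κ) with hY
    have hYn : ∀ κ c, |‖Y κ c‖ - 1| ≤ η := by
      intro κ c
      have h1 := hg1 (fun q => κ (bidx q)) (Pi.single c 1)
      rw [comb_single, hy1] at h1
      have h2 : ∑ c', |(Pi.single c (1 : ℝ) : Fin J → ℝ) c'| = 1 := by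
        rw [Finset.sum_eq_single c]
        · simp
        · intro c' _ hc'
          rw [Pi.single_eq_of_ne hc', abs_zero]
        · intro h; exact absurd (Finset.mem_univ _) h
      rw [h2, mul_one] at h1
      exact h1
    have hYpos : ∀ κ c, 0 < ‖Y κ c‖ := by
      intro κ c
      have h1 := (abs_le.1 (hYn κ c)).1
      linarith
    refine ⟨fun κ c => ‖Y κ c‖⁻¹ • Y κ c, ⟨?_, ?_, ?_⟩, ?_⟩
    · intro κ κ' c hc
      have h1 : Y κ c = Y κ' c := by
        simp only [hY]
        unfold vec
        refine Finset.sum_congr rfl fun m _ => Finset.sum_congr rfl fun i _ => ?_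
        by_cases h0 : y c m i = 0
        · simp [h0]
        · congr 1
          apply hf.dep
          intro j hj
          apply hg3
          intro q' hq'
          apply hc
          have h2 : bidx (P m i) = c := hbeq c _ (hy c m i h0)
          rw [← h2]
          apply hbmono
          exact hq'.trans ((hP.mono m).monotone (by exact_mod_cast hj))
      rw [h1]
    · intro κ c
      rw [norm_smul, norm_inv, norm_norm, inv_mul_cancel₀ (hYpos κ c).ne']
    · intro κ c
      apply Submodule.smul_mem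
      simp only [hY]
      unfold vec
      refine Submodule.sum_mem _ fun m _ => Submodule.sum_mem _ fun i _ => ?_
      by_cases h0 : y c m i = 0
      · simp [h0]
      · apply Submodule.smul_mem
        have h1 := hg2 (fun q => κ (bidx q)) (P m i) (hP.lt m i i.2)
        rw [hbeq c _ (hy c m i h0)] at h1
        exact hPr.anti h1 (hf.mem (fun j : Fin n => kk κ (P m j)) i)
    · intro κ
      refine ⟨1 / ((1 - u) * (1 - 2 * u)), (1 + u) * (1 + 2 * u), ?_, ?_, ?_, ?_⟩
      · apply one_div_pos.2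
        apply mul_pos <;> linarith
      · positivity
      · rw [one_div_mul_eq_div, div_le_iff₀ (mul_pos (by linarith) (by linarith))]
        have h1 : 0 ≤ u * (1 - 9 * u + 6 * u ^ 2) := by
          apply mul_nonneg hu0.le
          nlinarith
        have h2 : 0 ≤ (1 - u) * (1 - 2 * u) := mul_nonneg (by linarith) (by linarith)
        nlinarith [mul_le_mul_of_nonneg_right hu2 h2]
      · intro a
        set a' : Fin J → ℝ := fun c => a c * ‖Y κ c‖⁻¹ with ha'
        have h1 : ∑ c, a c • (‖Y κ c‖⁻¹ • Y κ c) = vec f P (comb y a') (kk κ) := by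
          rw [vec_comb]
          refine Finset.sum_congr rfl fun c _ => ?_
          rw [smul_smul]
        have h2 := hg1 (fun q => κ (bidx q)) a'
        change |‖vec f P (comb y a') (kk κ)‖ - NN f P Q (comb y a')| ≤ η * ∑ c, |a' c| at h2
        rw [← h1] at h2
        have h3 : |NN f P Q (comb y a') - NN f P Q (comb y a)| ≤ NN f P Q (comb y (a' - a)) := by
          have h4 := NN_add_le hf P Q (comb y a) (comb y (a' - a))
          rw [← comb_add, add_sub_cancel] at h4
          have h5 := NN_sub_le hf P Q (comb y a') (comb y (a' - a))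
          rw [← comb_sub, sub_sub_cancel] at h5
          rw [abs_le]
          constructor <;> linarith
        have h4 : NN f P Q (comb y (a' - a)) ≤ ∑ c, |a' c - a c| := by
          unfold comb
          refine (NN_sum_le hf P Q _ _).trans (Finset.sum_le_sum fun c _ => ?_)
          rw [NN_smul hf, hy1, mul_one, Pi.sub_apply]
        have h5 : ∑ c, |a' c - a c| ≤ 2 * η * ∑ c, |a c| := by
          rw [Finset.mul_sum]
          refine Finset.sum_le_sum fun c _ => ?_
          have h6 := abs_le.1 (hYn κ c)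
          have h7 := hYpos κ c
          have h8 : a' c - a c = a c * ((1 - ‖Y κ c‖) * ‖Y κ c‖⁻¹) := by
            simp only [ha']
            field_simp
          rw [h8, abs_mul, mul_comm]
          apply mul_le_mul_of_nonneg_right _ (abs_nonneg _)
          rw [abs_mul, abs_inv, abs_norm, ← div_eq_mul_inv, div_le_iff₀ h7]
          rw [abs_le]
          constructor <;> nlinarith [h6.1, h6.2]
        have h6 : ∑ c, |a' c| ≤ D * NN f P Q (comb y a') := hDN a'
        have h7 := hDN a
        set Na := NN f P Q (comb y a) with hNa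
        set Na' := NN f P Q (comb y a') with hNa'
        have hNa0 : 0 ≤ Na := NN_nonneg hf P Q _
        have hNa0' : 0 ≤ Na' := NN_nonneg hf P Q _
        have h8 : |Na' - Na| ≤ 2 * u * Na := by
          refine (h3.trans (h4.trans h5)).trans ?_
          calc 2 * η * ∑ c, |a c| ≤ 2 * η * (D * Na) := mul_le_mul_of_nonneg_left h7 (by positivity)
            _ = 2 * u * Na := by rw [← hηD]; ring
        have h9 : |‖∑ c, a c • (‖Y κ c‖⁻¹ • Y κ c)‖ - Na'| ≤ u * Na' := by
          refine h2.trans ?_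
          calc η * ∑ c, |a' c| ≤ η * (D * Na') := mul_le_mul_of_nonneg_left h6 hη0.le
            _ = u * Na' := by rw [← hηD]; ring
        have h10 := abs_le.1 h8
        have h11 := abs_le.1 h9
        constructor
        · rw [one_div_mul_eq_div, le_div_iff₀ (mul_pos (by linarith) (by linarith))]
          have h12 : (1 - 2 * u) * Na ≤ Na' := by linarith [h10.1]
          have h13 : (1 - u) * Na' ≤ ‖∑ c, a c • (‖Y κ c‖⁻¹ • Y κ c)‖ := by linarith [h11.1]
          calc Na * ((1 - u) * (1 - 2 * u)) = (1 - u) * ((1 - 2 * u) * Na) := by ring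
            _ ≤ (1 - u) * Na' := mul_le_mul_of_nonneg_left h12 (by linarith)
            _ ≤ _ := h13
        · have h12 : Na' ≤ (1 + 2 * u) * Na := by linarith [h10.2]
          have h13 : ‖∑ c, a c • (‖Y κ c‖⁻¹ • Y κ c)‖ ≤ (1 + u) * Na' := by linarith [h11.2]
          calc _ ≤ (1 + u) * Na' := h13
            _ ≤ (1 + u) * ((1 + 2 * u) * Na) := mul_le_mul_of_nonneg_left h12 (by linarith)
            _ = _ := by ring

/-- Sorting a finite type along an injective map to the natural numbers. -/
theorem exists_sort {κ : Type*} [Fintype κ] (r : κ → ℕ) (hr : Function.Injective r) :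
    ∃ e : Fin (Fintype.card κ) ≃ κ, StrictMono (fun j => r (e j)) := by
  classical
  have hs : (Finset.univ.image r).card = Fintype.card κ := by
    rw [Finset.card_image_of_injective _ hr, Finset.card_univ]
  let o := (Finset.univ.image r).orderIsoOfFin hs
  let e' : κ ≃ (Finset.univ.image r : Finset ℕ) :=
    Equiv.ofBijective (fun c => ⟨r c, Finset.mem_image_of_mem r (Finset.mem_univ c)⟩) (by
      constructor
      · intro a b hab
        exact hr (by simpa using hab)
      · rintro ⟨q, hq⟩
        obtain ⟨c, _, hc⟩ := Finset.mem_image.1 hq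
        exact ⟨c, by simp [hc]⟩)
  refine ⟨o.toEquiv.trans e'.symm, ?_⟩
  have h1 : ∀ j, r ((o.toEquiv.trans e'.symm) j) = (o j : ℕ) := by
    intro j
    have h2 : e' ((o.toEquiv.trans e'.symm) j) = o j := by simp
    have h3 : r ((o.toEquiv.trans e'.symm) j) = (e' ((o.toEquiv.trans e'.symm) j)).val := rfl
    rw [h3, h2]
  intro i j hij
  dsimp only
  rw [h1, h1]
  exact o.strictMono hij

/-- Spans of block sequences of interleaved copies are isomorphic to `l1` spaces. -/
theorem iso_block {K : ℝ} (H : ∀ (J : ℕ) (N : (Fin J → ℝ) → ℝ), Asy T J N → Iso K N)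
    (hf : Strat T f) (hPr : Proj T C Pr) {P : ι → ℕ → ℕ} {Q : ℕ}
    (hP : Good P n Q) {κ : Type*} [Fintype κ] [Nonempty κ] (r : κ → ℕ)
    (hr : Function.Injective r) (bn : ℕ → ℕ)
    (hbn : Monotone bn) (β : κ → ι → Fin n → ℝ)
    (hβ : ∀ c m i, β c m i ≠ 0 → bn (P m i) = r c) (hβ0 : ∀ c, β c ≠ 0) :
    Iso K (fun t : κ → ℝ => NN f P Q (comb β t)) := by
  classical
  obtain ⟨e, he⟩ := exists_sort r hr
  have hν : ∀ c, 0 < NN f P Q (β c) := by
    intro c
    refine lt_of_le_of_ne (NN_nonneg hf P Q _) (fun h => hβ0 c ?_)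
    funext m i
    have := abs_le_NN hf hPr hP (β c) m i
    rw [← h, mul_zero] at this
    exact abs_eq_zero.1 (le_antisymm this (abs_nonneg _))
  set ν : κ → ℝ := fun c => NN f P Q (β c) with hνd
  have h1 : Asy T (Fintype.card κ) (fun t => NN f P Q
      (comb (fun j => (ν (e j))⁻¹ • β (e j)) t)) := by
    refine asy_block hf hPr hP (fun j => r (e j)) he bn hbn Fintype.card_pos _ ?_ ?_
    · intro c m i h
      apply hβ
      intro h'
      apply h
      simp [h']
    · intro c
      rw [NN_smul hf, abs_of_pos (inv_pos.2 (hν _))]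
      exact inv_mul_cancel₀ (hν _).ne'
  obtain ⟨T0, A, B, hA, hB, hAB, hT⟩ := H _ _ h1
  let S1 : (κ → ℝ) ≃ₗ[ℝ] (Fin (Fintype.card κ) → ℝ) :=
    { toFun := fun t j => t (e j) * ν (e j)
      invFun := fun s c => s (e.symm c) * (ν c)⁻¹
      map_add' := fun a b => by funext j; simp [add_mul]
      map_smul' := fun a b => by funext j; simp [mul_assoc]
      left_inv := fun t => by
        funext c
        simp only [Equiv.apply_symm_apply, mul_assoc]
        rw [mul_inv_cancel₀ (show ν c ≠ 0 from (hν c).ne'), mul_one]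
      right_inv := fun s => by
        funext j
        simp only [Equiv.symm_apply_apply, mul_assoc]
        rw [inv_mul_cancel₀ (show ν (e j) ≠ 0 from (hν (e j)).ne'), mul_one] }
  let S2 : (Fin (Fintype.card κ) → ℝ) ≃ₗ[ℝ] (κ → ℝ) :=
    LinearEquiv.funCongrLeft ℝ ℝ e.symm
  have hcomb : ∀ t : κ → ℝ, comb β t = comb (fun j => (ν (e j))⁻¹ • β (e j)) (S1 t) := by
    intro t
    unfold comb
    rw [← e.sum_comp]
    refine Finset.sum_congr rfl fun j _ => ?_
    change t (e j) • β (e j) = (t (e j) * ν (e j)) • (ν (e j))⁻¹ • β (e j)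
    rw [smul_smul, mul_assoc, mul_inv_cancel₀ (hν _).ne', mul_one]
  have hsum : ∀ t, ∑ c, |((S1.trans T0).trans S2) t c| = ∑ j, |T0 (S1 t) j| := by
    intro t
    rw [← e.symm.sum_comp]
    rfl
  refine ⟨(S1.trans T0).trans S2, A, B, hA, hB, hAB, fun t => ?_⟩
  dsimp only
  rw [hsum, hcomb]
  exact hT (S1 t)

end Pool.Agent.helper71.AL
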