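import Pool.Agent.helper71.AL.Rad

/-!
# Operators on finite dimensional l1 spaces: unconditional decompositions, and the little
Grothendieck inequality
-/

set_option autoImplicit false

open Finset

namespace Pool.Agent.helper71.AL

/-- An unconditional decomposition of a finite dimensional `l1` space is an `l1` decomposition. -/
theorem lemmaA {ι M : Type*} [Fintype ι] [Fintype M] [DecidableEq M] [DecidableEq ι]
    (P : M → (ι → ℝ) →ₗ[ℝ] (ι → ℝ)) (hP : ∀ m w, P m (P m w) = P m w) {C : ℝ}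
    (hC : ∀ (ε : M → Bool) (w : ι → ℝ), ∑ l, |∑ m, sg (ε m) * P m w l| ≤ C * ∑ l, |w l|)
    (w : ι → ℝ) : ∑ m, ∑ l, |P m w l| ≤ 4 * C ^ 2 * ∑ l, |w l| := by
  set p : M → ι → ι → ℝ := fun m l k => P m (Pi.single k 1) l with hp
  have hsing : ∀ k : ι, ∑ l, |(Pi.single k (1 : ℝ) : ι → ℝ) l| = 1 := by
    intro k
    rw [sum_eq_single k]
    · simp
    · intro l _ hl
      rw [Pi.single_eq_of_ne hl, abs_zero]
    · intro h; exact absurd (mem_univ _) h
  have h1 : ∀ k, ∑ l, √(∑ m, p m l k ^ 2) ≤ 2 * C := by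
    intro k
    have h2 : ∑ l, (2 : ℝ) ^ Fintype.card M * √(∑ m, p m l k ^ 2) ≤
        ∑ l, 2 * ∑ ε, |rad (fun m => p m l k) ε| := sum_le_sum fun l _ => khintchine _
    rw [← mul_sum, ← mul_sum, sum_comm] at h2
    have h3 : ∑ ε : M → Bool, ∑ l, |rad (fun m => p m l k) ε| ≤ ∑ ε : M → Bool, C := by
      refine sum_le_sum fun ε _ => ?_
      have := hC ε (Pi.single k 1)
      rw [hsing, mul_one] at this
      exact this
    rw [sum_const, card_univ, Fintype.card_fun, Fintype.card_bool, nsmul_eq_mul] at h3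
    push_cast at h3
    have h4 : (0 : ℝ) < 2 ^ Fintype.card M := by positivity
    have h5 : (2 : ℝ) ^ Fintype.card M * ∑ l, √(∑ m, p m l k ^ 2) ≤
        2 ^ Fintype.card M * (2 * C) := by linarith
    exact le_of_mul_le_mul_left h5 h4
  have h2 : ∀ j, √(∑ m, (∑ l, |p m l j|) ^ 2) ≤ 2 * C := by
    intro j
    refine le_trans ?_ (h1 j)
    have := norm_sum_le (univ : Finset ι) (fun l => (WithLp.toLp 2 (fun m => |p m l j|) :
      EuclideanSpace ℝ M))
    rw [EuclideanSpace.norm_eq] at this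
    simp only [EuclideanSpace.norm_eq, Real.norm_eq_abs, sq_abs] at this
    refine le_trans (le_of_eq ?_) this
    congr 1
    refine sum_congr rfl fun m _ => ?_
    congr 1
    simp
  have hy : ∀ k, ∑ m, ∑ l, |p m l k| ≤ 4 * C ^ 2 := by
    intro k
    set σ : M → ι → ℝ := fun m l => (SignType.sign (p m l k) : ℝ) with hσ
    set y : M → ι → ℝ := fun m j => ∑ l, σ m l * p m l j with hyd
    have hσ1 : ∀ m l, |σ m l| ≤ 1 := by
      intro m l
      rw [hσ]
      rcases lt_trichotomy (p m l k) 0 with h | h | h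
      · simp [sign_neg h]
      · simp [h]
      · simp [sign_pos h]
    have h3 : ∀ m l, p m l k = ∑ j, p m j k * p m l j := by
      intro m l
      have h4 : P m (Pi.single k 1) = ∑ j, p m j k • P m (Pi.single j 1) := by
        conv_lhs => rw [← hP m (Pi.single k 1)]
        have h5 : P m (Pi.single k 1) = ∑ j, p m j k • (Pi.single j (1 : ℝ) : ι → ℝ) := by
          ext l'
          simp [hp, Finset.sum_apply, Pi.single_apply]
        conv_lhs => rw [h5]
        rw [map_sum]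
        exact sum_congr rfl fun j _ => by rw [map_smul]
      have h5 := congrFun h4 l
      rw [Finset.sum_apply] at h5
      simpa [hp] using h5
    have h4 : ∀ m, ∑ l, |p m l k| = ∑ j, p m j k * y m j := by
      intro m
      have h5 : ∀ l, |p m l k| = ∑ j, p m j k * (σ m l * p m l j) := by
        intro l
        have h6 : |p m l k| = σ m l * p m l k := by
          rw [hσ]
          exact (sign_mul_self (p m l k)).symm
        rw [h6]
        conv_lhs => rw [h3 m l]
        rw [mul_sum]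
        exact sum_congr rfl fun j _ => by ring
      simp only [h5]
      rw [sum_comm]
      exact sum_congr rfl fun j _ => by rw [hyd, mul_sum]
    simp only [h4]
    rw [sum_comm]
    have h5 : ∀ j, ∑ m, p m j k * y m j ≤ √(∑ m, p m j k ^ 2) * (2 * C) := by
      intro j
      refine (Real.sum_mul_le_sqrt_mul_sqrt _ _ _).trans ?_
      apply mul_le_mul_of_nonneg_left _ (Real.sqrt_nonneg _)
      refine le_trans (Real.sqrt_le_sqrt (sum_le_sum fun m _ => ?_)) (h2 j)
      have h6 : |y m j| ≤ ∑ l, |p m l j| := by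
        rw [hyd]
        refine (abs_sum_le_sum_abs _ _).trans (sum_le_sum fun l _ => ?_)
        rw [abs_mul]
        exact mul_le_of_le_one_left (abs_nonneg _) (hσ1 m l)
      rw [← sq_abs]
      exact pow_le_pow_left₀ (abs_nonneg _) h6 2
    refine (sum_le_sum fun j _ => h5 j).trans ?_
    rw [← sum_mul]
    have h6 := h1 k
    have h7 : 0 ≤ ∑ j, √(∑ m, p m j k ^ 2) := sum_nonneg fun _ _ => Real.sqrt_nonneg _
    nlinarith
  have hexp : ∀ m l, P m w l = ∑ k, w k * p m l k := by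
    intro m l
    have h5 : w = ∑ k, w k • (Pi.single k (1 : ℝ) : ι → ℝ) := by
      ext l'
      simp [Finset.sum_apply, Pi.single_apply]
    conv_lhs => rw [h5, map_sum]
    simp [hp, Finset.sum_apply]
  calc ∑ m, ∑ l, |P m w l| ≤ ∑ m, ∑ l, ∑ k, |w k| * |p m l k| := by
        refine sum_le_sum fun m _ => sum_le_sum fun l _ => ?_
        rw [hexp]
        refine (abs_sum_le_sum_abs _ _).trans (le_of_eq ?_)
        exact sum_congr rfl fun k _ => abs_mul _ _
    _ = ∑ k, |w k| * ∑ m, ∑ l, |p m l k| := by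
        simp only [mul_sum]
        have h6 : ∀ m, ∑ l, ∑ k, |w k| * |p m l k| = ∑ k, ∑ l, |w k| * |p m l k| :=
          fun m => sum_comm
        simp only [h6]
        exact sum_comm
    _ ≤ ∑ k, |w k| * (4 * C ^ 2) := sum_le_sum fun k _ =>
        mul_le_mul_of_nonneg_left (hy k) (abs_nonneg _)
    _ = 4 * C ^ 2 * ∑ l, |w l| := by rw [← sum_mul]; ring

/-- The set of values of the quadratic form in the little Grothendieck inequality. -/
def GSet {ι κ' : Type*} [Fintype ι] [Fintype κ'] (A : ι → κ' → ℝ) : Set ℝ :=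
  {r | ∃ (κ : Type) (_ : Fintype κ) (v : ι → κ → ℝ), (∀ k, ∑ j, v k j ^ 2 ≤ 1) ∧
    r = ∑ j, ∑ q, (∑ k, v k j * A k q) ^ 2}

theorem gset_bdd {ι κ' : Type*} [Fintype ι] [Fintype κ'] (A : ι → κ' → ℝ) :
    ∀ r ∈ GSet A, r ≤ Fintype.card ι * ∑ q, ∑ k, A k q ^ 2 := by
  rintro r ⟨κ, _, v, hv, rfl⟩
  calc ∑ j, ∑ q, (∑ k, v k j * A k q) ^ 2
      ≤ ∑ j, ∑ q, (∑ k, v k j ^ 2) * ∑ k, A k q ^ 2 :=
        sum_le_sum fun j _ => sum_le_sum fun q _ => sum_mul_sq_le_sq_mul_sq _ _ _
    _ = (∑ k, ∑ j, v k j ^ 2) * ∑ q, ∑ k, A k q ^ 2 := by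
        rw [sum_comm (s := univ) (t := univ) (f := fun k j => v k j ^ 2), sum_mul]
        exact sum_congr rfl fun j _ => by rw [mul_sum]
    _ ≤ Fintype.card ι * ∑ q, ∑ k, A k q ^ 2 := by
        apply mul_le_mul_of_nonneg_right _ (sum_nonneg fun _ _ => sum_nonneg fun _ _ => sq_nonneg _)
        refine (sum_le_sum fun k _ => hv k).trans ?_
        simp

theorem gset_step {ι κ' : Type*} [Fintype ι] [Fintype κ'] (A : ι → κ' → ℝ) {ρ : ℝ}
    (hA : ∀ c : ι → ℝ, (∀ k, |c k| ≤ 1) → ∑ q, (∑ k, c k * A k q) ^ 2 ≤ ρ ^ 2) :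
    ∀ r ∈ GSet A, r ≤ 24 * ρ ^ 2 + sSup (GSet A) / 2 := by
  classical
  rintro r ⟨κ, hκ, v, hv, rfl⟩
  set N : ℝ := 2 ^ Fintype.card κ with hN
  have hN0 : 0 < N := by positivity
  set Y : ι → (κ → Bool) → ℝ := fun k g => if rad (v k) g ^ 2 ≤ 12 then rad (v k) g else 0 with hY
  set Z : ι → (κ → Bool) → ℝ := fun k g => if rad (v k) g ^ 2 ≤ 12 then 0 else rad (v k) g with hZ
  have hYZ : ∀ k g, rad (v k) g = Y k g + Z k g := by
    intro k g
    simp only [hY, hZ]
    split_ifs <;> simp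
  have h1 : N * ∑ j, ∑ q, (∑ k, v k j * A k q) ^ 2 =
      ∑ g : κ → Bool, ∑ q, (∑ k, rad (v k) g * A k q) ^ 2 := by
    rw [sum_comm, mul_sum, sum_comm (s := univ (α := κ → Bool))]
    refine sum_congr rfl fun q _ => ?_
    rw [hN, ← rad_second]
    refine sum_congr rfl fun g _ => ?_
    congr 1
    unfold rad
    simp only [mul_sum, sum_mul]
    rw [sum_comm]
    exact sum_congr rfl fun k _ => sum_congr rfl fun j _ => by ring
  have h2 : ∀ g, ∑ q, (∑ k, Y k g * A k q) ^ 2 ≤ 12 * ρ ^ 2 := by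
    intro g
    have h3 := hA (fun k => Y k g / √12) (fun k => by
      rw [abs_div, div_le_one (by positivity), abs_of_nonneg (Real.sqrt_nonneg 12)]
      apply Real.le_sqrt_of_sq_le
      rw [sq_abs]
      simp only [hY]
      split_ifs with h
      · exact h
      · norm_num)
    have h4 : ∑ q, (∑ k, Y k g / √12 * A k q) ^ 2 = (∑ q, (∑ k, Y k g * A k q) ^ 2) / 12 := by
      rw [sum_div]
      refine sum_congr rfl fun q _ => ?_
      have h5 : ∑ k, Y k g / √12 * A k q = (∑ k, Y k g * A k q) / √12 := by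
        rw [sum_div]
        exact sum_congr rfl fun k _ => by ring
      rw [h5, div_pow, Real.sq_sqrt (by norm_num)]
    rw [h4] at h3
    linarith
  have h3 : ∑ g : κ → Bool, ∑ q, (∑ k, Z k g * A k q) ^ 2 ≤ N / 4 * sSup (GSet A) := by
    have h4 : ∑ g : κ → Bool, ∑ q, (∑ k, (2 / √N * Z k g) * A k q) ^ 2 ∈ GSet A := by
      refine ⟨κ → Bool, inferInstance, fun k g => 2 / √N * Z k g, fun k => ?_, rfl⟩
      have h5 : ∀ g, (2 / √N * Z k g) ^ 2 ≤ 4 / N * (rad (v k) g ^ 4 / 12) := by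
        intro g
        rw [mul_pow, div_pow, Real.sq_sqrt hN0.le]
        have h6 : Z k g ^ 2 ≤ rad (v k) g ^ 4 / 12 := by
          simp only [hZ]
          split_ifs with h
          · have : 0 ≤ rad (v k) g ^ 4 := by positivity
            simpa using by linarith
          · push Not at h
            nlinarith [sq_nonneg (rad (v k) g)]
        have h7 : (2 : ℝ) ^ 2 / N = 4 / N := by norm_num
        rw [h7]
        exact mul_le_mul_of_nonneg_left h6 (by positivity)
      refine (sum_le_sum fun g _ => h5 g).trans ?_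
      rw [← mul_sum, ← sum_div]
      have h6 := rad_fourth (v k)
      have h7 : (∑ j, v k j ^ 2) ^ 2 ≤ 1 := by
        have := hv k
        have h8 : 0 ≤ ∑ j, v k j ^ 2 := sum_nonneg fun _ _ => sq_nonneg _
        nlinarith
      have h8 : ∑ g, rad (v k) g ^ 4 ≤ 3 * N := by
        refine h6.trans ?_
        rw [← hN]
        nlinarith
      rw [div_mul_div_comm, div_le_one (by positivity)]
      linarith
    have h5 := le_csSup ⟨_, fun r hr => gset_bdd A r hr⟩ h4
    have h6 : ∑ g : κ → Bool, ∑ q, (∑ k, (2 / √N * Z k g) * A k q) ^ 2 =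
        4 / N * ∑ g : κ → Bool, ∑ q, (∑ k, Z k g * A k q) ^ 2 := by
      rw [mul_sum]
      refine sum_congr rfl fun g _ => ?_
      rw [mul_sum]
      refine sum_congr rfl fun q _ => ?_
      have h7 : ∑ k, 2 / √N * Z k g * A k q = 2 / √N * ∑ k, Z k g * A k q := by
        rw [mul_sum]
        exact sum_congr rfl fun k _ => by ring
      rw [h7, mul_pow, div_pow, Real.sq_sqrt hN0.le]
      norm_num
    rw [h6] at h5
    have h7 : N / 4 * (4 / N * ∑ g : κ → Bool, ∑ q, (∑ k, Z k g * A k q) ^ 2) =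
        ∑ g : κ → Bool, ∑ q, (∑ k, Z k g * A k q) ^ 2 := by
      field_simp
    rw [← h7]
    exact mul_le_mul_of_nonneg_left h5 (by positivity)
  have h4 : ∑ g : κ → Bool, ∑ q, (∑ k, rad (v k) g * A k q) ^ 2 ≤
      2 * ∑ g : κ → Bool, ∑ q, (∑ k, Y k g * A k q) ^ 2 +
        2 * ∑ g : κ → Bool, ∑ q, (∑ k, Z k g * A k q) ^ 2 := by
    rw [mul_sum, mul_sum, ← sum_add_distrib]
    refine sum_le_sum fun g _ => ?_
    rw [mul_sum, mul_sum, ← sum_add_distrib]
    refine sum_le_sum fun q _ => ?_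
    have h5 : ∑ k, rad (v k) g * A k q = ∑ k, Y k g * A k q + ∑ k, Z k g * A k q := by
      rw [← sum_add_distrib]
      exact sum_congr rfl fun k _ => by rw [hYZ]; ring
    rw [h5]
    nlinarith [sq_nonneg (∑ k, Y k g * A k q - ∑ k, Z k g * A k q)]
  have h5 : ∑ g : κ → Bool, ∑ q, (∑ k, Y k g * A k q) ^ 2 ≤ N * (12 * ρ ^ 2) := by
    refine (sum_le_sum fun g _ => h2 g).trans ?_
    rw [sum_const, card_univ, Fintype.card_fun, Fintype.card_bool, nsmul_eq_mul]
    push_cast
    rfl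
  have h6 : N * ∑ j, ∑ q, (∑ k, v k j * A k q) ^ 2 ≤ N * (24 * ρ ^ 2 + sSup (GSet A) / 2) := by
    rw [h1]
    nlinarith
  exact le_of_mul_le_mul_left h6 hN0

/-- The little Grothendieck inequality. -/
theorem lemmaG {ι κ : Type*} {σ : Type} [Fintype ι] [Fintype κ] [Fintype σ] (A : ι → κ → ℝ)
    (B : ι → σ → ℝ) {ρ β : ℝ}
    (hA : ∀ c : ι → ℝ, (∀ k, |c k| ≤ 1) → ∑ q, (∑ k, c k * A k q) ^ 2 ≤ ρ ^ 2)
    (hB : ∀ k, ∑ x, B k x ^ 2 ≤ β ^ 2) :
    ∑ x, ∑ q, (∑ k, B k x * A k q) ^ 2 ≤ 48 * β ^ 2 * ρ ^ 2 := by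
  have hne : (GSet A).Nonempty := by
    refine ⟨0, Empty, inferInstance, fun _ x => x.elim, fun k => ?_, ?_⟩ <;> simp
  have h1 : sSup (GSet A) ≤ 24 * ρ ^ 2 + sSup (GSet A) / 2 :=
    csSup_le hne (gset_step A hA)
  have h2 : sSup (GSet A) ≤ 48 * ρ ^ 2 := by linarith
  by_cases hβ : β = 0
  · have h3 : ∀ k x, B k x = 0 := by
      intro k x
      have h4 := hB k
      rw [hβ] at h4
      have h5 : B k x ^ 2 ≤ ∑ x, B k x ^ 2 :=
        single_le_sum (f := fun x => B k x ^ 2) (fun _ _ => sq_nonneg _) (mem_univ x)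
      have h6 : B k x ^ 2 ≤ 0 := by
        simpa using h5.trans h4
      exact pow_eq_zero_iff (n := 2) (by norm_num) |>.1 (le_antisymm h6 (sq_nonneg _))
    simp [h3, hβ]
  · have hβ2 : 0 < β ^ 2 := by positivity
    have h3 : ∑ x, ∑ q, (∑ k, (B k x / β) * A k q) ^ 2 ∈ GSet A := by
      refine ⟨σ, inferInstance, fun k x => B k x / β, fun k => ?_, rfl⟩
      simp only [div_pow]
      rw [← sum_div, div_le_one hβ2]
      exact hB k
    have h4 := le_csSup ⟨_, fun r hr => gset_bdd A r hr⟩ h3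
    have h5 : ∑ x, ∑ q, (∑ k, (B k x / β) * A k q) ^ 2 =
        (∑ x, ∑ q, (∑ k, B k x * A k q) ^ 2) / β ^ 2 := by
      rw [sum_div]
      refine sum_congr rfl fun x _ => ?_
      rw [sum_div]
      refine sum_congr rfl fun q _ => ?_
      have h7 : ∑ k, B k x / β * A k q = (∑ k, B k x * A k q) / β := by
        rw [sum_div]
        exact sum_congr rfl fun k _ => by ring
      rw [h7, div_pow]
    rw [h5, div_le_iff₀ hβ2] at h4
    nlinarith

end Pool.Agent.helper71.AL
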