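import Pool.Agent.helper71.AL.Config
import Pool.Agent.helper71.AL.Ops

/-!
# Differences of adjacent copies
-/

set_option autoImplicit false

open Filter Topology

namespace Pool.Agent.helper71.AL

variable {X : Type*} [NormedAddCommGroup X] [NormedSpace ℝ X]
variable {n : ℕ} {M : Type*}

/-- Even positions, increasing in time and not shared. -/
structure GoodD (P : M → ℕ → ℕ) (n Q : ℕ) : Prop where
  mono : ∀ m, StrictMono (P m)
  even : ∀ m j, P m j % 2 = 0
  inj : ∀ m m' i i', P m i = P m' i' → m = m' ∧ i = i'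
  lt : ∀ m, ∀ i < n, P m i + 1 < Q

/-- Two adjacent copies for each member of `M`. -/
def PP (P : M → ℕ → ℕ) : M × Bool → ℕ → ℕ := fun mb j => P mb.1 j + (if mb.2 then 1 else 0)

/-- The coefficients of the differences. -/
def GG (g : M → Fin n → ℝ) : M × Bool → Fin n → ℝ :=
  fun mb i => if mb.2 then g mb.1 i else -g mb.1 i

theorem GoodD.good {P : M → ℕ → ℕ} {Q : ℕ} (h : GoodD P n Q) : Good (PP P) n Q where
  mono := by
    rintro ⟨m, b⟩ i j hij
    simp only [PP]
    exact Nat.add_lt_add_right (h.mono m hij) _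
  inj := by
    rintro ⟨m, b⟩ ⟨m', b'⟩ i i' hi
    simp only [PP] at hi
    have h1 := h.even m i
    have h2 := h.even m' i'
    cases b <;> cases b' <;> simp only [if_true, Bool.false_eq_true, if_false] at hi
    · obtain ⟨rfl, rfl⟩ := h.inj m m' i i' (by omega)
      exact ⟨rfl, rfl⟩
    · omega
    · omega
    · obtain ⟨rfl, rfl⟩ := h.inj m m' i i' (by omega)
      exact ⟨rfl, rfl⟩
  lt := by
    rintro ⟨m, b⟩ i hi
    have := h.lt m i hi
    simp only [PP]
    split_ifs <;> omega

theorem GG_add (g h : M → Fin n → ℝ) : GG (g + h) = GG g + GG h := by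
  funext mb i
  simp only [GG, Pi.add_apply]
  split_ifs <;> ring

theorem GG_smul (r : ℝ) (g : M → Fin n → ℝ) : GG (r • g) = r • GG g := by
  funext mb i
  simp only [GG, Pi.smul_apply, smul_eq_mul]
  split_ifs <;> ring

theorem GG_zero : GG (0 : M → Fin n → ℝ) = 0 := by
  funext mb i
  simp [GG]

theorem GG_sum {κ : Type*} (s : Finset κ) (g : κ → M → Fin n → ℝ) :
    GG (∑ x ∈ s, g x) = ∑ x ∈ s, GG (g x) := by
  classical
  induction s using Finset.induction_on with
  | empty => simp [GG_zero]
  | insert x s hx ih => rw [Finset.sum_insert hx, Finset.sum_insert hx, GG_add, ih]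

variable [Fintype M]

theorem vec_GG (f : (Fin n → ℕ) → Fin n → X) (P : M → ℕ → ℕ) (g : M → Fin n → ℝ)
    (k : ℕ → ℕ) : vec f (PP P) (GG g) k =
      ∑ m, ∑ i, g m i • (f (fun j => k (P m j + 1)) i - f (fun j => k (P m j)) i) := by
  unfold vec
  rw [Fintype.sum_prod_type]
  refine Finset.sum_congr rfl fun m _ => ?_
  rw [Fintype.sum_bool, ← Finset.sum_add_distrib]
  refine Finset.sum_congr rfl fun i _ => ?_
  simp only [GG, PP, if_true, Bool.false_eq_true, if_false, add_zero, neg_smul]
  rw [smul_sub, sub_eq_add_neg]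

/-- The limit norm of combinations of differences. -/
noncomputable def DD (f : (Fin n → ℕ) → Fin n → X) (P : M → ℕ → ℕ) (Q : ℕ)
    (g : M → Fin n → ℝ) : ℝ := NN f (PP P) Q (GG g)

variable {T : ℕ → Submodule ℝ X} {f : (Fin n → ℕ) → Fin n → X} {C : ℝ} {Pr : ℕ → X →L[ℝ] X}

theorem DD_nonneg (hf : Strat T f) (P : M → ℕ → ℕ) (Q : ℕ) (g : M → Fin n → ℝ) :
    0 ≤ DD f P Q g := NN_nonneg hf _ _ _

theorem DD_add_le (hf : Strat T f) (P : M → ℕ → ℕ) (Q : ℕ) (g h : M → Fin n → ℝ) :
    DD f P Q (g + h) ≤ DD f P Q g + DD f P Q h := by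
  unfold DD
  rw [GG_add]
  exact NN_add_le hf _ _ _ _

theorem DD_smul (hf : Strat T f) (P : M → ℕ → ℕ) (Q : ℕ) (r : ℝ) (g : M → Fin n → ℝ) :
    DD f P Q (r • g) = |r| * DD f P Q g := by
  unfold DD
  rw [GG_smul]
  exact NN_smul hf _ _ _ _

theorem DD_sub_le (hf : Strat T f) (P : M → ℕ → ℕ) (Q : ℕ) (g h : M → Fin n → ℝ) :
    DD f P Q (g - h) ≤ DD f P Q g + DD f P Q h := by
  have h1 := DD_smul hf P Q (-1) h
  have h2 := DD_add_le hf P Q g ((-1 : ℝ) • h)
  rw [h1] at h2
  have h3 : g + (-1 : ℝ) • h = g - h := by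
    rw [neg_one_smul, sub_eq_add_neg]
  rw [h3] at h2
  simpa using h2

theorem DD_sum_le (hf : Strat T f) (P : M → ℕ → ℕ) (Q : ℕ) {κ : Type*} (s : Finset κ)
    (g : κ → M → Fin n → ℝ) : DD f P Q (∑ x ∈ s, g x) ≤ ∑ x ∈ s, DD f P Q (g x) := by
  unfold DD
  rw [GG_sum]
  exact NN_sum_le hf _ _ _ _

theorem abs_le_DD (hf : Strat T f) (hPr : Proj T C Pr) {P : M → ℕ → ℕ} {Q : ℕ}
    (hP : GoodD P n Q) (g : M → Fin n → ℝ) (m : M) (i : Fin n) :
    |g m i| ≤ 2 * C * DD f P Q g := by
  have h : GG g (m, true) i = g m i := by simp [GG]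
  rw [← h]
  exact abs_le_NN hf hPr hP.good (GG g) (m, true) i

/-- The dilation of positions used in the telescoping argument. -/
noncomputable def dil (p : ℕ → ℕ) (R s : ℕ) (q : ℕ) : ℕ := by
  classical
  exact if q ∈ Set.range p then (R + 1) * q + s else
    if ∃ j, q = p j + 1 then (R + 1) * (q - 1) + s + 1 else (R + 1) * q

theorem dil_strictMono {p : ℕ → ℕ} {R s : ℕ} (hs : s < R) :
    StrictMono (dil p R s) := by
  classical
  refine strictMono_nat_of_lt_succ fun q => ?_
  have hup : dil p R s q ≤ (R + 1) * q + s := by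
    unfold dil
    split_ifs with h1 h2
    · exact le_rfl
    · obtain ⟨j, rfl⟩ := h2
      rw [Nat.add_sub_cancel]
      nlinarith
    · omega
  by_cases h3 : (q + 1) ∉ Set.range p ∧ ∃ j, q + 1 = p j + 1
  · obtain ⟨h4, j, hj⟩ := h3
    have h5 : q = p j := by omega
    have h6 : dil p R s (q + 1) = (R + 1) * q + s + 1 := by
      unfold dil
      rw [if_neg h4, if_pos ⟨j, hj⟩, Nat.add_sub_cancel]
    rw [h6]
    omega
  · have h6 : (R + 1) * (q + 1) ≤ dil p R s (q + 1) := by
      unfold dil
      by_cases h4 : (q + 1) ∈ Set.range p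
      · rw [if_pos h4]; omega
      · rw [if_neg h4, if_neg (fun h => h3 ⟨h4, h⟩)]
    have h7 : (R + 1) * (q + 1) = (R + 1) * q + R + 1 := by ring
    omega

theorem dil_apply_self {p : ℕ → ℕ} (R s j : ℕ) : dil p R s (p j) = (R + 1) * p j + s := by
  classical
  unfold dil
  rw [if_pos ⟨j, rfl⟩]

theorem dil_apply_succ {p : ℕ → ℕ} (hp : ∀ j, p j % 2 = 0) (R s j : ℕ) :
    dil p R s (p j + 1) = (R + 1) * p j + s + 1 := by
  classical
  unfold dil
  rw [if_neg, if_pos ⟨j, rfl⟩, Nat.add_sub_cancel]
  rintro ⟨i, hi⟩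
  have := hp i
  have := hp j
  omega

theorem dil_apply_other {p : ℕ → ℕ} (R s : ℕ) {q : ℕ} (h1 : ∀ j, q ≠ p j)
    (h2 : ∀ j, q ≠ p j + 1) : dil p R s q = (R + 1) * q := by
  classical
  unfold dil
  rw [if_neg, if_neg]
  · rintro ⟨j, hj⟩; exact h2 j hj
  · rintro ⟨j, hj⟩; exact h1 j hj.symm

/-- Omitting one difference chain does not increase the norm. -/
theorem DD_update_le [DecidableEq M] (hf : Strat T f) {P : M → ℕ → ℕ} {Q : ℕ}
    (hP : GoodD P n Q) (g : M → Fin n → ℝ) (m0 : M) :
    DD f P Q (Function.update g m0 0) ≤ DD f P Q g := by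
  set G : ℝ := ∑ i, |g m0 i| with hG
  have hG0 : 0 ≤ G := Finset.sum_nonneg fun _ _ => abs_nonneg _
  have key : ∀ R : ℕ, 0 < R → R * DD f P Q (Function.update g m0 0) ≤
      R * DD f P Q g + 2 * G := by
    intro R hR
    set O : (ℕ → ℕ) → X := fun k => ∑ m, ∑ i, (Function.update g m0 0) m i •
      (f (fun j => k ((R + 1) * (P m j + 1))) i - f (fun j => k ((R + 1) * P m j)) i) with hO
    set w : ℕ → (ℕ → ℕ) → X := fun s k =>
      ∑ i, g m0 i • f (fun j => k ((R + 1) * P m0 j + s)) i with hw
    have hoth : ∀ s m j, m ≠ m0 → dil (P m0) R s (P m j) = (R + 1) * P m j ∧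
        dil (P m0) R s (P m j + 1) = (R + 1) * (P m j + 1) := by
      intro s m j hm
      constructor
      · apply dil_apply_other
        · intro j' h; exact hm (hP.inj _ _ _ _ h).1
        · intro j' h
          have h1 := hP.even m j
          have h2 := hP.even m0 j'
          omega
      · apply dil_apply_other
        · intro j' h
          have h1 := hP.even m j
          have h2 := hP.even m0 j'
          omega
        · intro j' h; exact hm (hP.inj m m0 j j' (by omega)).1
    have h1 : ∀ s k, vec f (PP P) (GG g) (fun q => k (dil (P m0) R s q)) =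
        O k + (w (s + 1) k - w s k) := by
      intro s k
      rw [vec_GG, hO, hw]
      have h2 : ∀ m, ∑ i, g m i • (f (fun j => k (dil (P m0) R s (P m j + 1))) i -
          f (fun j => k (dil (P m0) R s (P m j))) i) =
          ∑ i, (Function.update g m0 0) m i •
            (f (fun j => k ((R + 1) * (P m j + 1))) i - f (fun j => k ((R + 1) * P m j)) i) +
          (if m = m0 then ∑ i, g m0 i • f (fun j => k ((R + 1) * P m0 j + (s + 1))) i -
            ∑ i, g m0 i • f (fun j => k ((R + 1) * P m0 j + s)) i else 0) := by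
        intro m
        by_cases hm : m = m0
        · subst hm
          simp only [dil_apply_self, dil_apply_succ (hP.even m), Function.update_self,
            Pi.zero_apply, zero_smul, Finset.sum_const_zero, zero_add, sub_zero, if_true, smul_sub,
            Finset.sum_sub_distrib, add_assoc]
        · simp only [hoth s m _ hm, Function.update_of_ne hm, if_neg hm, add_zero]
      simp only [h2]
      rw [Finset.sum_add_distrib, Finset.sum_ite_eq' Finset.univ m0]
      simp
    have h1' : ∀ s k, vec f (PP P) (GG (Function.update g m0 0))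
        (fun q => k (dil (P m0) R s q)) = O k := by
      intro s k
      rw [vec_GG, hO]
      refine Finset.sum_congr rfl fun m _ => ?_
      by_cases hm : m = m0
      · subst hm
        simp
      · simp only [hoth s m _ hm]
    have hQ : ∀ s < R, ∀ q < Q, dil (P m0) R s q < (R + 1) * (Q + 1) := by
      intro s hs q hq
      have h3 : dil (P m0) R s q ≤ dil (P m0) R s Q :=
        (dil_strictMono hs).monotone hq.le
      have hup : dil (P m0) R s Q ≤ (R + 1) * Q + s := by
        unfold dil
        split_ifs with h1 h2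
        · exact le_rfl
        · obtain ⟨j, hj⟩ := h2
          rw [hj, Nat.add_sub_cancel]
          nlinarith
        · omega
      have h7 : (R + 1) * (Q + 1) = (R + 1) * Q + R + 1 := by ring
      omega
    have h2 : ∀ s < R, Tendsto (fun k => ‖O k + (w (s + 1) k - w s k)‖)
        (V ((R + 1) * (Q + 1)) : Filter (ℕ → ℕ)) (𝓝 (DD f P Q g)) := by
      intro s hs
      have h3 := NN_reindex hf (hP.good.lt) (dil_strictMono hs) (hQ s hs) (GG g)
      unfold DD
      rw [← h3]
      refine (tendsto_NN hf _ _ _).congr (fun k => ?_)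
      rw [← h1 s k]
      rfl
    have h2' : Tendsto (fun k => ‖O k‖)
        (V ((R + 1) * (Q + 1)) : Filter (ℕ → ℕ)) (𝓝 (DD f P Q (Function.update g m0 0))) := by
      have h3 := NN_reindex hf (hP.good.lt) (dil_strictMono hR) (hQ 0 hR)
        (GG (Function.update g m0 0))
      unfold DD
      rw [← h3]
      refine (tendsto_NN hf _ _ _).congr (fun k => ?_)
      rw [← h1' 0 k]
      rfl
    have hw1 : ∀ s k, ‖w s k‖ ≤ G := by
      intro s k
      refine (norm_sum_le _ _).trans (Finset.sum_le_sum fun i _ => ?_)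
      rw [norm_smul, hf.norm_eq, mul_one, Real.norm_eq_abs]
    have h3 : Tendsto (fun k => ∑ s ∈ Finset.range R, ‖O k + (w (s + 1) k - w s k)‖ + 2 * G)
        (V ((R + 1) * (Q + 1)) : Filter (ℕ → ℕ)) (𝓝 (∑ s ∈ Finset.range R, DD f P Q g + 2 * G)) :=
      (tendsto_finsetSum _ fun s hs => h2 s (Finset.mem_range.1 hs)).add_const _
    rw [Finset.sum_const, Finset.card_range, nsmul_eq_mul] at h3
    refine le_of_tendsto_of_tendsto' (h2'.const_mul (R : ℝ)) h3 (fun k => ?_)
    have h4 : (R : ℝ) • O k = ∑ s ∈ Finset.range R, (O k + (w (s + 1) k - w s k)) -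
        (w R k - w 0 k) := by
      rw [Finset.sum_add_distrib, Finset.sum_range_sub (fun s => w s k), Finset.sum_const,
        Finset.card_range, add_sub_cancel_right]
      exact Nat.cast_smul_eq_nsmul ℝ R (O k)
    have h5 : (R : ℝ) * ‖O k‖ = ‖(R : ℝ) • O k‖ := by
      rw [norm_smul]; simp
    rw [h5, h4]
    refine (norm_sub_le _ _).trans ?_
    have h6 := norm_sum_le (Finset.range R) (fun s => O k + (w (s + 1) k - w s k))
    have h7 := norm_sub_le (w R k) (w 0 k)
    have h8 := hw1 R k
    have h9 := hw1 0 k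
    linarith
  by_contra hcon
  push Not at hcon
  obtain ⟨R, hR⟩ := exists_nat_gt (2 * G / (DD f P Q (Function.update g m0 0) - DD f P Q g))
  have h1 : 0 < DD f P Q (Function.update g m0 0) - DD f P Q g := by linarith
  rw [div_lt_iff₀ h1] at hR
  have hR0 : 0 < R := by
    rcases Nat.eq_zero_or_pos R with h | h
    · subst h
      simp only [Nat.cast_zero, zero_mul] at hR
      linarith
    · exact h
  have := key R hR0
  nlinarith

theorem DD_restrict_le [DecidableEq M] (hf : Strat T f) {P : M → ℕ → ℕ} {Q : ℕ}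
    (hP : GoodD P n Q) (g : M → Fin n → ℝ) (B : Finset M) :
    DD f P Q (fun m => if m ∈ B then 0 else g m) ≤ DD f P Q g := by
  induction B using Finset.induction_on with
  | empty => simp
  | insert m0 B _ ih =>
    refine le_trans (le_of_eq ?_) ((DD_update_le hf hP _ m0).trans ih)
    congr 1
    funext m
    by_cases hm : m = m0
    · subst hm
      simp
    · simp [hm]

theorem DD_sign_le [DecidableEq M] (hf : Strat T f) {P : M → ℕ → ℕ} {Q : ℕ}
    (hP : GoodD P n Q) (g : M → Fin n → ℝ) (ε : M → Bool) :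
    DD f P Q (fun m i => sg (ε m) * g m i) ≤ 2 * DD f P Q g := by
  have h1 := DD_restrict_le hf hP g (Finset.univ.filter fun m => ε m = false)
  have h2 := DD_restrict_le hf hP g (Finset.univ.filter fun m => ε m = true)
  have h3 := DD_sub_le hf P Q (fun m => if m ∈ Finset.univ.filter (fun m => ε m = false) then 0 else g m)
    (fun m => if m ∈ Finset.univ.filter (fun m => ε m = true) then 0 else g m)
  have h4 : (fun m => if m ∈ Finset.univ.filter (fun m => ε m = false) then 0 else g m) -
    (fun m => if m ∈ Finset.univ.filter (fun m => ε m = true) then 0 else g m) =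
      (fun m i => sg (ε m) * g m i) := by
    funext m i
    simp only [Pi.sub_apply, Finset.mem_filter, Finset.mem_univ, true_and, sg]
    cases ε m <;> simp
  rw [h4] at h3
  linarith

/-- The norm of a single difference chain. -/
noncomputable def EE (f : (Fin n → ℕ) → Fin n → X) (v : Fin n → ℝ) : ℝ :=
  DD (M := Unit) f (fun _ j => 2 * j) (2 * n) (fun _ => v)

theorem DD_single [DecidableEq M] (hf : Strat T f) {P : M → ℕ → ℕ} {Q : ℕ}
    (hP : GoodD P n Q) (m0 : M) (v : Fin n → ℝ) :
    DD f P Q (fun m => if m = m0 then v else 0) = EE f v := by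
  set s : ℕ → ℕ := fun q => P m0 (q / 2) + q % 2 with hs
  have hsm : StrictMono s := by
    refine strictMono_nat_of_lt_succ fun q => ?_
    simp only [hs]
    rcases Nat.even_or_odd' q with ⟨r, rfl | rfl⟩
    · rw [show (2 * r) / 2 = r by omega, show (2 * r + 1) / 2 = r by omega]
      omega
    · rw [show (2 * r + 1) / 2 = r by omega, show (2 * r + 1 + 1) / 2 = r + 1 by omega]
      have h1 := hP.mono m0 (Nat.lt_succ_self r)
      have h2 := hP.even m0 r
      have h3 := hP.even m0 (r + 1)
      simp only [Nat.succ_eq_add_one] at h1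
      omega
  have hQ : ∀ q < 2 * n, s q < Q := by
    intro q hq
    have := hP.lt m0 (q / 2) (by omega)
    simp only [hs]
    omega
  have h1 := NN_reindex hf (P := PP (fun (_ : Unit) j => 2 * j)) (Q := 2 * n) (Q' := Q)
    (by
      rintro ⟨c, b⟩ i hi
      simp only [PP]
      split_ifs <;> omega) hsm hQ (GG (fun _ => v))
  unfold EE DD
  rw [← h1]
  refine tendsto_nhds_unique (tendsto_NN hf _ _ _) ?_
  refine (tendsto_NN hf _ _ _).congr (fun k => ?_)
  congr 1
  rw [vec_GG]
  have h2 : (fun (c : Unit × Bool) (j : ℕ) => s (PP (fun (_ : Unit) j => 2 * j) c j)) =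
      PP (fun (_ : Unit) j => P m0 j) := by
    funext c j
    obtain ⟨c, b⟩ := c
    simp only [PP, hs]
    cases b
    · simp
    · simp only [if_true]
      rw [show (2 * j + 1) / 2 = j by omega, show (2 * j + 1) % 2 = 1 by omega]
  rw [h2, vec_GG, Finset.sum_eq_single m0]
  · simp
  · intro m _ hm
    simp [hm]
  · intro h; exact absurd (Finset.mem_univ _) h

theorem goodD_unit (n : ℕ) : GoodD (fun (_ : Unit) j => 2 * j) n (2 * n) where
  mono := fun _ i j h => by dsimp only; omega
  even := fun _ j => by simp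
  inj := fun m m' i i' h => ⟨Subsingleton.elim _ _, by simpa using h⟩
  lt := fun _ i hi => by omega

theorem DD_le_sum_EE [DecidableEq M] (hf : Strat T f) {P : M → ℕ → ℕ} {Q : ℕ}
    (hP : GoodD P n Q) (g : M → Fin n → ℝ) : DD f P Q g ≤ ∑ m, EE f (g m) := by
  have h1 : g = ∑ m0, (fun m => if m = m0 then g m0 else 0) := by
    funext m
    rw [Finset.sum_apply]
    simp
  calc DD f P Q g = DD f P Q (∑ m0, (fun m => if m = m0 then g m0 else 0)) := by rw [← h1]
    _ ≤ ∑ m0, DD f P Q (fun m => if m = m0 then g m0 else 0) := DD_sum_le hf P Q _ _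
    _ = ∑ m, EE f (g m) := Finset.sum_congr rfl fun m0 _ => DD_single hf hP m0 _

theorem EE_add_le (hf : Strat T f) (v w : Fin n → ℝ) : EE f (v + w) ≤ EE f v + EE f w :=
  DD_add_le hf _ _ (fun _ => v) (fun _ => w)

theorem EE_sub_le (hf : Strat T f) (v w : Fin n → ℝ) : EE f (v - w) ≤ EE f v + EE f w :=
  DD_sub_le hf _ _ (fun _ => v) (fun _ => w)

theorem EE_smul (hf : Strat T f) (r : ℝ) (v : Fin n → ℝ) : EE f (r • v) = |r| * EE f v :=
  DD_smul hf _ _ r (fun _ => v)

theorem EE_nonneg (hf : Strat T f) (v : Fin n → ℝ) : 0 ≤ EE f v := DD_nonneg hf _ _ _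

theorem abs_le_EE (hf : Strat T f) (hPr : Proj T C Pr) (v : Fin n → ℝ) (i : Fin n) :
    |v i| ≤ 2 * C * EE f v :=
  abs_le_DD hf hPr (goodD_unit n) (fun _ => v) () i

/-- An upper bound of the norm of a difference chain from a bound on the chain itself. -/
theorem EE_le (hf : Strat T f) {v : Fin n → ℝ} {B : ℝ}
    (h : ∀ k : Fin n → ℕ, ‖∑ i, v i • f k i‖ ≤ B) : EE f v ≤ 2 * B := by
  unfold EE DD
  refine le_of_tendsto (tendsto_NN hf _ _ _) (Eventually.of_forall fun k => ?_)
  rw [vec_GG]
  simp only [Fintype.sum_unique, smul_sub, Finset.sum_sub_distrib]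
  refine (norm_sub_le _ _).trans ?_
  have h1 := h (fun j => k (2 * j + 1))
  have h2 := h (fun j => k (2 * j))
  linarith

theorem EE_le_l1 (hf : Strat T f) (v : Fin n → ℝ) : EE f v ≤ 2 * ∑ i, |v i| := by
  apply EE_le hf
  intro k
  refine (norm_sum_le _ _).trans (Finset.sum_le_sum fun i _ => ?_)
  rw [norm_smul, hf.norm_eq, mul_one, Real.norm_eq_abs]

end Pool.Agent.helper71.AL
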