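import Pool.Agent.helper71.AL.Ultra

/-!
# Interleaved copies of a chain and their limit norms
-/

set_option autoImplicit false

open Filter Topology

namespace Pool.Agent.helper71.AL

variable {X : Type*} [NormedAddCommGroup X] [NormedSpace ℝ X]

/-- An adaptive choice of normalised vectors in the tail spaces. -/
structure Strat (T : ℕ → Submodule ℝ X) {n : ℕ} (f : (Fin n → ℕ) → Fin n → X) : Prop where
  dep : ∀ (k k' : Fin n → ℕ) (i : Fin n), (∀ j ≤ i, k j = k' j) → f k i = f k' i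
  norm_eq : ∀ k i, ‖f k i‖ = 1
  mem : ∀ k i, f k i ∈ T (k i)

/-- Uniformly bounded basis projections which are compatible with the tail spaces. -/
structure Proj (T : ℕ → Submodule ℝ X) (C : ℝ) (Pr : ℕ → X →L[ℝ] X) : Prop where
  one_le : 1 ≤ C
  bound : ∀ k x, ‖Pr k x‖ ≤ C * ‖x‖
  lim : ∀ x, Tendsto (fun k => Pr k x) atTop (𝓝 x)
  zero : ∀ k, ∀ y ∈ T k, Pr k y = 0
  anti : Antitone T

section vec

variable {n : ℕ} {ι : Type*} [Fintype ι]

/-- Linear combination of the members of several interleaved copies of a chain. -/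
noncomputable def vec (f : (Fin n → ℕ) → Fin n → X) (P : ι → ℕ → ℕ) (a : ι → Fin n → ℝ)
    (k : ℕ → ℕ) : X :=
  ∑ c, ∑ i, a c i • f (fun j => k (P c j)) i

/-- The sum of the absolute values of the coefficients. -/
noncomputable def l1 (a : ι → Fin n → ℝ) : ℝ := ∑ c, ∑ i, |a c i|

theorem l1_nonneg (a : ι → Fin n → ℝ) : 0 ≤ l1 a :=
  Finset.sum_nonneg fun _ _ => Finset.sum_nonneg fun _ _ => abs_nonneg _

variable {T : ℕ → Submodule ℝ X} {f : (Fin n → ℕ) → Fin n → X}

theorem norm_vec_le (hf : Strat T f) (P : ι → ℕ → ℕ) (a : ι → Fin n → ℝ) (k : ℕ → ℕ) :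
    ‖vec f P a k‖ ≤ l1 a := by
  refine (norm_sum_le _ _).trans (Finset.sum_le_sum fun c _ => ?_)
  refine (norm_sum_le _ _).trans (Finset.sum_le_sum fun i _ => ?_)
  rw [norm_smul, hf.norm_eq, mul_one, Real.norm_eq_abs]

theorem vec_add (f : (Fin n → ℕ) → Fin n → X) (P : ι → ℕ → ℕ) (a b : ι → Fin n → ℝ)
    (k : ℕ → ℕ) : vec f P (a + b) k = vec f P a k + vec f P b k := by
  simp only [vec, Pi.add_apply, add_smul, Finset.sum_add_distrib]

theorem vec_sub (f : (Fin n → ℕ) → Fin n → X) (P : ι → ℕ → ℕ) (a b : ι → Fin n → ℝ)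
    (k : ℕ → ℕ) : vec f P (a - b) k = vec f P a k - vec f P b k := by
  simp only [vec, Pi.sub_apply, sub_smul, Finset.sum_sub_distrib]

theorem vec_smul (f : (Fin n → ℕ) → Fin n → X) (P : ι → ℕ → ℕ) (r : ℝ) (a : ι → Fin n → ℝ)
    (k : ℕ → ℕ) : vec f P (r • a) k = r • vec f P a k := by
  simp only [vec, Pi.smul_apply, smul_eq_mul, mul_smul, Finset.smul_sum]

theorem vec_zero (f : (Fin n → ℕ) → Fin n → X) (P : ι → ℕ → ℕ)
    (k : ℕ → ℕ) : vec f P (0 : ι → Fin n → ℝ) k = 0 := by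
  simp [vec]

/-- Each copy occupies an increasing sequence of positions, and positions are not shared. -/
structure Good (P : ι → ℕ → ℕ) (n Q : ℕ) : Prop where
  mono : ∀ c, StrictMono (P c)
  inj : ∀ c c' i i', P c i = P c' i' → c = c' ∧ i = i'
  lt : ∀ c, ∀ i < n, P c i < Q

theorem dep_vec {P : ι → ℕ → ℕ} {Q : ℕ} (hP : ∀ c, ∀ i < n, P c i < Q)
    (f : (Fin n → ℕ) → Fin n → X) (a : ι → Fin n → ℝ) : Dep Q (vec f P a) := by
  intro k k' hk
  unfold vec
  refine Finset.sum_congr rfl fun c _ => Finset.sum_congr rfl fun i _ => ?_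
  have : (fun j : Fin n => k (P c j)) = fun j : Fin n => k' (P c j) := by
    funext j
    exact hk _ (hP c j j.2)
  rw [this]

/-- The limit norm. -/
noncomputable def NN (f : (Fin n → ℕ) → Fin n → X) (P : ι → ℕ → ℕ) (Q : ℕ)
    (a : ι → Fin n → ℝ) : ℝ := lm Q (fun k => ‖vec f P a k‖)

theorem tendsto_NN (hf : Strat T f) (P : ι → ℕ → ℕ) (Q : ℕ) (a : ι → Fin n → ℝ) :
    Tendsto (fun k => ‖vec f P a k‖) (V Q : Filter (ℕ → ℕ)) (𝓝 (NN f P Q a)) := by
  refine tendsto_lm Q (B := l1 a) (fun k => ?_)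
  rw [abs_of_nonneg (norm_nonneg _)]
  exact norm_vec_le hf P a k

theorem NN_nonneg (hf : Strat T f) (P : ι → ℕ → ℕ) (Q : ℕ) (a : ι → Fin n → ℝ) :
    0 ≤ NN f P Q a :=
  ge_of_tendsto (tendsto_NN hf P Q a) (Eventually.of_forall fun _ => norm_nonneg _)

theorem NN_le_l1 (hf : Strat T f) (P : ι → ℕ → ℕ) (Q : ℕ) (a : ι → Fin n → ℝ) :
    NN f P Q a ≤ l1 a :=
  le_of_tendsto (tendsto_NN hf P Q a) (Eventually.of_forall fun k => norm_vec_le hf P a k)

theorem NN_add_le (hf : Strat T f) (P : ι → ℕ → ℕ) (Q : ℕ) (a b : ι → Fin n → ℝ) :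
    NN f P Q (a + b) ≤ NN f P Q a + NN f P Q b := by
  refine le_of_tendsto_of_tendsto' (tendsto_NN hf P Q _)
    ((tendsto_NN hf P Q a).add (tendsto_NN hf P Q b)) (fun k => ?_)
  rw [vec_add]
  exact norm_add_le _ _

theorem NN_smul (hf : Strat T f) (P : ι → ℕ → ℕ) (Q : ℕ) (r : ℝ) (a : ι → Fin n → ℝ) :
    NN f P Q (r • a) = |r| * NN f P Q a := by
  refine tendsto_nhds_unique (tendsto_NN hf P Q _) ?_
  refine ((tendsto_NN hf P Q a).const_mul |r|).congr (fun k => ?_)
  rw [vec_smul, norm_smul, Real.norm_eq_abs]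

theorem NN_neg (hf : Strat T f) (P : ι → ℕ → ℕ) (Q : ℕ) (a : ι → Fin n → ℝ) :
    NN f P Q (-a) = NN f P Q a := by
  have := NN_smul hf P Q (-1) a
  simpa using this

theorem NN_sub_le (hf : Strat T f) (P : ι → ℕ → ℕ) (Q : ℕ) (a b : ι → Fin n → ℝ) :
    NN f P Q (a - b) ≤ NN f P Q a + NN f P Q b := by
  rw [sub_eq_add_neg, ← NN_neg hf P Q b]
  exact NN_add_le hf P Q a (-b)

theorem NN_sum_le (hf : Strat T f) (P : ι → ℕ → ℕ) (Q : ℕ) {κ : Type*} (s : Finset κ)
    (a : κ → ι → Fin n → ℝ) : NN f P Q (∑ x ∈ s, a x) ≤ ∑ x ∈ s, NN f P Q (a x) := by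
  classical
  induction s using Finset.induction_on with
  | empty =>
    simp only [Finset.sum_empty]
    have := NN_le_l1 hf P Q (0 : ι → Fin n → ℝ)
    simpa [l1] using this
  | insert x s hx ih =>
    rw [Finset.sum_insert hx, Finset.sum_insert hx]
    exact (NN_add_le hf P Q _ _).trans (by linarith)

/-- The part of the coefficients at positions before `q`. -/
noncomputable def ini (P : ι → ℕ → ℕ) (q : ℕ) (a : ι → Fin n → ℝ) : ι → Fin n → ℝ :=
  fun c i => if P c i < q then a c i else 0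

variable {C : ℝ} {Pr : ℕ → X →L[ℝ] X}

theorem dep_vec_ini (hf : Strat T f) {P : ι → ℕ → ℕ} {Q : ℕ} (hP : Good P n Q) (q : ℕ)
    (a : ι → Fin n → ℝ) : Dep q (vec f P (ini P q a)) := by
  intro k k' hk
  unfold vec
  refine Finset.sum_congr rfl fun c _ => Finset.sum_congr rfl fun i _ => ?_
  unfold ini
  split_ifs with h
  · have : f (fun j => k (P c j)) i = f (fun j => k' (P c j)) i := by
      apply hf.dep
      intro j hj
      apply hk
      exact lt_of_le_of_lt ((hP.mono c).monotone (by exact_mod_cast hj)) h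
    rw [this]
  · simp

theorem NN_ini_le (hf : Strat T f) (hPr : Proj T C Pr) {P : ι → ℕ → ℕ} {Q : ℕ}
    (hP : Good P n Q) (q : ℕ) (a : ι → Fin n → ℝ) :
    NN f P Q (ini P q a) ≤ C * NN f P Q a := by
  apply le_of_forall_pos_le_add
  intro η hη
  have h1 : ∀ x : X, ∃ K : ℕ, ∀ K' ≥ K, ‖Pr K' x - x‖ ≤ η := by
    intro x
    obtain ⟨K, hK⟩ := (Metric.tendsto_atTop.1 (hPr.lim x)) η hη
    refine ⟨K, fun K' hK' => ?_⟩
    have := hK K' hK'
    rw [dist_eq_norm] at this
    exact this.le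
  choose κ hκ using h1
  have hd := dep_vec_ini hf hP q a
  have hgr := eventually_growth Q (fun q' k => if q ≤ q' then κ (vec f P (ini P q a) k) else 0)
    (by
      intro q'
      by_cases h : q ≤ q'
      · intro k k' hk
        simp only [h, if_true]
        rw [(hd.mono h) k k' hk]
      · intro k k' hk
        simp only [h, if_false])
  refine le_of_tendsto_of_tendsto (tendsto_NN hf P Q _)
    (((tendsto_NN hf P Q a).const_mul C).add_const η) ?_
  filter_upwards [hgr] with k hk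
  set x := vec f P (ini P q a) k with hx
  have h2 : vec f P a k - x ∈ T (κ x) := by
    rw [hx, ← vec_sub]
    unfold vec
    refine Submodule.sum_mem _ fun c _ => Submodule.sum_mem _ fun i _ => ?_
    simp only [Pi.sub_apply, ini]
    split_ifs with h
    · simp
    · refine Submodule.smul_mem _ _ ?_
      have h3 := hk (P c i) (hP.lt c i i.2)
      rw [if_pos (by omega)] at h3
      exact hPr.anti h3 (hf.mem (fun j : Fin n => k (P c j)) i)
  have h3 : Pr (κ x) (vec f P a k) = Pr (κ x) x := by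
    have := hPr.zero _ _ h2
    rw [map_sub, sub_eq_zero] at this
    exact this
  have h4 := hκ x (κ x) le_rfl
  have h5 := hPr.bound (κ x) (vec f P a k)
  rw [h3] at h5
  have h6 : ‖x‖ ≤ ‖Pr (κ x) x‖ + ‖Pr (κ x) x - x‖ := by
    have : x = Pr (κ x) x - (Pr (κ x) x - x) := by abel
    calc ‖x‖ = ‖Pr (κ x) x - (Pr (κ x) x - x)‖ := by rw [← this]
      _ ≤ _ := norm_sub_le _ _
  linarith

/-- Coefficients are controlled by the limit norm. -/
theorem abs_le_NN (hf : Strat T f) (hPr : Proj T C Pr) {P : ι → ℕ → ℕ} {Q : ℕ}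
    (hP : Good P n Q) (a : ι → Fin n → ℝ) (c : ι) (i : Fin n) :
    |a c i| ≤ 2 * C * NN f P Q a := by
  classical
  have h1 := NN_ini_le hf hPr hP (P c i) a
  have h2 := NN_ini_le hf hPr hP (P c i + 1) a
  have h3 := NN_sub_le hf P Q (ini P (P c i + 1) a) (ini P (P c i) a)
  have h4 : ∀ k, vec f P (ini P (P c i + 1) a - ini P (P c i) a) k =
      a c i • f (fun j => k (P c j)) i := by
    intro k
    unfold vec
    rw [Finset.sum_eq_single c]
    · rw [Finset.sum_eq_single i]
      · simp [ini]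
      · intro i' _ hi'
        have h5 : P c i' ≠ P c i := fun h => hi' (Fin.ext (hP.inj _ _ _ _ h).2)
        simp only [Pi.sub_apply, ini]
        rcases lt_or_gt_of_ne h5 with h6 | h6
        · rw [if_pos (by omega), if_pos h6]; simp
        · rw [if_neg (by omega), if_neg (by omega)]; simp
      · intro h; exact absurd (Finset.mem_univ _) h
    · intro c' _ hc'
      apply Finset.sum_eq_zero
      intro i' _
      have h5 : P c' i' ≠ P c i := fun h => hc' (hP.inj _ _ _ _ h).1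
      simp only [Pi.sub_apply, ini]
      rcases lt_or_gt_of_ne h5 with h6 | h6
      · rw [if_pos (by omega), if_pos h6]; simp
      · rw [if_neg (by omega), if_neg (by omega)]; simp
    · intro h; exact absurd (Finset.mem_univ _) h
  have h5 : NN f P Q (ini P (P c i + 1) a - ini P (P c i) a) = |a c i| := by
    refine tendsto_nhds_unique (tendsto_NN hf P Q _) ?_
    refine tendsto_const_nhds.congr (fun k => ?_)
    rw [h4, norm_smul, hf.norm_eq, mul_one, Real.norm_eq_abs]
  rw [h5] at h3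
  linarith

theorem NN_reindex (hf : Strat T f) {P : ι → ℕ → ℕ} {Q Q' : ℕ} (hP : ∀ c, ∀ i < n, P c i < Q)
    {s : ℕ → ℕ} (hs : StrictMono s) (hQ : ∀ q < Q, s q < Q') (a : ι → Fin n → ℝ) :
    NN f (fun c j => s (P c j)) Q' a = NN f P Q a := by
  have := lm_reindex (Q := Q) (Q' := Q') hs hQ (φ := fun k => ‖vec f P a k‖)
    (fun k k' hk => by
      show ‖vec f P a k‖ = ‖vec f P a k'‖
      rw [dep_vec hP f a k k' hk]) (B := l1 a)
    (fun k => by rw [abs_of_nonneg (norm_nonneg _)]; exact norm_vec_le hf P a k)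
  exact this

end vec

end Pool.Agent.helper71.AL
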