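import Pool.Agent.helper71.AL.Chain
import Pool.Agent.helper71.AL.Block

/-!
# The norm of many copies of a difference chain, and random signs
-/

set_option autoImplicit false

open Filter Topology

namespace Pool.Agent.helper71.AL

variable {X : Type*} [NormedAddCommGroup X] [NormedSpace ℝ X]
variable {n : ℕ} {M : Type*} [Fintype M]
variable {T : ℕ → Submodule ℝ X} {f : (Fin n → ℕ) → Fin n → X} {C : ℝ} {Pr : ℕ → X →L[ℝ] X}

/-- The positions of the copies. -/
def posn (μ s : ℕ) (num : M → ℕ) (lab : M → ℕ → ℕ) (m : M) (i : ℕ) : ℕ :=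
  2 * (μ * (s * i + lab m i) + num m)

omit [Fintype M] in
theorem goodD_posn {μ s : ℕ} {num : M → ℕ} {lab : M → ℕ → ℕ} (hnum : ∀ m, num m < μ)
    (hinj : Function.Injective num) (hlab : ∀ m i, lab m i < s) (n : ℕ) :
    GoodD (posn μ s num lab) n (2 * (μ * (s * n))) where
  mono := by
    intro m
    refine strictMono_nat_of_lt_succ fun i => ?_
    simp only [posn]
    have h1 := hlab m i
    have h2 : s * i + lab m i + 1 ≤ s * (i + 1) + lab m (i + 1) := by
      rw [mul_add, mul_one]; omega
    have h3 := Nat.mul_le_mul_left μ h2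
    rw [mul_add, mul_one] at h3
    have h4 := hnum m
    omega
  even := fun m j => by simp [posn]
  inj := by
    intro m m' i i' h
    simp only [posn] at h
    have h1 : μ * (s * i + lab m i) + num m = μ * (s * i' + lab m' i') + num m' := by omega
    have hμ : 0 < μ := lt_of_le_of_lt (Nat.zero_le _) (hnum m)
    have h2 : num m = num m' := by
      have := congrArg (· % μ) h1
      simpa [Nat.mul_add_mod, Nat.mod_eq_of_lt (hnum m), Nat.mod_eq_of_lt (hnum m')] using this
    have hm := hinj h2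
    subst hm
    refine ⟨rfl, ?_⟩
    have h3 : s * i + lab m i = s * i' + lab m i' := by
      have h4 : μ * (s * i + lab m i) = μ * (s * i' + lab m i') := by omega
      exact Nat.eq_of_mul_eq_mul_left hμ h4
    have hs : 0 < s := lt_of_le_of_lt (Nat.zero_le _) (hlab m i)
    have h5 := congrArg (· / s) h3
    simpa [Nat.mul_add_div hs, Nat.div_eq_of_lt (hlab m i), Nat.div_eq_of_lt (hlab m i')] using h5
  lt := by
    intro m i hi
    simp only [posn]
    have h1 := hlab m i
    have h2 : s * i + lab m i + 1 ≤ s * n := by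
      have : s * (i + 1) ≤ s * n := Nat.mul_le_mul_left s hi
      rw [mul_add, mul_one] at this
      omega
    have h3 := Nat.mul_le_mul_left μ h2
    rw [mul_add, mul_one] at h3
    have h4 := hnum m
    omega

omit [Fintype M] in
theorem GG_comb {κ : Type*} [Fintype κ] (β : κ → M → Fin n → ℝ) (t : κ → ℝ) :
    GG (comb β t) = comb (fun c => GG (β c)) t := by
  unfold comb
  rw [GG_sum]
  exact Finset.sum_congr rfl fun c _ => GG_smul _ _

/-- Spans of block sequences of differences are isomorphic to `l1` spaces. -/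
theorem iso_blockD {K : ℝ} (H : ∀ (J : ℕ) (N : (Fin J → ℝ) → ℝ), Asy T J N → Iso K N)
    (hf : Strat T f) (hPr : Proj T C Pr) {P : M → ℕ → ℕ} {Q : ℕ}
    (hP : GoodD P n Q) {κ : Type*} [Fintype κ] [Nonempty κ] (r : κ → ℕ)
    (hr : Function.Injective r) (bn : ℕ → ℕ)
    (hbn : Monotone bn) (β : κ → M → Fin n → ℝ)
    (hβ : ∀ c m i, β c m i ≠ 0 → bn (P m i) = r c ∧ bn (P m i + 1) = r c) (hβ0 : ∀ c, β c ≠ 0) :
    Iso K (fun t : κ → ℝ => DD f P Q (comb β t)) := by
  have h := iso_block H hf hPr hP.good r hr bn hbn (fun c => GG (β c)) (by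
    rintro c ⟨m, b⟩ i h
    have h1 : β c m i ≠ 0 := by
      intro h0
      apply h
      simp [GG, h0]
    obtain ⟨h2, h3⟩ := hβ c m i h1
    simp only [PP]
    cases b
    · simpa using h2
    · simpa using h3) (by
    intro c h0
    apply hβ0 c
    funext m i
    have h1 := congrFun (congrFun h0 (m, true)) i
    simpa [GG] using h1)
  have h2 : (fun t : κ → ℝ => DD f P Q (comb β t)) =
      fun t : κ → ℝ => NN f (PP P) Q (comb (fun c => GG (β c)) t) := by
    funext t
    unfold DD
    rw [GG_comb]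
  rw [h2]
  exact h

/-- An unconditional decomposition of a space isomorphic to `l1`. -/
theorem iso_unconditional {K Cu : ℝ} {κ L : Type*} [Fintype κ] [Fintype L] [DecidableEq κ]
    [DecidableEq L] {N : (κ → ℝ) → ℝ} (hN : Iso K N) (hN0 : ∀ t, 0 ≤ N t) (hCu : 0 ≤ Cu)
    (R : L → (κ → ℝ) →ₗ[ℝ] (κ → ℝ)) (hR : ∀ m w, R m (R m w) = R m w)
    (hu : ∀ (ε : L → Bool) (t : κ → ℝ), N (∑ m, sg (ε m) • R m t) ≤ Cu * N t) (t : κ → ℝ) :
    ∑ m, N (R m t) ≤ 4 * (K * Cu) ^ 2 * K * N t := by
  obtain ⟨S, A, B, hA, hB, hAB, hS⟩ := hN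
  have hK : 0 ≤ K := (mul_pos hA hB).le.trans hAB
  let P' : L → (κ → ℝ) →ₗ[ℝ] (κ → ℝ) := fun m =>
    (S.toLinearMap.comp (R m)).comp S.symm.toLinearMap
  have hP' : ∀ m w, P' m w = S (R m (S.symm w)) := fun m w => rfl
  have h1 := lemmaA P' (fun m w => by rw [hP', hP', S.symm_apply_apply, hR]) (C := K * Cu)
    (by
      intro ε w
      have h2 : ∀ l, ∑ m, sg (ε m) * P' m w l = S (∑ m, sg (ε m) • R m (S.symm w)) l := by
        intro l
        rw [map_sum, Finset.sum_apply]
        refine Finset.sum_congr rfl fun m _ => ?_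
        rw [map_smul, Pi.smul_apply, smul_eq_mul, hP']
      simp only [h2]
      refine ((hS _).2.trans (mul_le_mul_of_nonneg_left (hu ε _) hB.le)).trans ?_
      have h3 := (hS (S.symm w)).1
      rw [S.apply_symm_apply] at h3
      have h4 : 0 ≤ ∑ l, |w l| := Finset.sum_nonneg fun _ _ => abs_nonneg _
      calc B * (Cu * N (S.symm w)) ≤ B * (Cu * (A * ∑ l, |w l|)) := by gcongr
        _ = (A * B) * (Cu * ∑ l, |w l|) := by ring
        _ ≤ K * (Cu * ∑ l, |w l|) := by gcongr
        _ = K * Cu * ∑ l, |w l| := by ring) (S t)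
  simp only [hP', S.symm_apply_apply] at h1
  calc ∑ m, N (R m t) ≤ ∑ m, A * ∑ l, |S (R m t) l| := Finset.sum_le_sum fun m _ => (hS _).1
    _ = A * ∑ m, ∑ l, |S (R m t) l| := by rw [Finset.mul_sum]
    _ ≤ A * (4 * (K * Cu) ^ 2 * ∑ l, |S t l|) := mul_le_mul_of_nonneg_left h1 hA.le
    _ ≤ A * (4 * (K * Cu) ^ 2 * (B * N t)) := by
        gcongr
        exact (hS t).2
    _ = 4 * (K * Cu) ^ 2 * (A * B) * N t := by ring
    _ ≤ 4 * (K * Cu) ^ 2 * K * N t := by
        apply mul_le_mul_of_nonneg_right _ (hN0 t)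
        apply mul_le_mul_of_nonneg_left hAB (by positivity)

theorem Iso.nonneg {K : ℝ} {κ : Type*} [Fintype κ] {N : (κ → ℝ) → ℝ} (h : Iso K N) : 0 ≤ K := by
  obtain ⟨_, A, B, hA, hB, hAB, _⟩ := h
  exact (mul_pos hA hB).le.trans hAB

/-- The norm of many copies of a difference chain is equivalent to the `l1` sum. -/
theorem sum_EE_le {K : ℝ} (H : ∀ (J : ℕ) (N : (Fin J → ℝ) → ℝ), Asy T J N → Iso K N)
    (hf : Strat T f) (hPr : Proj T C Pr) {P : M → ℕ → ℕ} {Q : ℕ}
    (hP : GoodD P n Q) (hn : 0 < n) (g : M → Fin n → ℝ) :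
    ∑ m, EE f (g m) ≤ 16 * K ^ 3 * DD f P Q g := by
  classical
  rcases isEmpty_or_nonempty M with hM | hM
  · have h1 : DD f P Q g = 0 := by
      have := DD_le_sum_EE hf hP g
      simp only [Finset.univ_eq_empty, Finset.sum_empty] at this
      exact le_antisymm this (DD_nonneg hf _ _ _)
    simp [h1]
  have : Nonempty (Fin n) := ⟨⟨0, hn⟩⟩
  set β : M × Fin n → M → Fin n → ℝ := fun c m i => if m = c.1 ∧ i = c.2 then 1 else 0 with hβ
  have hcomb : ∀ t : M × Fin n → ℝ, comb β t = fun m i => t (m, i) := by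
    intro t
    funext m i
    unfold comb
    rw [Finset.sum_apply, Finset.sum_apply, Finset.sum_eq_single (m, i)]
    · simp [hβ]
    · rintro ⟨m', i'⟩ _ hne
      simp only [Pi.smul_apply, smul_eq_mul, hβ]
      rw [if_neg, mul_zero]
      rintro ⟨rfl, rfl⟩
      exact hne rfl
    · intro h; exact absurd (Finset.mem_univ _) h
  have hiso := iso_blockD H hf hPr hP (κ := M × Fin n) (fun c => P c.1 c.2 / 2) (by
      rintro ⟨m, i⟩ ⟨m', i'⟩ h
      dsimp only at h
      have h1 := hP.even m i
      have h2 := hP.even m' i'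
      obtain ⟨rfl, h3⟩ := hP.inj m m' i i' (by omega)
      rw [Fin.ext h3]) (fun q => q / 2) (fun a b h => Nat.div_le_div_right h) β (by
      rintro ⟨m, i⟩ m' i' h
      simp only [hβ, ne_eq, ite_eq_right_iff, one_ne_zero, imp_false, not_not] at h
      obtain ⟨rfl, rfl⟩ := h
      have h1 := hP.even m' i'
      exact ⟨rfl, by dsimp only; omega⟩) (by
      rintro ⟨m, i⟩ h
      have := congrFun (congrFun h m) i
      simp [hβ] at this)
  simp only [hcomb] at hiso
  let R : M → (M × Fin n → ℝ) →ₗ[ℝ] (M × Fin n → ℝ) := fun m =>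
    { toFun := fun t c => if c.1 = m then t c else 0
      map_add' := fun a b => by funext c; by_cases h : c.1 = m <;> simp [h]
      map_smul' := fun r a => by funext c; by_cases h : c.1 = m <;> simp [h] }
  have hRa : ∀ m t c, R m t c = if c.1 = m then t c else 0 := fun _ _ _ => rfl
  have h1 := iso_unconditional (Cu := 2) hiso (fun t => DD_nonneg hf _ _ _) (by norm_num) R
    (by
      intro m w
      funext c
      rw [hRa, hRa]
      split_ifs <;> rfl)
    (by
      intro ε t
      refine le_trans (le_of_eq ?_) (DD_sign_le hf hP (fun m i => t (m, i)) ε)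
      congr 1
      funext m i
      rw [Finset.sum_apply, Finset.sum_eq_single m]
      · simp [hRa]
      · intro m' _ hm'
        rw [Pi.smul_apply, hRa, if_neg (fun h => hm' h.symm), smul_zero]
      · intro h; exact absurd (Finset.mem_univ _) h) (fun c => g c.1 c.2)
  have h2 : ∀ m, DD f P Q (fun m' i => R m (fun c => g c.1 c.2) (m', i)) = EE f (g m) := by
    intro m
    rw [← DD_single hf hP m]
    congr 1
    funext m' i
    rw [hRa]
    by_cases h : m' = m
    · subst h; simp
    · simp [h]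
  simp only [h2] at h1
  refine h1.trans (le_of_eq ?_)
  ring

/-- Random signs. -/
theorem random_signs {K : ℝ} (H : ∀ (J : ℕ) (N : (Fin J → ℝ) → ℝ), Asy T J N → Iso K N)
    (hK : 1 ≤ K) (hf : Strat T f) (hPr : Proj T C Pr) (hn : 0 < n) (t : Fin n → ℝ) :
    2 ^ n * ∑ i, |t i| ≤ 8 * C * (16 * K ^ 3) ^ 3 * K ^ 3 *
      ∑ ε : Fin n → Bool, EE f (fun i => sg (ε i) * t i) := by
  classical
  have hne : Nonempty (Fin n) := ⟨⟨0, hn⟩⟩
  set CA : ℝ := 16 * K ^ 3 with hCA
  have hCA0 : 0 < CA := by positivity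
  have hC0 : 0 < C := lt_of_lt_of_le one_pos hPr.one_le
  let num : (Fin n → Bool) → ℕ := fun ε => (Fintype.equivFin (Fin n → Bool) ε : ℕ)
  set μ : ℕ := Fintype.card (Fin n → Bool) with hμ
  have hμ0 : 0 < μ := Fintype.card_pos
  have hP : GoodD (posn μ 1 num (fun _ _ => 0)) n (2 * (μ * (1 * n))) :=
    goodD_posn (fun m => (Fintype.equivFin _ m).2)
      (fun a b h => (Fintype.equivFin _).injective (Fin.ext h)) (fun _ _ => one_pos) n
  set P := posn μ 1 num (fun _ _ => 0) with hPd
  set Q := 2 * (μ * (1 * n)) with hQ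
  set β : Fin n → (Fin n → Bool) → Fin n → ℝ := fun c ε i => if i = c then sg (ε i) else 0 with hβ
  have hcomb : ∀ t : Fin n → ℝ, comb β t = fun ε i => sg (ε i) * t i := by
    intro t
    funext ε i
    unfold comb
    rw [Finset.sum_apply, Finset.sum_apply, Finset.sum_eq_single i]
    · simp [hβ, mul_comm]
    · intro c _ hc
      simp [hβ, Ne.symm hc]
    · intro h; exact absurd (Finset.mem_univ _) h
  have hdiv : ∀ (ε : Fin n → Bool) (i : ℕ) (b : ℕ), b < 2 →
      (P ε i + b) / (2 * μ) = i := by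
    intro ε i b hb
    have h1 : num ε < μ := (Fintype.equivFin _ ε).2
    have h2 : P ε i + b = 2 * μ * i + (2 * num ε + b) := by
      simp only [hPd, posn]; ring
    rw [h2, Nat.mul_add_div (by omega), Nat.div_eq_of_lt (by omega), add_zero]
  have hiso := iso_blockD H hf hPr hP (κ := Fin n) (fun c => (c : ℕ)) Fin.val_injective
    (fun q => q / (2 * μ)) (fun a b h => Nat.div_le_div_right h) β (by
      intro c ε i h
      have h1 : i = c := by
        by_contra h'
        apply h
        simp [hβ, h']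
      subst h1
      exact ⟨hdiv ε i 0 (by norm_num), hdiv ε i 1 (by norm_num)⟩) (by
      intro c h
      have := congrFun (congrFun h (fun _ => true)) c
      simp [hβ, sg] at this)
  simp only [hcomb] at hiso
  set Nd : (Fin n → ℝ) → ℝ := fun t => DD f P Q (fun ε i => sg (ε i) * t i) with hNd
  have hlow : ∀ t : Fin n → ℝ, ∑ ε : Fin n → Bool, EE f (fun i => sg (ε i) * t i) ≤ CA * Nd t :=
    fun t => sum_EE_le H hf hPr hP hn _
  have hup : ∀ t : Fin n → ℝ, Nd t ≤ ∑ ε : Fin n → Bool, EE f (fun i => sg (ε i) * t i) :=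
    fun t => DD_le_sum_EE hf hP _
  have hflip : ∀ (σ : Fin n → Bool) (t : Fin n → ℝ),
      ∑ ε : Fin n → Bool, EE f (fun i => sg (ε i) * (sg (σ i) * t i)) =
        ∑ ε : Fin n → Bool, EE f (fun i => sg (ε i) * t i) := by
    intro σ t
    let e : (Fin n → Bool) ≃ (Fin n → Bool) :=
      { toFun := fun ε i => !(xor (ε i) (σ i))
        invFun := fun ε i => !(xor (ε i) (σ i))
        left_inv := fun ε => by
          funext i
          change (!(xor (!(xor (ε i) (σ i))) (σ i))) = ε i
          cases ε i <;> cases σ i <;> rfl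
        right_inv := fun ε => by
          funext i
          change (!(xor (!(xor (ε i) (σ i))) (σ i))) = ε i
          cases ε i <;> cases σ i <;> rfl }
    rw [← e.sum_comp (fun ε => EE f (fun i => sg (ε i) * t i))]
    refine Finset.sum_congr rfl fun ε _ => ?_
    congr 1
    funext i
    have : sg (e ε i) = sg (ε i) * sg (σ i) := by
      change sg (!(xor (ε i) (σ i))) = _
      cases ε i <;> cases σ i <;> simp [sg]
    rw [this]; ring
  let R : Fin n → (Fin n → ℝ) →ₗ[ℝ] (Fin n → ℝ) := fun m =>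
    { toFun := fun t c => if c = m then t c else 0
      map_add' := fun a b => by funext c; by_cases h : c = m <;> simp [h]
      map_smul' := fun r a => by funext c; by_cases h : c = m <;> simp [h] }
  have hRa : ∀ m t c, R m t c = if c = m then t c else 0 := fun _ _ _ => rfl
  have h1 := iso_unconditional (Cu := CA) hiso (fun t => DD_nonneg hf _ _ _) hCA0.le R
    (by
      intro m w
      funext c
      rw [hRa, hRa]
      split_ifs <;> rfl)
    (by
      intro σ t
      have h2 : (∑ m, sg (σ m) • R m t) = fun i => sg (σ i) * t i := by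
        funext i
        rw [Finset.sum_apply, Finset.sum_eq_single i]
        · simp [hRa]
        · intro m' _ hm'
          rw [Pi.smul_apply, hRa, if_neg (fun h => hm' h.symm), smul_zero]
        · intro h; exact absurd (Finset.mem_univ _) h
      rw [h2]
      calc _ ≤ ∑ ε : Fin n → Bool, EE f (fun i => sg (ε i) * (sg (σ i) * t i)) := hup _
        _ = ∑ ε : Fin n → Bool, EE f (fun i => sg (ε i) * t i) := hflip σ t
        _ ≤ CA * Nd t := hlow t) t
  have h2 : ∀ i, 2 ^ n * |t i| ≤ 2 * C * CA * Nd (R i t) := by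
    intro i
    have h3 := hlow (R i t)
    have h4 : ∀ ε : Fin n → Bool, |t i| / (2 * C) ≤ EE f (fun j => sg (ε j) * R i t j) := by
      intro ε
      have h5 := abs_le_EE hf hPr (fun j => sg (ε j) * R i t j) i
      rw [abs_mul, abs_sg, one_mul, hRa, if_pos rfl] at h5
      rw [div_le_iff₀ (by positivity)]
      linarith
    have h5 : ∑ ε : Fin n → Bool, |t i| / (2 * C) ≤
        ∑ ε : Fin n → Bool, EE f (fun j => sg (ε j) * R i t j) :=
      Finset.sum_le_sum fun ε _ => h4 ε
    rw [Finset.sum_const, Finset.card_univ, Fintype.card_fun, Fintype.card_bool,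
      Fintype.card_fin, nsmul_eq_mul] at h5
    push_cast at h5
    have h6 := h5.trans h3
    rw [mul_div_assoc', div_le_iff₀ (by positivity)] at h6
    linarith
  calc 2 ^ n * ∑ i, |t i| = ∑ i, 2 ^ n * |t i| := by rw [Finset.mul_sum]
    _ ≤ ∑ i, 2 * C * CA * Nd (R i t) := Finset.sum_le_sum fun i _ => h2 i
    _ = 2 * C * CA * ∑ i, Nd (R i t) := by rw [Finset.mul_sum]
    _ ≤ 2 * C * CA * (4 * (K * CA) ^ 2 * K * Nd t) :=
        mul_le_mul_of_nonneg_left h1 (by positivity)
    _ = 8 * C * CA ^ 3 * K ^ 3 * Nd t := by ring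
    _ ≤ 8 * C * CA ^ 3 * K ^ 3 * ∑ ε : Fin n → Bool, EE f (fun i => sg (ε i) * t i) :=
        mul_le_mul_of_nonneg_left (hup t) (by positivity)

end Pool.Agent.helper71.AL
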