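import Mathlib

/-!
# Rademacher sums, and two lemmas about operators on finite dimensional l1 spaces
-/

set_option autoImplicit false

open Finset

namespace Pool.Agent.helper71.AL

/-- The sign of a Boolean. -/
def sg (b : Bool) : ℝ := if b then 1 else -1

theorem sg_sq (b : Bool) : sg b ^ 2 = 1 := by cases b <;> simp [sg]
theorem sg_mul_self (b : Bool) : sg b * sg b = 1 := by cases b <;> simp [sg]
theorem abs_sg (b : Bool) : |sg b| = 1 := by cases b <;> simp [sg]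
theorem sg_not (b : Bool) : sg (!b) = -sg b := by cases b <;> simp [sg]

/-- The Rademacher sum. -/
noncomputable def rad {M : Type*} [Fintype M] (x : M → ℝ) (ε : M → Bool) : ℝ :=
  ∑ m, sg (ε m) * x m

theorem sum_cons_bool (n : ℕ) (F : (Fin (n + 1) → Bool) → ℝ) :
    ∑ ε, F ε = ∑ ε : Fin n → Bool, (F (Fin.cons true ε) + F (Fin.cons false ε)) := by
  rw [← (Fin.consEquiv (fun _ => Bool)).sum_comp, Fintype.sum_prod_type, Fintype.sum_bool,
    ← sum_add_distrib]
  rfl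

theorem rad_cons (n : ℕ) (x : Fin (n + 1) → ℝ) (b : Bool) (ε : Fin n → Bool) :
    rad x (Fin.cons b ε : Fin (n + 1) → Bool) = sg b * x 0 + rad (fun i => x i.succ) ε := by
  unfold rad
  rw [Fin.sum_univ_succ]
  simp

theorem rad_second_fin (n : ℕ) (x : Fin n → ℝ) :
    ∑ ε, rad x ε ^ 2 = 2 ^ n * ∑ i, x i ^ 2 := by
  induction n with
  | zero => simp [rad]
  | succ n ih =>
    rw [sum_cons_bool, Fin.sum_univ_succ]
    have h : ∀ ε : Fin n → Bool, rad x (Fin.cons true ε : Fin (n + 1) → Bool) ^ 2 +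
        rad x (Fin.cons false ε : Fin (n + 1) → Bool) ^ 2 =
        2 * x 0 ^ 2 + 2 * rad (fun i => x i.succ) ε ^ 2 := by
      intro ε
      rw [rad_cons, rad_cons]
      simp only [sg, if_true, Bool.false_eq_true, if_false]
      ring
    simp only [h]
    rw [sum_add_distrib, ← mul_sum, ← mul_sum, ih]
    simp
    ring

theorem rad_fourth_fin (n : ℕ) (x : Fin n → ℝ) :
    ∑ ε, rad x ε ^ 4 ≤ 3 * 2 ^ n * (∑ i, x i ^ 2) ^ 2 := by
  induction n with
  | zero => simp [rad]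
  | succ n ih =>
    rw [sum_cons_bool, Fin.sum_univ_succ]
    have h : ∀ ε : Fin n → Bool, rad x (Fin.cons true ε : Fin (n + 1) → Bool) ^ 4 +
        rad x (Fin.cons false ε : Fin (n + 1) → Bool) ^ 4 =
        2 * x 0 ^ 4 + 12 * x 0 ^ 2 * rad (fun i => x i.succ) ε ^ 2 +
          2 * rad (fun i => x i.succ) ε ^ 4 := by
      intro ε
      rw [rad_cons, rad_cons]
      simp only [sg, if_true, Bool.false_eq_true, if_false]
      ring
    simp only [h]
    rw [sum_add_distrib, sum_add_distrib, ← mul_sum, ← mul_sum, ← mul_sum, rad_second_fin]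
    have h2 := ih (fun i => x i.succ)
    have h3 : (0 : ℝ) ≤ ∑ i : Fin n, x i.succ ^ 2 := sum_nonneg fun _ _ => sq_nonneg _
    simp only [sum_const, card_univ, Fintype.card_fun, Fintype.card_bool, Fintype.card_fin,
      nsmul_eq_mul, Nat.cast_pow, Nat.cast_ofNat]
    have h4 : (0 : ℝ) < 2 ^ n := by positivity
    have h5 : (0 : ℝ) ≤ 2 ^ n * x 0 ^ 4 := by positivity
    rw [pow_succ (2 : ℝ) n]
    nlinarith

variable {M : Type*} [Fintype M] [DecidableEq M]

theorem rad_second (x : M → ℝ) :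
    ∑ ε, rad x ε ^ 2 = 2 ^ Fintype.card M * ∑ i, x i ^ 2 := by
  classical
  let e := Fintype.equivFin M
  have h := rad_second_fin _ (fun i => x (e.symm i))
  rw [e.symm.sum_comp (fun m => x m ^ 2)] at h
  rw [← h, ← (Equiv.arrowCongr e (Equiv.refl Bool)).sum_comp]
  refine sum_congr rfl fun ε _ => ?_
  congr 1
  unfold rad
  rw [← e.symm.sum_comp]
  simp [Equiv.arrowCongr]

theorem rad_fourth (x : M → ℝ) :
    ∑ ε, rad x ε ^ 4 ≤ 3 * 2 ^ Fintype.card M * (∑ i, x i ^ 2) ^ 2 := by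
  classical
  let e := Fintype.equivFin M
  have h := rad_fourth_fin _ (fun i => x (e.symm i))
  rw [e.symm.sum_comp (fun m => x m ^ 2)] at h
  refine le_trans (le_of_eq ?_) h
  rw [← (Equiv.arrowCongr e (Equiv.refl Bool)).sum_comp]
  refine sum_congr rfl fun ε _ => ?_
  congr 1
  unfold rad
  rw [← e.symm.sum_comp]
  simp [Equiv.arrowCongr]

/-- Khintchine's inequality, with constant two. -/
theorem khintchine (x : M → ℝ) :
    2 ^ Fintype.card M * √(∑ i, x i ^ 2) ≤ 2 * ∑ ε, |rad x ε| := by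
  set s := √(∑ i, x i ^ 2) with hs
  have hs0 : 0 ≤ s := Real.sqrt_nonneg _
  have hss : s ^ 2 = ∑ i, x i ^ 2 := Real.sq_sqrt (sum_nonneg fun _ _ => sq_nonneg _)
  rcases hs0.eq_or_lt with h0 | h0
  · rw [← h0]
    simp only [mul_zero]
    positivity
  have key : ∀ y : ℝ, 0 ≤ y → 5 / 2 * (3 * s) * (y ^ 2 / (3 * s) ^ 2 - y ^ 4 / (3 * s) ^ 4) ≤ y := by
    intro y hy
    set z := y / (3 * s) with hz
    have hy' : y = 3 * s * z := by rw [hz]; field_simp
    have hz0 : 0 ≤ z := by positivity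
    have h1 : y ^ 2 / (3 * s) ^ 2 = z ^ 2 := by rw [hz, div_pow]
    have h2 : y ^ 4 / (3 * s) ^ 4 = z ^ 4 := by rw [hz, div_pow]
    rw [h1, h2, hy']
    have h3 : 5 / 2 * (z ^ 2 - z ^ 4) ≤ z := by
      have h4 : z * (1 - 5 / 2 * z + 5 / 2 * z ^ 3) ≥ 0 := by
        apply mul_nonneg hz0
        nlinarith [sq_nonneg (z - 23 / 40), mul_nonneg hz0 (sq_nonneg (z - 23 / 40)), hz0]
      nlinarith
    nlinarith [mul_le_mul_of_nonneg_left h3 (show 0 ≤ 3 * s by positivity)]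
  have h1 : ∑ ε, (5 / 2 * (3 * s) * (|rad x ε| ^ 2 / (3 * s) ^ 2 - |rad x ε| ^ 4 / (3 * s) ^ 4)) ≤
      ∑ ε, |rad x ε| := sum_le_sum fun ε _ => key _ (abs_nonneg _)
  rw [← mul_sum, sum_sub_distrib, ← sum_div, ← sum_div] at h1
  simp only [sq_abs] at h1
  have h2 : ∀ y : ℝ, |y| ^ 4 = y ^ 4 := fun y => by
    rw [show (4 : ℕ) = 2 * 2 by norm_num, pow_mul, pow_mul, sq_abs]
  simp only [h2] at h1
  rw [rad_second, ← hss] at h1
  have h3 := rad_fourth x
  rw [← hss] at h3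
  set N : ℝ := 2 ^ Fintype.card M with hN
  have hN0 : 0 < N := by positivity
  have h4 : (∑ ε, rad x ε ^ 4) / (3 * s) ^ 4 ≤ N / 27 := by
    rw [div_le_iff₀ (by positivity)]
    calc (∑ ε, rad x ε ^ 4) ≤ 3 * N * (s ^ 2) ^ 2 := h3
      _ = N / 27 * (3 * s) ^ 4 := by ring
  have h5 : N * s ^ 2 / (3 * s) ^ 2 = N / 9 := by
    field_simp
    norm_num
  rw [h5] at h1
  have h6 : 5 / 2 * (3 * s) * (N / 9 - N / 27) ≤ ∑ ε, |rad x ε| := by
    refine le_trans ?_ h1
    apply mul_le_mul_of_nonneg_left _ (by positivity)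
    linarith
  nlinarith [mul_pos hN0 h0]

end Pool.Agent.helper71.AL
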