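import Mathlib

/-!
# Iterated ultrafilters on sequences of natural numbers
-/

set_option autoImplicit false

open Filter Topology

namespace Pool.Agent.helper71.AL

/-- Prepend a number to a sequence. -/
def cons (j : ℕ) (k : ℕ → ℕ) : ℕ → ℕ
  | 0 => j
  | q + 1 => k q

@[simp] theorem cons_zero (j : ℕ) (k : ℕ → ℕ) : cons j k 0 = j := rfl
@[simp] theorem cons_succ (j : ℕ) (k : ℕ → ℕ) (q : ℕ) : cons j k (q + 1) = k q := rfl

/-- A nonprincipal ultrafilter on the natural numbers. -/
noncomputable def U : Ultrafilter ℕ := hyperfilter ℕ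

theorem eventually_U_ge (c : ℕ) : ∀ᶠ j in (U : Filter ℕ), c ≤ j := by
  have h : (U : Filter ℕ) ≤ atTop := by
    rw [← Nat.cofinite_eq_atTop]
    exact hyperfilter_le_cofinite
  exact h (eventually_ge_atTop c)

/-- The iterated ultrafilter, with `Q` coordinates. -/
noncomputable def V : ℕ → Ultrafilter (ℕ → ℕ)
  | 0 => pure (fun _ => 0)
  | Q + 1 => Ultrafilter.bind U (fun j => Ultrafilter.map (cons j) (V Q))

theorem eventually_V_zero {φ : (ℕ → ℕ) → Prop} :
    (∀ᶠ k in (V 0 : Filter (ℕ → ℕ)), φ k) ↔ φ (fun _ => 0) := by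
  simp [V]

theorem eventually_V_succ {Q : ℕ} {φ : (ℕ → ℕ) → Prop} :
    (∀ᶠ k in (V (Q + 1) : Filter (ℕ → ℕ)), φ k) ↔
      ∀ᶠ j in (U : Filter ℕ), ∀ᶠ k in (V Q : Filter (ℕ → ℕ)), φ (cons j k) := by
  rw [V]
  rfl

/-- `φ` depends only on the first `Q` coordinates. -/
def Dep {α : Type*} (Q : ℕ) (φ : (ℕ → ℕ) → α) : Prop :=
  ∀ k k' : ℕ → ℕ, (∀ q < Q, k q = k' q) → φ k = φ k'

theorem Dep.cons {α : Type*} {Q : ℕ} {φ : (ℕ → ℕ) → α} (h : Dep (Q + 1) φ) (j : ℕ) :
    Dep Q (fun k => φ (cons j k)) := by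
  intro k k' hk
  refine h _ _ (fun q hq => ?_)
  cases q with
  | zero => rfl
  | succ q => exact hk q (by omega)

theorem Dep.mono {α : Type*} {Q Q' : ℕ} {φ : (ℕ → ℕ) → α} (h : Dep Q φ) (hQ : Q ≤ Q') :
    Dep Q' φ := fun k k' hk => h k k' (fun q hq => hk q (lt_of_lt_of_le hq hQ))

/-- Reindexing invariance of the iterated ultrafilter. -/
theorem eventually_reindex (Q' : ℕ) : ∀ (Q : ℕ) (s : ℕ → ℕ) (φ : (ℕ → ℕ) → Prop),
    StrictMono s → Dep Q φ → (∀ q < Q, s q < Q') →
    ((∀ᶠ k in (V Q' : Filter (ℕ → ℕ)), φ (fun q => k (s q))) ↔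
      ∀ᶠ k in (V Q : Filter (ℕ → ℕ)), φ k) := by
  induction Q' with
  | zero =>
    intro Q s φ hs hd hQ
    have hQ0 : Q = 0 := by
      by_contra h
      exact absurd (hQ 0 (by omega)) (by omega)
    subst hQ0
    have h0 : ∀ k, φ k = φ (fun _ => 0) := fun k => hd k _ (by intro q hq; omega)
    simp only [h0]
  | succ Q' ih =>
    intro Q s φ hs hd hQ
    cases Q with
    | zero =>
      have h0 : ∀ k, φ k = φ (fun _ => 0) := fun k => hd k _ (by intro q hq; omega)
      simp only [h0]
      constructor <;> intro h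
      · have := h.exists
        exact Eventually.of_forall fun _ => this.choose_spec
      · have := h.exists
        exact Eventually.of_forall fun _ => this.choose_spec
    | succ Q =>
      rw [eventually_V_succ]
      by_cases h0 : s 0 = 0
      · rw [eventually_V_succ]
        refine eventually_congr (Eventually.of_forall fun j => ?_)
        have hs' : StrictMono (fun q => s (q + 1) - 1) := by
          intro a b hab
          have h1 := hs (show a + 1 < b + 1 by omega)
          have h2 := hs (show 0 < a + 1 by omega)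
          dsimp only
          omega
        have := ih Q (fun q => s (q + 1) - 1) (fun k => φ (cons j k)) hs' (hd.cons j)
          (fun q hq => by
            have := hQ (q + 1) (by omega)
            have h2 := hs (show 0 < q + 1 by omega)
            omega)
        rw [← this]
        refine eventually_congr (Eventually.of_forall fun k => ?_)
        have : (fun q => cons j k (s q)) = cons j (fun q => k (s (q + 1) - 1)) := by
          funext q
          cases q with
          | zero => simp [h0]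
          | succ q =>
            have h2 := hs (show 0 < q + 1 by omega)
            obtain ⟨r, hr⟩ : ∃ r, s (q + 1) = r + 1 := ⟨s (q + 1) - 1, by omega⟩
            simp [hr]
        rw [this]
      · have hs' : StrictMono (fun q => s q - 1) := by
          intro a b hab
          have h1 := hs hab
          have h2 := hs.monotone (Nat.zero_le a)
          dsimp only
          omega
        have := ih (Q + 1) (fun q => s q - 1) φ hs' hd (fun q hq => by
            have := hQ q hq
            have h2 := hs.monotone (Nat.zero_le q)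
            omega)
        rw [← this]
        have h3 : ∀ j : ℕ, (∀ᶠ k in (V Q' : Filter (ℕ → ℕ)), φ (fun q => cons j k (s q))) ↔
            ∀ᶠ k in (V Q' : Filter (ℕ → ℕ)), φ (fun q => k (s q - 1)) := by
          intro j
          refine eventually_congr (Eventually.of_forall fun k => ?_)
          have : (fun q => cons j k (s q)) = fun q => k (s q - 1) := by
            funext q
            have h2 := hs.monotone (Nat.zero_le q)
            obtain ⟨r, hr⟩ : ∃ r, s q = r + 1 := ⟨s q - 1, by omega⟩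
            simp [hr]
          rw [this]
        simp only [h3]
        constructor <;> intro h
        · have := h.exists
          exact this.choose_spec
        · exact Eventually.of_forall fun _ => h

/-- Growth along the iterated ultrafilter. -/
theorem eventually_growth (Q : ℕ) : ∀ (Φ : ℕ → (ℕ → ℕ) → ℕ),
    (∀ q, Dep q (Φ q)) → ∀ᶠ k in (V Q : Filter (ℕ → ℕ)), ∀ q < Q, Φ q k ≤ k q := by
  induction Q with
  | zero =>
    intro Φ _
    rw [eventually_V_zero]
    intro q hq
    omega
  | succ Q ih =>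
    intro Φ hΦ
    rw [eventually_V_succ]
    filter_upwards [eventually_U_ge (Φ 0 (fun _ => 0))] with j hj
    filter_upwards [ih (fun q k => Φ (q + 1) (cons j k)) (fun q => (hΦ (q + 1)).cons j)] with k hk
    intro q hq
    cases q with
    | zero =>
      rw [hΦ 0 (cons j k) (fun _ => 0) (by intro q hq; omega)]
      exact hj
    | succ q => exact hk q (by omega)

/-- From an event in the iterated ultrafilter to a strategy. -/
theorem exists_strategy (Q : ℕ) : ∀ (W : (ℕ → ℕ) → Prop),
    (∀ᶠ k in (V Q : Filter (ℕ → ℕ)), W k) →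
    ∃ g : (ℕ → ℕ) → (ℕ → ℕ), (∀ κ, W (g κ)) ∧ (∀ κ, ∀ q < Q, κ q ≤ g κ q) ∧
      ∀ κ κ' : ℕ → ℕ, ∀ q, (∀ q' ≤ q, κ q' = κ' q') → g κ q = g κ' q := by
  induction Q with
  | zero =>
    intro W hW
    rw [eventually_V_zero] at hW
    exact ⟨fun _ _ => 0, fun _ => hW, fun _ q hq => by omega, fun _ _ _ _ => rfl⟩
  | succ Q ih =>
    intro W hW
    rw [eventually_V_succ] at hW
    have h1 : ∀ c : ℕ, ∃ j : ℕ, c ≤ j ∧ ∃ g : (ℕ → ℕ) → (ℕ → ℕ), (∀ κ, W (cons j (g κ))) ∧
        (∀ κ, ∀ q < Q, κ q ≤ g κ q) ∧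
        ∀ κ κ' : ℕ → ℕ, ∀ q, (∀ q' ≤ q, κ q' = κ' q') → g κ q = g κ' q := by
      intro c
      obtain ⟨j, hj1, hj2⟩ := ((eventually_U_ge c).and hW).exists
      exact ⟨j, hj1, ih (fun k => W (cons j k)) hj2⟩
    choose J hJ g hg1 hg2 hg3 using h1
    refine ⟨fun κ => cons (J (κ 0)) (g (κ 0) (fun q => κ (q + 1))), fun κ => hg1 _ _, ?_, ?_⟩
    · intro κ q hq
      cases q with
      | zero => exact hJ _
      | succ q => exact hg2 (κ 0) (fun q => κ (q + 1)) q (by omega)
    · intro κ κ' q hq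
      cases q with
      | zero =>
        have : κ 0 = κ' 0 := hq 0 le_rfl
        simp [this]
      | succ q =>
        have h0 : κ 0 = κ' 0 := hq 0 (Nat.zero_le _)
        simp only [cons_succ, h0]
        exact hg3 (κ' 0) _ _ q (fun q' hq' => hq (q' + 1) (by omega))

/-- The limit along the iterated ultrafilter. -/
noncomputable def lm (Q : ℕ) (φ : (ℕ → ℕ) → ℝ) : ℝ := limUnder (V Q : Filter (ℕ → ℕ)) φ

theorem tendsto_lm (Q : ℕ) {φ : (ℕ → ℕ) → ℝ} {B : ℝ} (h : ∀ k, |φ k| ≤ B) :
    Tendsto φ (V Q : Filter (ℕ → ℕ)) (𝓝 (lm Q φ)) := by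
  have hc : IsCompact (Set.Icc (-B) B) := isCompact_Icc
  have h1 : ((Ultrafilter.map φ (V Q) : Ultrafilter ℝ) : Filter ℝ) ≤ 𝓟 (Set.Icc (-B) B) := by
    rw [le_principal_iff, Ultrafilter.coe_map, mem_map]
    exact Eventually.of_forall fun k => abs_le.1 (h k)
  obtain ⟨L, _, hL⟩ := hc.ultrafilter_le_nhds _ h1
  have h2 : Tendsto φ (V Q : Filter (ℕ → ℕ)) (𝓝 L) := by
    rw [Ultrafilter.coe_map] at hL
    exact hL
  exact tendsto_nhds_limUnder ⟨L, h2⟩

theorem lm_eq {Q : ℕ} {φ : (ℕ → ℕ) → ℝ} {L : ℝ}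
    (h : Tendsto φ (V Q : Filter (ℕ → ℕ)) (𝓝 L)) : lm Q φ = L := h.limUnder_eq

theorem lm_reindex {Q Q' : ℕ} {s : ℕ → ℕ} (hs : StrictMono s) (hQ : ∀ q < Q, s q < Q')
    {φ : (ℕ → ℕ) → ℝ} (hd : Dep Q φ) {B : ℝ} (h : ∀ k, |φ k| ≤ B) :
    lm Q' (fun k => φ (fun q => k (s q))) = lm Q φ := by
  apply lm_eq
  have h1 := tendsto_lm Q h
  rw [tendsto_def] at h1 ⊢
  intro A hA
  have := h1 A hA
  have h2 := (eventually_reindex Q' Q s (fun k => φ k ∈ A) hs
    (fun k k' hk => by
      show (φ k ∈ A) = (φ k' ∈ A)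
      rw [hd k k' hk]) hQ).2 this
  exact h2

end Pool.Agent.helper71.AL
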